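import Pool.Agent.N924.LP.Box

/-!
# Counting in boxes by means of fibres
-/

set_option autoImplicit false

namespace Pool.Agent.V5helper45.LS

open Finset Function

variable {κ : Type} [Fintype κ] [DecidableEq κ]

/-- the box `lo i < x i ≤ hi i` -/
noncomputable def bx (lo hi : κ → ℤ) : Finset (κ → ℤ) := Fintype.piFinset fun i => Ioc (lo i) (hi i)

lemma mem_bx {lo hi : κ → ℤ} {x : κ → ℤ} : x ∈ bx lo hi ↔ ∀ i, lo i < x i ∧ x i ≤ hi i := by
  simp [bx]

lemma upd_mem {lo hi : κ → ℤ} {x : κ → ℤ} (hx : x ∈ bx lo hi) (u : κ) {t : ℤ}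
    (ht : t ∈ Ioc (lo u) (hi u)) : update x u t ∈ bx lo hi := by
  rw [mem_bx] at hx ⊢
  intro i
  by_cases h : i = u
  · subst h
    rw [update_self]
    exact mem_Ioc.1 ht
  · rw [update_of_ne h]
    exact hx i

open Classical in
lemma fiber_nat (lo hi : κ → ℤ) (u : κ) (S T : (κ → ℤ) → Prop)
    (hST : ∀ x ∈ bx lo hi, S x → T x)
    (hT : ∀ x ∈ bx lo hi, T x → ∀ t ∈ Ioc (lo u) (hi u), T (update x u t)) (M : ℕ)
    (hM : ∀ x ∈ bx lo hi, #{t ∈ Ioc (lo u) (hi u) | S (update x u t)} ≤ M) :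
    #{x ∈ bx lo hi | S x} * #(Ioc (lo u) (hi u)) ≤ M * #{x ∈ bx lo hi | T x} := by
  rw [← card_product]
  apply card_le_mul_card_image_of_maps_to (f := fun z : (κ → ℤ) × ℤ => update z.1 u z.2)
  · rintro ⟨x, t⟩ hz
    rw [mem_product, mem_filter] at hz
    rw [mem_filter]
    exact ⟨upd_mem hz.1.1 u hz.2, hT x hz.1.1 (hST x hz.1.1 hz.1.2) t hz.2⟩
  · intro y hy
    rw [mem_filter] at hy
    refine le_trans (card_le_card_of_injOn (fun z => z.1 u) ?_ ?_) (hM y hy.1)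
    · rintro ⟨x, t⟩ hz
      simp only [coe_filter, mem_product, mem_filter, Set.mem_ofPred_eq] at hz
      obtain ⟨⟨⟨hx, hS⟩, ht⟩, hxy⟩ := hz
      simp only [coe_filter, Set.mem_ofPred_eq]
      refine ⟨mem_Ioc.2 (mem_bx.1 hx u), ?_⟩
      rw [← hxy, update_idem, update_eq_self]
      exact hS
    · rintro ⟨x, t⟩ hz ⟨x', t'⟩ hz' h
      simp only [coe_filter, mem_product, Set.mem_ofPred_eq] at hz hz'
      obtain ⟨-, hxy⟩ := hz
      obtain ⟨-, hxy'⟩ := hz'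
      have h1 : t = t' := by
        have e1 := congrFun hxy u
        have e2 := congrFun hxy' u
        simp only [update_self] at e1 e2
        rw [e1, e2]
      have h2 : x = x' := by
        have h' : x u = x' u := h
        have e1 : x = update y u (x u) := by rw [← hxy, update_idem, update_eq_self]
        have e2 : x' = update y u (x' u) := by rw [← hxy', update_idem, update_eq_self]
        rw [e1, e2, h']
      rw [h1, h2]

open Classical in
/-- counting by means of fibres -/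
lemma fiber_real (lo hi : κ → ℤ) (u : κ) (S T : (κ → ℤ) → Prop)
    (hST : ∀ x ∈ bx lo hi, S x → T x)
    (hT : ∀ x ∈ bx lo hi, T x → ∀ t ∈ Ioc (lo u) (hi u), T (update x u t)) (hlt : lo u < hi u) (M : ℝ)
    (hM : ∀ x ∈ bx lo hi, (#{t ∈ Ioc (lo u) (hi u) | S (update x u t)} : ℝ) ≤ M * (hi u - lo u)) :
    (#{x ∈ bx lo hi | S x} : ℝ) ≤ M * #{x ∈ bx lo hi | T x} := by
  have hcard : ((#(Ioc (lo u) (hi u)) : ℕ) : ℝ) = (hi u : ℝ) - lo u := by
    rw [Int.card_Ioc]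
    have h3 : (((hi u - lo u).toNat : ℤ) : ℝ) = ((hi u - lo u : ℤ) : ℝ) := by
      rw [Int.toNat_of_nonneg (by linarith)]
    push_cast at h3
    exact_mod_cast h3
  have hL : (0 : ℝ) < (hi u : ℝ) - lo u := by
    have : (lo u : ℝ) < hi u := by exact_mod_cast hlt
    linarith
  have h1 := fiber_nat lo hi u S T hST hT ⌊M * (hi u - lo u)⌋₊ (fun x hx => Nat.le_floor (hM x hx))
  have h2 : ((#{x ∈ bx lo hi | S x} : ℕ) : ℝ) * ((hi u : ℝ) - lo u) ≤
      (⌊M * (hi u - lo u)⌋₊ : ℝ) * (#{x ∈ bx lo hi | T x} : ℕ) := by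
    have h1' : ((#{x ∈ bx lo hi | S x} : ℕ) : ℝ) * (#(Ioc (lo u) (hi u)) : ℕ) ≤
      (⌊M * (hi u - lo u)⌋₊ : ℝ) * (#{x ∈ bx lo hi | T x} : ℕ) := by exact_mod_cast h1
    rw [hcard] at h1'
    exact h1'
  have h0 : 0 ≤ M * ((hi u : ℝ) - lo u) ∨ #{x ∈ bx lo hi | S x} = 0 := by
    by_cases he : (bx lo hi).Nonempty
    · obtain ⟨x, hx⟩ := he
      left
      exact le_trans (by positivity) (hM x hx)
    · right
      rw [Finset.not_nonempty_iff_eq_empty] at he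
      rw [he]
      rfl
  rcases h0 with h0 | h0
  · have h3 := Nat.floor_le h0
    have h4 : ((#{x ∈ bx lo hi | S x} : ℕ) : ℝ) * ((hi u : ℝ) - lo u) ≤
        (M * #{x ∈ bx lo hi | T x}) * ((hi u : ℝ) - lo u) := by
      refine h2.trans ?_
      have : (⌊M * (hi u - lo u)⌋₊ : ℝ) * (#{x ∈ bx lo hi | T x} : ℕ) ≤
          (M * ((hi u : ℝ) - lo u)) * (#{x ∈ bx lo hi | T x} : ℕ) := by
        apply mul_le_mul_of_nonneg_right h3
        positivity
      refine this.trans (le_of_eq ?_)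
      ring
    exact le_of_mul_le_mul_right h4 hL
  · by_cases he : (bx lo hi).Nonempty
    · obtain ⟨x, hx⟩ := he
      have h5 : 0 ≤ M := by
        by_contra hneg
        have h6 := hM x hx
        have h7 : (0 : ℝ) ≤ (#{t ∈ Ioc (lo u) (hi u) | S (update x u t)} : ℝ) := by positivity
        have h8 : M * ((hi u : ℝ) - lo u) < 0 := mul_neg_of_neg_of_pos (not_le.1 hneg) hL
        linarith
      rw [h0]
      push_cast
      positivity
    · rw [Finset.not_nonempty_iff_eq_empty] at he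
      rw [he]
      simp

open Classical in
/-- integers in few residue classes -/
lemma class_count (lo hi : ℤ) (p : ℕ) (hp : 1 ≤ p) (hL : (p : ℤ) ≤ hi - lo) (Z : Finset (ZMod p)) :
    (#{t ∈ Ioc lo hi | ((t : ℤ) : ZMod p) ∈ Z} : ℝ) ≤ 2 * #Z / p * (hi - lo) := by
  have hp0 : (0 : ℝ) < p := by exact_mod_cast hp
  have hNe : NeZero p := ⟨by omega⟩
  have hLr : (p : ℝ) ≤ (hi : ℝ) - lo := by exact_mod_cast hL
  have h1 : {t ∈ Ioc lo hi | ((t : ℤ) : ZMod p) ∈ Z} ⊆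
      Z.biUnion fun z => {t ∈ Ioc lo hi | (p : ℤ) ∣ t - (z.val : ℤ)} := by
    intro t ht
    rw [mem_filter] at ht
    rw [mem_biUnion]
    refine ⟨_, ht.2, ?_⟩
    rw [mem_filter]
    refine ⟨ht.1, ?_⟩
    rw [← ZMod.intCast_zmod_eq_zero_iff_dvd]
    push_cast
    rw [ZMod.natCast_zmod_val]
    simp
  have h2 : ∀ z ∈ Z, (#{t ∈ Ioc lo hi | (p : ℤ) ∣ t - (z.val : ℤ)} : ℝ) ≤ 2 / p * (hi - lo) := by
    intro z _
    have h3 := Pool.Agent.N924.LP.count lo hi (by linarith) p hp (z.val : ℤ)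
    have h4 := (abs_le.1 h3).2
    have h5 : (1 : ℝ) ≤ ((hi : ℝ) - lo) / p := by
      rw [le_div_iff₀ hp0]
      linarith
    have h6 : 2 / (p : ℝ) * (hi - lo) = ((hi : ℝ) - lo) / p + ((hi : ℝ) - lo) / p := by
      field_simp
      ring
    rw [h6]
    linarith
  calc (#{t ∈ Ioc lo hi | ((t : ℤ) : ZMod p) ∈ Z} : ℝ)
      ≤ (#(Z.biUnion fun z => {t ∈ Ioc lo hi | (p : ℤ) ∣ t - (z.val : ℤ)}) : ℝ) := by
        exact_mod_cast card_le_card h1
    _ ≤ ∑ z ∈ Z, (#{t ∈ Ioc lo hi | (p : ℤ) ∣ t - (z.val : ℤ)} : ℝ) := by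
        exact_mod_cast card_biUnion_le
    _ ≤ ∑ z ∈ Z, 2 / p * ((hi : ℝ) - lo) := sum_le_sum h2
    _ = 2 * #Z / p * (hi - lo) := by
        rw [sum_const, nsmul_eq_mul]
        ring

/-- the number of the points of the box with the property `S` -/
noncomputable def cb (lo hi : κ → ℤ) (S : (κ → ℤ) → Prop) : ℕ := {x | x ∈ bx lo hi ∧ S x}.ncard

/-- the number of the integers in the interval with the property `S` -/
noncomputable def ci (lo hi : ℤ) (S : ℤ → Prop) : ℕ := {t | t ∈ Ioc lo hi ∧ S t}.ncard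

open Classical in
lemma cb_eq (lo hi : κ → ℤ) (S : (κ → ℤ) → Prop) : cb lo hi S = #{x ∈ bx lo hi | S x} := by
  rw [cb, ← Set.ncard_coe_finset]
  congr 1
  ext x
  simp

open Classical in
lemma ci_eq (lo hi : ℤ) (S : ℤ → Prop) : ci lo hi S = #{t ∈ Ioc lo hi | S t} := by
  rw [ci, ← Set.ncard_coe_finset]
  congr 1
  ext x
  simp

lemma cb_mono (lo hi : κ → ℤ) {S T : (κ → ℤ) → Prop} (h : ∀ x ∈ bx lo hi, S x → T x) :
    cb lo hi S ≤ cb lo hi T := by
  classical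
  rw [cb_eq, cb_eq]
  apply card_le_card
  intro x hx
  rw [mem_filter] at hx ⊢
  exact ⟨hx.1, h x hx.1 hx.2⟩

lemma ci_mono (lo hi : ℤ) {S T : ℤ → Prop} (h : ∀ t, S t → T t) :
    ci lo hi S ≤ ci lo hi T := by
  classical
  rw [ci_eq, ci_eq]
  apply card_le_card
  intro x hx
  rw [mem_filter] at hx ⊢
  exact ⟨hx.1, h x hx.2⟩

lemma cb_true (lo hi : κ → ℤ) : cb lo hi (fun _ => True) = #(bx lo hi) := by
  classical
  rw [cb_eq, filter_true]

lemma cb_union {α : Type} (s : Finset α) (lo hi : κ → ℤ) {S : (κ → ℤ) → Prop}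
    (T : α → (κ → ℤ) → Prop) (h : ∀ x ∈ bx lo hi, S x → ∃ i ∈ s, T i x) :
    cb lo hi S ≤ ∑ i ∈ s, cb lo hi (T i) := by
  classical
  simp only [cb_eq]
  refine (card_le_card ?_).trans (card_biUnion_le (s := s) (t := fun i => {x ∈ bx lo hi | T i x}))
  intro x hx
  rw [mem_filter] at hx
  obtain ⟨i, hi, hx2⟩ := h x hx.1 hx.2
  rw [mem_biUnion]
  exact ⟨i, hi, mem_filter.2 ⟨hx.1, hx2⟩⟩

lemma cb_or (lo hi : κ → ℤ) {S T U : (κ → ℤ) → Prop} (h : ∀ x ∈ bx lo hi, S x → T x ∨ U x) :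
    cb lo hi S ≤ cb lo hi T + cb lo hi U := by
  classical
  rw [cb_eq, cb_eq, cb_eq]
  refine (card_le_card ?_).trans (card_union_le _ _)
  intro x hx
  rw [mem_filter] at hx
  rw [mem_union, mem_filter, mem_filter]
  rcases h x hx.1 hx.2 with h1 | h1
  · exact Or.inl ⟨hx.1, h1⟩
  · exact Or.inr ⟨hx.1, h1⟩

/-- counting by means of fibres -/
lemma fiber (lo hi : κ → ℤ) (u : κ) (S T : (κ → ℤ) → Prop)
    (hST : ∀ x ∈ bx lo hi, S x → T x)
    (hT : ∀ x ∈ bx lo hi, T x → ∀ t ∈ Ioc (lo u) (hi u), T (update x u t)) (hlt : lo u < hi u) (M : ℝ)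
    (hM : ∀ x ∈ bx lo hi, (ci (lo u) (hi u) (fun t => S (update x u t)) : ℝ) ≤ M * (hi u - lo u)) :
    (cb lo hi S : ℝ) ≤ M * cb lo hi T := by
  classical
  rw [cb_eq, cb_eq]
  refine fiber_real lo hi u S T hST hT hlt M fun x hx => ?_
  have := hM x hx
  rw [ci_eq] at this
  exact this

lemma ci_class (lo hi : ℤ) (p : ℕ) (hp : 1 ≤ p) (hL : (p : ℤ) ≤ hi - lo) (Z : Finset (ZMod p)) :
    (ci lo hi (fun t => ((t : ℤ) : ZMod p) ∈ Z) : ℝ) ≤ 2 * #Z / p * (hi - lo) := by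
  classical
  rw [ci_eq]
  refine le_trans (le_of_eq ?_) (class_count lo hi p hp hL Z)
  congr 2
  ext t
  simp

end Pool.Agent.V5helper45.LS
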