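import Pool.Agent.V5helper45.LS.Inj
import Pool.Agent.H33R4.Final

/-!
# At most `r` bad parameters in each residue class
-/

set_option autoImplicit false

namespace Pool.Agent.V5helper45.LS

open Polynomial Matrix
open Pool.Agent.H33R4 (IsLog)

/-- a right inverse of a matrix with independent rows -/
lemma exists_rinv {F ι : Type} [Field F] [Fintype ι] [DecidableEq ι] {r : ℕ} (R : Fin r → ι → F)
    (hR : ∀ γ : Fin r → F, (∀ x, ∑ i, γ i * R i x = 0) → γ = 0) :
    ∃ T : ι → Fin r → F, ∀ i j, ∑ x, R i x * T x j = if i = j then 1 else 0 := by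
  set f : (Fin r → F) →ₗ[F] (ι → F) := Fintype.linearCombination F R with hf
  have h3 : LinearMap.ker f = ⊥ := by
    rw [LinearMap.ker_eq_bot']
    intro c hc
    apply hR
    intro x
    have := congrFun hc x
    rw [hf, Fintype.linearCombination_apply, Finset.sum_apply] at this
    simpa using this
  obtain ⟨g, hg⟩ := LinearMap.exists_leftInverse_of_injective f h3
  refine ⟨fun x => g (Pi.single x 1), fun i j => ?_⟩
  have h5 := congrFun (congrArg (fun φ => φ (Pi.single i (1 : F))) hg) j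
  simp only [LinearMap.comp_apply, LinearMap.id_apply] at h5
  have h6 : f (Pi.single i (1 : F)) = ∑ x, (R i x) • (Pi.single x (1 : F) : ι → F) := by
    rw [hf, Fintype.linearCombination_apply_single, one_smul]
    funext k
    rw [Finset.sum_apply]
    simp [Pi.single_apply]
  rw [h6, map_sum, Finset.sum_apply] at h5
  simp only [map_smul, Pi.smul_apply, smul_eq_mul] at h5
  rw [h5, Pi.single_apply]
  by_cases h : i = j
  · simp [h]
  · simp [h, Ne.symm h]

variable {p : ℕ} [Fact p.Prime] {n r : ℕ}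

/-- `det (A + c E)` and `det A` are congruent modulo `c` -/
lemma det_congr {A : Type} [CommRing A] (M E : Matrix (Fin r) (Fin r) A) (c : A)
    (h : (M + c • E).det = 0) : c ∣ M.det := by
  have h1 : (Ideal.Quotient.mk (Ideal.span {c})).mapMatrix (M + c • E) =
      (Ideal.Quotient.mk (Ideal.span {c})).mapMatrix M := by
    ext1 i j
    simp only [RingHom.mapMatrix_apply, Matrix.map_apply, Matrix.add_apply, Matrix.smul_apply,
      smul_eq_mul, map_add, map_mul]
    have : Ideal.Quotient.mk (Ideal.span {c}) c = 0 :=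
      Ideal.Quotient.eq_zero_iff_mem.2 (Ideal.mem_span_singleton_self c)
    rw [this, zero_mul, add_zero]
  rw [← Ideal.mem_span_singleton, ← Ideal.Quotient.eq_zero_iff_mem, RingHom.map_det, ← h1,
    ← RingHom.map_det, h, map_zero]

/-- the polynomial of the family over a ring -/
noncomputable def fam {A : Type} [CommRing A] (P : Fin r → ℤ[X]) (t : ℤ) : A[X] :=
  ((X - C t) * ∏ i, P i - 1 : ℤ[X]).map (Int.castRingHom A)

lemma fam_eq {A : Type} [CommRing A] (P : Fin r → ℤ[X]) (t : ℤ) :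
    (fam P t : A[X]) = (X - C (t : A)) * ∏ i, (P i).map (Int.castRingHom A) - 1 := by
  rw [fam, Polynomial.map_sub, Polynomial.map_mul, Polynomial.map_sub, Polynomial.map_prod,
    Polynomial.map_X, Polynomial.map_C, Polynomial.map_one]
  rfl

lemma fam_natDegree_int (P : Fin r → ℤ[X]) (hPm : ∀ i, (P i).Monic) (t : ℤ)
    (hpos : 1 ≤ ∑ i, (P i).natDegree) :
    ((X - C t) * ∏ i, P i - 1 : ℤ[X]).Monic ∧
      ((X - C t) * ∏ i, P i - 1 : ℤ[X]).natDegree = 1 + ∑ i, (P i).natDegree := by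
  have hm : ((X - C t) * ∏ i, P i : ℤ[X]).Monic :=
    (monic_X_sub_C t).mul (monic_prod_of_monic _ _ fun i _ => hPm i)
  have hd : ((X - C t) * ∏ i, P i : ℤ[X]).natDegree = 1 + ∑ i, (P i).natDegree := by
    rw [(monic_X_sub_C t).natDegree_mul (monic_prod_of_monic _ _ fun i _ => hPm i), natDegree_X_sub_C,
      natDegree_prod_of_monic _ _ fun i _ => hPm i]
  have h1 : (1 : ℤ[X]).degree < ((X - C t) * ∏ i, P i : ℤ[X]).degree := by
    rw [degree_one, degree_eq_natDegree hm.ne_zero, hd]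
    exact_mod_cast (by omega : 0 < 1 + ∑ i, (P i).natDegree)
  refine ⟨hm.sub_of_left h1, ?_⟩
  rw [natDegree_sub_eq_left_of_natDegree_lt, hd]
  rw [hd, natDegree_one]
  omega

lemma fam_monic {A : Type} [CommRing A] (P : Fin r → ℤ[X]) (hPm : ∀ i, (P i).Monic) (t : ℤ)
    (hpos : 1 ≤ ∑ i, (P i).natDegree) : (fam P t : A[X]).Monic :=
  (fam_natDegree_int P hPm t hpos).1.map _

lemma fam_natDegree {A : Type} [CommRing A] [Nontrivial A] (P : Fin r → ℤ[X])
    (hPm : ∀ i, (P i).Monic) (t : ℤ) (hpos : 1 ≤ ∑ i, (P i).natDegree) :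
    (fam P t : A[X]).natDegree = 1 + ∑ i, (P i).natDegree := by
  rw [fam, (fam_natDegree_int P hPm t hpos).1.natDegree_map, (fam_natDegree_int P hPm t hpos).2]

/-- a relation between the logarithms of the units `P i` in `ℤ_p[X] / (f_t)` -/
def Rel (p : ℕ) [Fact p.Prime] (Q : ℕ) (P : Fin r → ℤ[X]) (t : ℤ) : Prop :=
  ∃ w : Fin r → ℤ_[p], w ≠ 0 ∧ ∃ l : Fin r → AdjoinRoot (fam P t : ℤ_[p][X]),
    (∀ i, IsLog p (AdjoinRoot.mk (fam P t : ℤ_[p][X]) ((P i).map (Int.castRingHom ℤ_[p])) ^ (Q * p))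
      (l i)) ∧ ∑ i, w i • l i = 0

lemma eval_CM {A : Type} [CommRing A] (C0 C1 : Matrix (Fin n) (Fin n) A) (s : A) (q : A[X]) :
    (evalRingHom s).mapMatrix (aeval (CM C0 C1) q) = aeval (C0 + s • C1) q := by
  have hC : (evalRingHom s).mapMatrix (CM C0 C1) = C0 + s • C1 := by
    ext1 i j
    simp [CM, KM_apply]
    exact mul_comm _ _
  induction q using Polynomial.induction_on' with
  | add a b ha hb => rw [map_add, map_add, ha, hb, map_add]
  | monomial k a =>
    rw [aeval_monomial, aeval_monomial, ← Algebra.smul_def, ← Algebra.smul_def]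
    have h1 : (evalRingHom s).mapMatrix (a • CM C0 C1 ^ k) =
        a • (evalRingHom s).mapMatrix (CM C0 C1 ^ k) := by
      ext1 i j
      simp
    rw [h1, map_pow, hC]

lemma eval_sg (C0 C1 : Matrix (Fin n) (Fin n) ℤ_[p]) (y : ℤ_[p]) (q : ℤ_[p][X]) :
    (evalRingHom y).mapMatrix ((sg p).mapMatrix (aeval (CM C0 C1) q)) =
      aeval (C0 + ((p : ℤ_[p]) * y) • C1) q := by
  rw [← eval_CM]
  ext1 i j
  simp [sg]

end Pool.Agent.V5helper45.LS
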