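import Pool.Agent.V5helper45.LS.Mem

/-!
# The families with `r₁ + 2 r₂` parameters: counting the exceptions in boxes
-/

set_option autoImplicit false

namespace Pool.Agent.V5helper45.LS

open Polynomial NumberField Function Finset
open Pool.Agent.N924.LP (Idx fB pol Holds)
open Pool.Agent.H637R2.Leo (Leopoldt)

variable {r₁ r₂ : ℕ}

open Classical in
/-- few translates have a common factor with a given polynomial of degree at most two -/
lemma few_common (p : ℕ) [Fact p.Prime] (P0 q : (ZMod p)[X]) (hq : q.Monic) (hd : q.natDegree ≤ 2) :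
    ∃ Z : Finset (ZMod p), #Z ≤ 2 ∧ ∀ s, ¬ IsCoprime (P0 + C s) q → s ∈ Z := by
  refine ⟨univ.filter fun s => ¬ IsCoprime (P0 + C s) q, ?_, fun s hs => by simpa using hs⟩
  by_contra hcon
  rw [not_le, two_lt_card] at hcon
  obtain ⟨a, ha, b, hb, c, hc, hab, hac, hbc⟩ := hcon
  rw [mem_filter] at ha hb hc
  have hex : ∀ s, ¬ IsCoprime (P0 + C s) q → ∃ g, Irreducible g ∧ g ∣ P0 + C s ∧ g ∣ q := by
    intro s hs
    by_contra hno
    push Not at hno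
    exact hs (isCoprime_of_irreducible_dvd (fun h => hq.ne_zero h.2) hno)
  obtain ⟨g1, hg1, h11, h12⟩ := hex a ha.2
  obtain ⟨g2, hg2, h21, h22⟩ := hex b hb.2
  obtain ⟨g3, hg3, h31, h32⟩ := hex c hc.2
  have hcop : ∀ (g g' : (ZMod p)[X]) (s s' : ZMod p), Irreducible g → Irreducible g' →
      g ∣ P0 + C s → g' ∣ P0 + C s' → s ≠ s' → IsCoprime g g' := by
    intro g g' s s' hg hg' h h' hs
    rcases hg.isCoprime_or_dvd g' with h1 | h1
    · exact h1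
    · exfalso
      have h2 : g ∣ C (s - s') := by
        have : C (s - s') = (P0 + C s) - (P0 + C s') := by
          rw [map_sub]
          ring
        rw [this]
        exact dvd_sub h (h1.trans h')
      exact hg.not_isUnit (isUnit_of_dvd_unit h2 (isUnit_C.2 (sub_ne_zero.2 hs).isUnit))
  have h12c := hcop g1 g2 a b hg1 hg2 h11 h21 hab
  have h13c := hcop g1 g3 a c hg1 hg3 h11 h31 hac
  have h23c := hcop g2 g3 b c hg2 hg3 h21 h31 hbc
  have hdvd : g1 * g2 * g3 ∣ q := (h13c.mul_left h23c).mul_dvd (h12c.mul_dvd h12 h22) h32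
  have h4 := natDegree_le_of_dvd hdvd hq.ne_zero
  rw [natDegree_mul (mul_ne_zero hg1.ne_zero hg2.ne_zero) hg3.ne_zero,
    natDegree_mul hg1.ne_zero hg2.ne_zero] at h4
  have h5 := hg1.natDegree_pos
  have h6 := hg2.natDegree_pos
  have h7 := hg3.natDegree_pos
  omega

/-- the factors `i` and `i'` have a common factor modulo `p` -/
def NC (p : ℕ) (i i' : Fin r₁ ⊕ Fin r₂) (x : Idx r₁ r₂ → ℤ) : Prop :=
  ¬ IsCoprime ((fx x i).map (Int.castRingHom (ZMod p))) ((fx x i').map (Int.castRingHom (ZMod p)))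

lemma nc_fiber (p : ℕ) [Fact p.Prime] {i i' : Fin r₁ ⊕ Fin r₂} (h : i ≠ i') (x : Idx r₁ r₂ → ℤ) :
    ∃ Z : Finset (ZMod p), #Z ≤ 2 ∧ ∀ t : ℤ, NC p i i' (update x (cc i) t) → (t : ZMod p) ∈ Z := by
  classical
  obtain ⟨Z, hZ, hZ2⟩ := few_common p ((Pz i x).map (Int.castRingHom (ZMod p)))
    ((fx x i').map (Int.castRingHom (ZMod p))) ((fx_monic x i').map _) (by
      rw [(fx_monic x i').natDegree_map, fx_natDegree]
      rcases i' with q | q <;> simp)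
  have h1 : ∀ t : ℤ, NC p i i' (update x (cc i) t) → ((sn i t : ℤ) : ZMod p) ∈ Z := by
    intro t ht
    apply hZ2
    unfold NC at ht
    rw [fx_self, fx_other x h.symm, Polynomial.map_add, map_C] at ht
    exact ht
  rcases i with i | i
  · refine ⟨Z.image fun z => -z, card_image_le.trans hZ, fun t ht => ?_⟩
    have h2 := h1 t ht
    rw [mem_image]
    refine ⟨_, h2, ?_⟩
    simp [sn]
  · exact ⟨Z, hZ, h1⟩

lemma one_pair (p : ℕ) (hp : p.Prime) {i i' : Fin r₁ ⊕ Fin r₂} (h : i ≠ i') (lo hi : Idx r₁ r₂ → ℤ)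
    (hL : ∀ u, (p : ℤ) ≤ hi u - lo u) :
    (cb lo hi (NC p i i') : ℝ) ≤ 4 / p * #(bx lo hi) := by
  have hF : Fact p.Prime := ⟨hp⟩
  have hp0 : (0 : ℤ) < p := by exact_mod_cast hp.pos
  rw [← cb_true]
  refine fiber lo hi (cc i) (NC p i i') (fun _ => True) (fun _ _ _ => trivial)
    (fun _ _ _ _ _ => trivial) (by have := hL (cc i); linarith) (4 / p) (fun x _ => ?_)
  obtain ⟨Z, hZ, hZ2⟩ := nc_fiber p h x
  have h2 := ci_class (lo (cc i)) (hi (cc i)) p hp.one_lt.le (hL _) Z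
  have h3 : (ci (lo (cc i)) (hi (cc i)) (fun t => NC p i i' (update x (cc i) t)) : ℝ) ≤
      (ci (lo (cc i)) (hi (cc i)) (fun t => ((t : ℤ) : ZMod p) ∈ Z) : ℝ) := by
    exact_mod_cast ci_mono _ _ hZ2
  refine h3.trans (h2.trans ?_)
  have h4 : (0 : ℝ) ≤ (hi (cc i) : ℝ) - lo (cc i) := by
    have : (0 : ℤ) ≤ hi (cc i) - lo (cc i) := by have := hL (cc i); linarith
    exact_mod_cast this
  apply mul_le_mul_of_nonneg_right _ h4
  have h5 : (#Z : ℝ) ≤ 2 := by exact_mod_cast hZ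
  have h6 : (0 : ℝ) < p := by exact_mod_cast hp.pos
  gcongr
  linarith

lemma two_pairs (p : ℕ) (hp : p.Prime) {i i' k k' : Fin r₁ ⊕ Fin r₂} (h : i ≠ i') (h' : k ≠ k')
    (h1 : k ≠ i) (h2 : k ≠ i') (lo hi : Idx r₁ r₂ → ℤ) (hL : ∀ u, (p : ℤ) ≤ hi u - lo u) :
    (cb lo hi (fun x => NC p i i' x ∧ NC p k k' x) : ℝ) ≤ 16 / p ^ 2 * #(bx lo hi) := by
  have hF : Fact p.Prime := ⟨hp⟩
  have hp0 : (0 : ℤ) < p := by exact_mod_cast hp.pos
  have h6 : (0 : ℝ) < p := by exact_mod_cast hp.pos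
  have h3 : (cb lo hi (fun x => NC p i i' x ∧ NC p k k' x) : ℝ) ≤ 4 / p * cb lo hi (NC p i i') := by
    refine fiber lo hi (cc k) (fun x => NC p i i' x ∧ NC p k k' x) (NC p i i')
      (fun _ _ h => h.1) (fun x _ hx t _ => by
      unfold NC at hx ⊢
      rw [fx_other x h1.symm, fx_other x h2.symm]
      exact hx) (by have := hL (cc k); linarith) (4 / p) (fun x _ => ?_)
    obtain ⟨Z, hZ, hZ2⟩ := nc_fiber p h' x
    have h2 := ci_class (lo (cc k)) (hi (cc k)) p hp.one_lt.le (hL _) Z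
    have h3 : (ci (lo (cc k)) (hi (cc k)) (fun t => NC p i i' (update x (cc k) t) ∧
        NC p k k' (update x (cc k) t)) : ℝ) ≤
        (ci (lo (cc k)) (hi (cc k)) (fun t => ((t : ℤ) : ZMod p) ∈ Z) : ℝ) := by
      exact_mod_cast ci_mono _ _ (fun t (ht : NC p i i' (update x (cc k) t) ∧
        NC p k k' (update x (cc k) t)) => hZ2 t ht.2)
    refine h3.trans (h2.trans ?_)
    have h4 : (0 : ℝ) ≤ (hi (cc k) : ℝ) - lo (cc k) := by
      have : (0 : ℤ) ≤ hi (cc k) - lo (cc k) := by have := hL (cc k); linarith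
      exact_mod_cast this
    apply mul_le_mul_of_nonneg_right _ h4
    have h5 : (#Z : ℝ) ≤ 2 := by exact_mod_cast hZ
    gcongr
    linarith
  refine h3.trans ?_
  have h4 := one_pair p hp h lo hi hL
  calc 4 / (p : ℝ) * cb lo hi (NC p i i') ≤ 4 / (p : ℝ) * (4 / p * #(bx lo hi)) := by
        gcongr
    _ = 16 / p ^ 2 * #(bx lo hi) := by
        field_simp
        ring

lemma degenerate (p : ℕ) (x : Idx r₁ r₂ → ℤ) (hr : 1 ≤ r₁ + r₂) (h : ∀ j, ¬ CopExc p j x) :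
    ∃ i i' k k' : Fin r₁ ⊕ Fin r₂, i ≠ i' ∧ k ≠ k' ∧ k ≠ i ∧ k ≠ i' ∧ NC p i i' x ∧ NC p k k' x := by
  have hsymm : ∀ i i' : Fin r₁ ⊕ Fin r₂, NC p i i' x → NC p i' i x := by
    intro i i' h h'
    exact h h'.symm
  have hex : ∀ j, ∃ i i', i ≠ j ∧ i' ≠ j ∧ i ≠ i' ∧ NC p i i' x := by
    intro j
    have h1 := h j
    unfold CopExc at h1
    push Not at h1
    exact h1
  have hne : Nonempty (Fin r₁ ⊕ Fin r₂) := by
    rw [← Fintype.card_pos_iff]
    simp only [Fintype.card_sum, Fintype.card_fin]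
    omega
  obtain ⟨j₀⟩ := hne
  obtain ⟨i, i', -, -, hii, h1⟩ := hex j₀
  obtain ⟨k, k', hk, hk', hkk, h2⟩ := hex i
  by_cases hc : k = i'
  · refine ⟨i, i', k', k, hii, hkk.symm, hk', ?_, h1, hsymm _ _ h2⟩
    rw [← hc]
    exact hkk.symm
  · exact ⟨i, i', k, k', hii, hkk, hk, hc, h1, h2⟩

lemma deg_count (p : ℕ) (hp : p.Prime) (hr : 1 ≤ r₁ + r₂) (lo hi : Idx r₁ r₂ → ℤ)
    (hL : ∀ u, (p : ℤ) ≤ hi u - lo u) :
    (cb lo hi (fun x => ∀ j, ¬ CopExc p j x) : ℝ) ≤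
      ((r₁ + r₂ : ℕ) : ℝ) ^ 4 * (16 / p ^ 2 * #(bx lo hi)) := by
  classical
  set ι := Fin r₁ ⊕ Fin r₂ with hι
  have hsub := cb_union ((univ : Finset (ι × ι × ι × ι)).filter fun z => z.1 ≠ z.2.1 ∧ z.2.2.1 ≠ z.2.2.2 ∧
        z.2.2.1 ≠ z.1 ∧ z.2.2.1 ≠ z.2.1) lo hi (S := fun x => ∀ j, ¬ CopExc p j x)
        (fun z x => NC p z.1 z.2.1 x ∧ NC p z.2.2.1 z.2.2.2 x) (by
    intro x _ hx
    obtain ⟨i, i', k, k', h1, h2, h3, h4, h5, h6⟩ := degenerate p x hr hx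
    refine ⟨(i, i', k, k'), ?_, h5, h6⟩
    rw [mem_filter]
    exact ⟨mem_univ _, h1, h2, h3, h4⟩)
  have h0 : (0 : ℝ) ≤ 16 / p ^ 2 * #(bx lo hi) := by positivity
  have hsub' : (cb lo hi (fun x => ∀ j, ¬ CopExc p j x) : ℝ) ≤
      ∑ z ∈ ((univ : Finset (ι × ι × ι × ι)).filter fun z => z.1 ≠ z.2.1 ∧ z.2.2.1 ≠ z.2.2.2 ∧
        z.2.2.1 ≠ z.1 ∧ z.2.2.1 ≠ z.2.1),
        (cb lo hi (fun x => NC p z.1 z.2.1 x ∧ NC p z.2.2.1 z.2.2.2 x) : ℝ) := by
    exact_mod_cast hsub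
  refine hsub'.trans ?_
  calc _ ≤ ∑ z ∈ ((univ : Finset (ι × ι × ι × ι)).filter fun z => z.1 ≠ z.2.1 ∧ z.2.2.1 ≠ z.2.2.2 ∧
        z.2.2.1 ≠ z.1 ∧ z.2.2.1 ≠ z.2.1), (16 / (p : ℝ) ^ 2 * #(bx lo hi)) := by
        refine sum_le_sum fun z hz => ?_
        rw [mem_filter] at hz
        exact two_pairs p hp hz.2.1 hz.2.2.1 hz.2.2.2.1 hz.2.2.2.2 lo hi hL
    _ ≤ ∑ z : ι × ι × ι × ι, (16 / (p : ℝ) ^ 2 * #(bx lo hi)) :=
        sum_le_sum_of_subset_of_nonneg (filter_subset _ _) fun _ _ _ => h0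
    _ = ((r₁ + r₂ : ℕ) : ℝ) ^ 4 * (16 / p ^ 2 * #(bx lo hi)) := by
        rw [sum_const, nsmul_eq_mul]
        simp only [card_univ, Fintype.card_prod, hι, Fintype.card_sum, Fintype.card_fin]
        push_cast
        ring

/-- the exceptions in one direction -/
lemma dir_count (p : ℕ) (hp : p.Prime) (hp5 : 5 ≤ p) (hpn : 2 * (r₁ + 2 * r₂) ≤ p)
    (j : Fin r₁ ⊕ Fin r₂) (lo hi : Idx r₁ r₂ → ℤ) (L : ℝ) (hL0 : 0 < L)
    (hL : ∀ u, L ≤ (hi u : ℝ) - lo u) :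
    (cb lo hi (fun x => CopExc p j x ∧ Reg x ∧ FailsM x p) : ℝ) ≤
      ((r₁ + r₂ : ℕ) : ℝ) * p / L * #(bx lo hi) := by
  rw [← cb_true]
  refine fiber lo hi (cc j) (fun x => CopExc p j x ∧ Reg x ∧ FailsM x p) (fun _ => True)
    (fun _ _ _ => trivial) (fun _ _ _ _ _ => trivial) (by
      have := hL (cc j)
      have h2 : (lo (cc j) : ℝ) < hi (cc j) := by linarith
      exact_mod_cast h2) (((r₁ + r₂ : ℕ) : ℝ) * p / L) (fun x _ => ?_)
  have hrhs : ((r₁ + r₂ : ℕ) : ℝ) * p ≤ ((r₁ + r₂ : ℕ) : ℝ) * p / L *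
      ((hi (cc j) : ℝ) - lo (cc j)) := by
    have h2 := hL (cc j)
    calc ((r₁ + r₂ : ℕ) : ℝ) * p = ((r₁ + r₂ : ℕ) : ℝ) * p / L * L := by field_simp
      _ ≤ _ := by gcongr
  refine le_trans ?_ hrhs
  by_cases hc : CopExc p j x
  · have hsub : {t : ℤ | t ∈ Ioc (lo (cc j)) (hi (cc j)) ∧ (CopExc p j (update x (cc j) t) ∧
        Reg (update x (cc j) t) ∧ FailsM (update x (cc j) t) p)} ⊆
        ⋃ a ∈ Finset.range p, {t : ℤ | Reg (update x (cc j) t) ∧ t ≡ ((a : ℕ) : ℤ) [ZMOD p] ∧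
          FailsM (update x (cc j) t) p} := by
      rintro t ⟨-, -, h1, h2⟩
      simp only [Set.mem_iUnion]
      have hpos : (0 : ℤ) < p := by exact_mod_cast hp.pos
      refine ⟨(t % p).toNat, ?_, h1, ?_, h2⟩
      · rw [Finset.mem_range]
        have h3 := Int.emod_lt_of_pos t hpos
        have h4 := Int.emod_nonneg t hpos.ne'
        omega
      · rw [Int.toNat_of_nonneg (Int.emod_nonneg t hpos.ne')]
        exact (Int.mod_modEq t p).symm
    have h2 := (Set.encard_le_encard hsub).trans (encard_biUnion_le' _ _)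
    have h3 := h2.trans (Finset.sum_le_sum fun (a : ℕ) _ =>
      class_leM p hp hp5 hpn j x hc (a : ℤ))
    rw [Finset.sum_const, Finset.card_range, nsmul_eq_mul] at h3
    have hfin : {t : ℤ | t ∈ Ioc (lo (cc j)) (hi (cc j)) ∧ (CopExc p j (update x (cc j) t) ∧
        Reg (update x (cc j) t) ∧ FailsM (update x (cc j) t) p)}.Finite :=
      (Finset.finite_toSet (Ioc (lo (cc j)) (hi (cc j)))).subset fun t ht => ht.1
    rw [← hfin.cast_ncard_eq] at h3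
    have h4 : ci (lo (cc j)) (hi (cc j)) (fun t => CopExc p j (update x (cc j) t) ∧
        Reg (update x (cc j) t) ∧ FailsM (update x (cc j) t) p) ≤ p * (r₁ + r₂ - 1) := by
      unfold ci
      exact_mod_cast h3
    have h5 : p * (r₁ + r₂ - 1) ≤ (r₁ + r₂) * p := by
      rw [mul_comm]
      exact Nat.mul_le_mul_right _ (Nat.sub_le _ _)
    exact_mod_cast h4.trans h5
  · have h2 : ci (lo (cc j)) (hi (cc j)) (fun t => CopExc p j (update x (cc j) t) ∧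
        Reg (update x (cc j) t) ∧ FailsM (update x (cc j) t) p) = 0 := by
      unfold ci
      convert Set.ncard_empty ℤ
      rw [Set.eq_empty_iff_forall_notMem]
      rintro t ⟨-, h3, -⟩
      exact hc ((copExc_update p j x t).1 h3)
    rw [h2]
    push_cast
    positivity

/-- **The exceptions for one prime.** -/
theorem prime_count (p : ℕ) (hp : p.Prime) (hp5 : 5 ≤ p) (hpn : 2 * (r₁ + 2 * r₂) ≤ p)
    (hr : 1 ≤ r₁ + r₂) (lo hi : Idx r₁ r₂ → ℤ) (L : ℝ) (hpL : (p : ℝ) ≤ L)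
    (hL : ∀ u, L ≤ (hi u : ℝ) - lo u) :
    (cb lo hi (fun x => Reg x ∧ FailsM x p) : ℝ) ≤
      (16 * ((r₁ + r₂ : ℕ) : ℝ) ^ 4 / p ^ 2 + ((r₁ + r₂ : ℕ) : ℝ) ^ 2 * p / L) * #(bx lo hi) := by
  have hp0 : (0 : ℝ) < p := by exact_mod_cast hp.pos
  have hL0 : 0 < L := lt_of_lt_of_le hp0 hpL
  have h1 := deg_count p hp hr lo hi (fun u => by
    have h2 : (p : ℝ) ≤ (hi u : ℝ) - lo u := hpL.trans (hL u)
    exact_mod_cast h2)
  have h2 := cb_or lo hi (S := fun x => Reg x ∧ FailsM x p) (T := fun x => ∀ j, ¬ CopExc p j x)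
    (U := fun x => ∃ j, CopExc p j x ∧ Reg x ∧ FailsM x p) (by
      intro x _ hx
      by_cases h : ∀ j, ¬ CopExc p j x
      · exact Or.inl h
      · push Not at h
        obtain ⟨j, hj⟩ := h
        exact Or.inr ⟨j, hj, hx⟩)
  have h3 := cb_union (univ : Finset (Fin r₁ ⊕ Fin r₂)) lo hi
    (S := fun x => ∃ j, CopExc p j x ∧ Reg x ∧ FailsM x p)
    (fun j x => CopExc p j x ∧ Reg x ∧ FailsM x p) (by
      rintro x - ⟨j, hj⟩
      exact ⟨j, mem_univ _, hj⟩)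
  have h4 : (cb lo hi (fun x => Reg x ∧ FailsM x p) : ℝ) ≤ cb lo hi (fun x => ∀ j, ¬ CopExc p j x) +
      ∑ j : Fin r₁ ⊕ Fin r₂, (cb lo hi (fun x => CopExc p j x ∧ Reg x ∧ FailsM x p) : ℝ) := by
    exact_mod_cast h2.trans (Nat.add_le_add_left h3 _)
  refine h4.trans ?_
  calc _ ≤ ((r₁ + r₂ : ℕ) : ℝ) ^ 4 * (16 / p ^ 2 * #(bx lo hi)) + ∑ j : Fin r₁ ⊕ Fin r₂,
        (((r₁ + r₂ : ℕ) : ℝ) * p / L * #(bx lo hi)) := by
        refine add_le_add h1 (sum_le_sum fun j _ => ?_)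
        exact dir_count p hp hp5 hpn j lo hi L hL0 hL
    _ = _ := by
        rw [sum_const, nsmul_eq_mul]
        simp only [card_univ, Fintype.card_sum, Fintype.card_fin]
        push_cast
        field_simp

end Pool.Agent.V5helper45.LS
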