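import Mathlib

/-!
# Companion matrices and the regular representation
-/

set_option autoImplicit false

namespace Pool.Agent.V5helper45.LS

open Polynomial Matrix

section
variable {A : Type} [CommRing A] {n : ℕ}

/-- the companion matrix of a monic polynomial of degree `n` -/
def comp (f : A[X]) (n : ℕ) : Matrix (Fin n) (Fin n) A :=
  Matrix.of fun i j => if (j : ℕ) + 1 = n then -f.coeff i else if (i : ℕ) = j + 1 then 1 else 0

/-- the matrix with the last column `-g` -/
def lastc (g : A[X]) (n : ℕ) : Matrix (Fin n) (Fin n) A :=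
  Matrix.of fun i j => if (j : ℕ) + 1 = n then -g.coeff i else 0

lemma comp_add (f g : A[X]) (s : A) : comp (f + C s * g) n = comp f n + s • lastc g n := by
  ext1 i j
  simp only [comp, lastc, Matrix.of_apply, Matrix.add_apply, Matrix.smul_apply, smul_eq_mul,
    coeff_add, coeff_C_mul]
  split_ifs <;> ring



/-- the basis of the powers of the root -/
noncomputable def pb (f : A[X]) (hf : f.Monic) (hn : f.natDegree = n) :
    Module.Basis (Fin n) A (AdjoinRoot f) :=
  (AdjoinRoot.powerBasis' hf).basis.reindex (finCongr (by rw [AdjoinRoot.powerBasis'_dim]; exact hn))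

lemma pb_apply (f : A[X]) (hf : f.Monic) (hn : f.natDegree = n) (j : Fin n) :
    pb f hf hn j = AdjoinRoot.root f ^ (j : ℕ) := by
  rw [pb, Module.Basis.reindex_apply, PowerBasis.basis_eq_pow, AdjoinRoot.powerBasis'_gen]
  rfl

lemma mk_eq_sum (f : A[X]) (hf : f.Monic) (hn : f.natDegree = n) (g : A[X]) (hg : ∀ k, n ≤ k → g.coeff k = 0) :
    AdjoinRoot.mk f g = ∑ j : Fin n, g.coeff j • pb f hf hn j := by
  have h1 : g = ∑ j ∈ Finset.range n, C (g.coeff j) * X ^ j := by
    ext k
    rw [finsetSum_coeff]
    simp only [coeff_C_mul, coeff_X_pow, mul_ite, mul_one, mul_zero]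
    by_cases hk : k < n
    · rw [Finset.sum_eq_single k]
      · simp
      · intro b _ hb
        rw [if_neg (Ne.symm hb)]
      · intro h
        exact absurd (Finset.mem_range.2 hk) h
    · rw [hg k (by omega)]
      symm
      apply Finset.sum_eq_zero
      intro b hb
      rw [if_neg]
      have := Finset.mem_range.1 hb
      omega
  conv_lhs => rw [h1]
  rw [map_sum, Finset.sum_range]
  refine Finset.sum_congr rfl fun j _ => ?_
  rw [map_mul, map_pow, AdjoinRoot.mk_C, AdjoinRoot.mk_X, pb_apply, Algebra.smul_def]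
  rfl

/-- the regular representation -/
noncomputable def Lam (f : A[X]) (hf : f.Monic) (hn : f.natDegree = n) :
    AdjoinRoot f →ₐ[A] Matrix (Fin n) (Fin n) A :=
  Algebra.leftMulMatrix (pb f hf hn)

lemma Lam_inj (f : A[X]) (hf : f.Monic) (hn : f.natDegree = n) :
    Function.Injective (Lam f hf hn) := Algebra.leftMulMatrix_injective _

lemma Lam_root (f : A[X]) (hf : f.Monic) (hn : f.natDegree = n) :
    Lam f hf hn (AdjoinRoot.root f) = comp f n := by
  ext1 i j
  rw [Lam, Algebra.leftMulMatrix_eq_repr_mul, pb_apply, ← pow_succ', comp, Matrix.of_apply]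
  by_cases hj : (j : ℕ) + 1 = n
  · rw [if_pos hj, hj]
    have h1 : AdjoinRoot.root f ^ n = -(AdjoinRoot.mk f (f - X ^ n)) := by
      rw [map_sub, AdjoinRoot.mk_self, map_pow, AdjoinRoot.mk_X, zero_sub, neg_neg]
    have h2 : ∀ k, n ≤ k → (f - X ^ n).coeff k = 0 := by
      intro k hk
      rw [coeff_sub, coeff_X_pow]
      rcases eq_or_lt_of_le hk with h | h
      · rw [← h, if_pos rfl, ← hn, hf.coeff_natDegree, sub_self]
      · rw [if_neg (by omega), coeff_eq_zero_of_natDegree_lt (by omega), sub_zero]
    rw [h1, mk_eq_sum f hf hn _ h2, map_neg, map_sum, Finsupp.neg_apply, Finsupp.finsetSum_apply]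
    rw [Finset.sum_eq_single i]
    · rw [map_smul, Module.Basis.repr_self, Finsupp.smul_apply, Finsupp.single_eq_same, smul_eq_mul,
        mul_one, coeff_sub, coeff_X_pow, if_neg (by have := i.2; omega), sub_zero]
    · intro b _ hb
      rw [map_smul, Module.Basis.repr_self, Finsupp.smul_apply, Finsupp.single_eq_of_ne (Ne.symm hb),
        smul_zero]
    · intro h
      exact absurd (Finset.mem_univ _) h
  · rw [if_neg hj]
    have h1 : (j : ℕ) + 1 < n := by have := j.2; omega
    have h2 : AdjoinRoot.root f ^ ((j : ℕ) + 1) = pb f hf hn ⟨(j : ℕ) + 1, h1⟩ := by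
      rw [pb_apply]
    rw [h2, Module.Basis.repr_self, Finsupp.single_apply]
    by_cases hi : (i : ℕ) = j + 1
    · rw [if_pos hi, if_pos]
      apply Fin.ext
      exact hi.symm
    · rw [if_neg hi, if_neg]
      intro h
      exact hi (congrArg Fin.val h).symm

lemma Lam_mk (f : A[X]) (hf : f.Monic) (hn : f.natDegree = n) (q : A[X]) :
    Lam f hf hn (AdjoinRoot.mk f q) = aeval (comp f n) q := by
  rw [← Lam_root f hf hn, ← AdjoinRoot.aeval_eq, aeval_algHom_apply]

/-- the trace of a product with `lastc g` -/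
lemma trace_lastc (f : A[X]) (hf : f.Monic) (hn : f.natDegree = n) (g : A[X])
    (hg : ∀ k, n ≤ k → g.coeff k = 0) (x : AdjoinRoot f) (hpos : 0 < n) :
    (Lam f hf hn x * lastc g n).trace =
      -(pb f hf hn).repr (x * AdjoinRoot.mk f g) ⟨n - 1, by omega⟩ := by
  classical
  have hmul : ∀ i, (Lam f hf hn x * lastc g n) i i = if i = ⟨n - 1, by omega⟩ then
      -∑ j, (pb f hf hn).repr (x * pb f hf hn j) ⟨n - 1, by omega⟩ * g.coeff j else 0 := by
    intro i
    rw [Matrix.mul_apply]
    split_ifs with hi
    · rw [← Finset.sum_neg_distrib]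
      refine Finset.sum_congr rfl fun j _ => ?_
      rw [Lam, Algebra.leftMulMatrix_eq_repr_mul, lastc, Matrix.of_apply, hi, if_pos (by
        show n - 1 + 1 = n
        omega)]
      ring
    · apply Finset.sum_eq_zero
      intro j _
      rw [lastc, Matrix.of_apply, if_neg, mul_zero]
      intro h
      apply hi
      apply Fin.ext
      show (i : ℕ) = n - 1
      omega
  rw [Matrix.trace]
  simp only [Matrix.diag_apply, hmul]
  rw [Finset.sum_ite_eq' Finset.univ, if_pos (Finset.mem_univ _), mk_eq_sum f hf hn g hg,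
    Finset.mul_sum, map_sum, Finsupp.finsetSum_apply]
  congr 1
  refine Finset.sum_congr rfl fun j _ => ?_
  rw [mul_smul_comm, map_smul, Finsupp.smul_apply, smul_eq_mul, mul_comm]

/-- the last coordinates of `root ^ a x` determine `x` -/
lemma eq_zero_of_last (f : A[X]) (hf : f.Monic) (hn : f.natDegree = n) (hpos : 0 < n)
    (x : AdjoinRoot f)
    (h : ∀ a < n, (pb f hf hn).repr (AdjoinRoot.root f ^ a * x) ⟨n - 1, by omega⟩ = 0) : x = 0 := by
  classical
  by_contra hx
  have hex : ∃ j : Fin n, (pb f hf hn).repr x j ≠ 0 := by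
    by_contra hcon
    push Not at hcon
    apply hx
    rw [← (pb f hf hn).repr.map_eq_zero_iff]
    ext j
    exact hcon j
  obtain ⟨j, hj, hmax⟩ := Finset.exists_max_image
    (Finset.univ.filter fun j : Fin n => (pb f hf hn).repr x j ≠ 0) (fun j => (j : ℕ))
    (by
      obtain ⟨j, hj⟩ := hex
      exact ⟨j, Finset.mem_filter.2 ⟨Finset.mem_univ _, hj⟩⟩)
  rw [Finset.mem_filter] at hj
  have hz : ∀ i : Fin n, (j : ℕ) < i → (pb f hf hn).repr x i = 0 := by
    intro i hi
    by_contra hcon
    have := hmax i (Finset.mem_filter.2 ⟨Finset.mem_univ _, hcon⟩)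
    omega
  apply hj.2
  have h1 := h (n - 1 - j) (by omega)
  rw [← (pb f hf hn).sum_repr x, Finset.mul_sum, map_sum, Finsupp.finsetSum_apply,
    Finset.sum_eq_single j] at h1
  · rw [mul_smul_comm, map_smul, Finsupp.smul_apply, pb_apply, ← pow_add] at h1
    have e1 : AdjoinRoot.root f ^ (n - 1 - (j : ℕ) + j) = pb f hf hn ⟨n - 1, by omega⟩ := by
      rw [pb_apply]
      congr 1
      have := j.2
      show n - 1 - (j : ℕ) + j = n - 1
      omega
    rw [e1, Module.Basis.repr_self, Finsupp.single_eq_same, smul_eq_mul, mul_one] at h1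
    exact h1
  · intro i _ hij
    rcases lt_or_ge (j : ℕ) (i : ℕ) with hi | hi
    · rw [hz i hi, zero_smul, mul_zero, map_zero]
      rfl
    · have hi' : (i : ℕ) < j := lt_of_le_of_ne hi (fun h => hij (Fin.ext h))
      rw [mul_smul_comm, map_smul, Finsupp.smul_apply, pb_apply, ← pow_add]
      have hlt : n - 1 - (j : ℕ) + i < n := by have := j.2; omega
      have e1 : AdjoinRoot.root f ^ (n - 1 - (j : ℕ) + i) = pb f hf hn ⟨_, hlt⟩ := by
        rw [pb_apply]
      rw [e1, Module.Basis.repr_self, Finsupp.single_apply, if_neg, smul_zero]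
      intro h2
      have := congrArg Fin.val h2
      have := j.2
      simp only at *
      omega
  · intro h2
    exact absurd (Finset.mem_univ _) h2

end

end Pool.Agent.V5helper45.LS
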