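import Pool.Agent.V5helper45.LS.Tr0

/-!
# Traces of polynomials in a matrix which depends linearly on a parameter
-/

set_option autoImplicit false

namespace Pool.Agent.V5helper45.LS

open Polynomial Matrix

section
variable {A : Type} [CommRing A] {n : ℕ}

/-- the derivative of a matrix of polynomials -/
noncomputable def DM (M : Matrix (Fin n) (Fin n) A[X]) : Matrix (Fin n) (Fin n) A[X] :=
  M.map derivative

lemma DM_mul (M N : Matrix (Fin n) (Fin n) A[X]) : DM (M * N) = DM M * N + M * DM N := by
  ext1 i j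
  simp only [DM, Matrix.map_apply, Matrix.mul_apply, Matrix.add_apply, derivative_sum,
    derivative_mul, Finset.sum_add_distrib]

lemma DM_one : DM (1 : Matrix (Fin n) (Fin n) A[X]) = 0 := by
  ext1 i j
  rw [DM, Matrix.map_apply, Matrix.one_apply, Matrix.zero_apply]
  split_ifs <;> simp

lemma DM_trace (M : Matrix (Fin n) (Fin n) A[X]) : derivative M.trace = (DM M).trace := by
  simp [Matrix.trace, DM]

/-- constant matrices -/
noncomputable def KM : Matrix (Fin n) (Fin n) A →+* Matrix (Fin n) (Fin n) A[X] :=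
  (C : A →+* A[X]).mapMatrix

lemma KM_apply (M : Matrix (Fin n) (Fin n) A) (i j : Fin n) : KM M i j = C (M i j) := rfl

/-- the matrix `C0 + X C1` -/
noncomputable def CM (C0 C1 : Matrix (Fin n) (Fin n) A) : Matrix (Fin n) (Fin n) A[X] :=
  KM C0 + (X : A[X]) • KM C1

lemma DM_CM (C0 C1 : Matrix (Fin n) (Fin n) A) : DM (CM C0 C1) = KM C1 := by
  ext1 i j
  simp [DM, CM, KM_apply, Matrix.map_apply]

lemma tr_pow (C0 C1 : Matrix (Fin n) (Fin n) A) (k m : ℕ) :
    (DM (CM C0 C1 ^ k) * CM C0 C1 ^ m).trace =
      (k : A[X]) * (CM C0 C1 ^ (k + m - 1) * KM C1).trace := by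
  induction k generalizing m with
  | zero => rw [pow_zero, DM_one]; simp
  | succ k ih =>
    rw [pow_succ, DM_mul, DM_CM, add_mul, Matrix.trace_add, mul_assoc, ← pow_succ', ih (m + 1),
      mul_assoc]
    have e1 : (CM C0 C1 ^ k * (KM C1 * CM C0 C1 ^ m)).trace =
        (CM C0 C1 ^ (k + m) * KM C1).trace := by
      rw [← mul_assoc, Matrix.trace_mul_comm, ← mul_assoc, ← pow_add, add_comm m k]
    rw [e1, show k + (m + 1) - 1 = k + m by omega, show k + 1 + m - 1 = k + m by omega]
    push_cast
    ring

theorem der_trace (C0 C1 : Matrix (Fin n) (Fin n) A) (G : A[X]) :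
    derivative (aeval (CM C0 C1) G).trace = (aeval (CM C0 C1) (derivative G) * KM C1).trace := by
  induction G using Polynomial.induction_on' with
  | add a b ha hb =>
    rw [map_add, Matrix.trace_add, map_add, ha, hb, map_add, map_add, add_mul, Matrix.trace_add]
  | monomial k a =>
    rw [derivative_monomial, aeval_monomial, aeval_monomial, ← Algebra.smul_def, ← Algebra.smul_def,
      smul_mul_assoc, Matrix.trace_smul, Matrix.trace_smul, derivative_smul, DM_trace]
    have := tr_pow C0 C1 k 0
    rw [pow_zero, mul_one, add_zero] at this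
    rw [this, mul_smul, ← nsmul_eq_mul, Nat.cast_smul_eq_nsmul A]

/-- the value at `0` of polynomials in `C0 + X C1` -/
lemma eval0_aeval (C0 C1 : Matrix (Fin n) (Fin n) A) (G : A[X]) :
    (evalRingHom (0 : A)).mapMatrix (aeval (CM C0 C1) G) = aeval C0 G := by
  have hC : (evalRingHom (0 : A)).mapMatrix (CM C0 C1) = C0 := by
    ext1 i j
    simp [CM, KM_apply]
  induction G using Polynomial.induction_on' with
  | add a b ha hb => rw [map_add, map_add, ha, hb, map_add]
  | monomial k a =>
    rw [aeval_monomial, aeval_monomial, ← Algebra.smul_def, ← Algebra.smul_def]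
    have h1 : (evalRingHom (0 : A)).mapMatrix (a • CM C0 C1 ^ k) =
        a • (evalRingHom (0 : A)).mapMatrix (CM C0 C1 ^ k) := by
      ext1 i j
      simp
    rw [h1, map_pow, hC]

lemma trace_eval0 (M : Matrix (Fin n) (Fin n) A[X]) :
    M.trace.coeff 0 = ((evalRingHom (0 : A)).mapMatrix M).trace := by
  rw [coeff_zero_eq_eval_zero]
  simp [Matrix.trace, eval_finsetSum]

end

end Pool.Agent.V5helper45.LS
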