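import Pool.Agent.V5helper45.LS.Cnt

/-!
# Leopoldt's conjecture for many primes at once and almost all members of the families with
`r₁ + 2 r₂` parameters
-/

set_option autoImplicit false

namespace Pool.Agent.V5helper45.LS

open Polynomial NumberField Function Finset Filter
open Pool.Agent.N924.LP (Idx fB pol Holds)
open Pool.Agent.H637R2.Leo (Leopoldt)

variable {r₁ r₂ : ℕ}

/-- a fixed prime, uniformly in the boxes -/
theorem small_prime (p : ℕ) [Fact p.Prime] (hr : 1 ≤ r₁ + r₂) (ε : ℝ) (hε : 0 < ε) :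
    ∃ S₀ : ℕ, ∀ lo hi : Idx r₁ r₂ → ℤ, (∀ u, lo u + S₀ ≤ hi u) →
      (∀ k, 0 ≤ lo (Sum.inr (Sum.inr k))) →
      (cb lo hi (fun x => ¬ Holds p x) : ℝ) ≤ ε * #(bx lo hi) := by
  classical
  by_contra hcon
  push Not at hcon
  choose lo hi h1 h2 h3 using hcon
  have hlim : ∀ u, Tendsto (fun N : ℕ => ((hi N u : ℝ) - lo N u)) atTop atTop := by
    intro u
    refine tendsto_atTop_mono (f := fun N : ℕ => (N : ℝ)) (fun N => ?_) tendsto_natCast_atTop_atTop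
    have h4 : ((lo N u + N : ℤ) : ℝ) ≤ hi N u := by exact_mod_cast h1 N u
    push_cast at h4
    linarith
  obtain ⟨N₀, hN₀⟩ := Pool.Agent.N924.LP.main _ p hr _
    (Pool.Agent.N924.LP.eqd_box (κ := Idx r₁ r₂) (fun u N => lo N u) (fun u N => hi N u) hlim) ε hε
  have h5 := hN₀ N₀ le_rfl
  have h6 := h3 N₀
  have h7 : {t : Idx r₁ r₂ → ℤ | t ∈ (Fintype.piFinset fun u => Ioc (lo N₀ u) (hi N₀ u)) ∧
      t ∈ {t : Idx r₁ r₂ → ℤ | (∀ k, 0 < t (Sum.inr (Sum.inr k))) ∧ ¬ Holds p t}} =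
      {x | x ∈ bx (lo N₀) (hi N₀) ∧ ¬ Holds p x} := by
    ext x
    constructor
    · rintro ⟨h8, h9, h10⟩
      exact ⟨h8, h10⟩
    · rintro ⟨h8, h10⟩
      refine ⟨h8, fun k => ?_, h10⟩
      exact lt_of_le_of_lt (h2 N₀ k) (mem_bx.1 h8 _).1
  rw [h7] at h5
  exact absurd h5 (not_le.2 h6)

lemma small_primes (M : ℕ) (hr : 1 ≤ r₁ + r₂) (ε : ℝ) (hε : 0 < ε) :
    ∃ S₀ : ℕ, ∀ lo hi : Idx r₁ r₂ → ℤ, (∀ u, lo u + S₀ ≤ hi u) →
      (∀ k, 0 ≤ lo (Sum.inr (Sum.inr k))) →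
      (cb lo hi (fun x => ∃ p < M, ∃ _ : Fact p.Prime, ¬ Holds p x) : ℝ) ≤ ε * #(bx lo hi) := by
  have h1 : ∀ p : ℕ, ∃ S₀ : ℕ, ∀ lo hi : Idx r₁ r₂ → ℤ, (∀ u, lo u + S₀ ≤ hi u) →
      (∀ k, 0 ≤ lo (Sum.inr (Sum.inr k))) →
      (cb lo hi (fun x => ∃ _ : Fact p.Prime, ¬ Holds p x) : ℝ) ≤ ε / (M + 1) * #(bx lo hi) := by
    intro p
    by_cases hp : p.Prime
    · have hF : Fact p.Prime := ⟨hp⟩
      obtain ⟨S₀, hS₀⟩ := small_prime (r₁ := r₁) (r₂ := r₂) p hr (ε / (M + 1)) (by positivity)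
      refine ⟨S₀, fun lo hi h2 h3 => le_trans ?_ (hS₀ lo hi h2 h3)⟩
      exact_mod_cast cb_mono lo hi (S := fun x => ∃ _ : Fact p.Prime, ¬ Holds p x)
        (T := fun x => ¬ Holds p x) (fun x _ h => by
          obtain ⟨_, h4⟩ := h
          exact h4)
    · refine ⟨0, fun lo hi _ _ => ?_⟩
      have h2 : cb lo hi (fun x => ∃ _ : Fact p.Prime, ¬ Holds p x) = 0 := by
        unfold cb
        convert Set.ncard_empty (Idx r₁ r₂ → ℤ)
        rw [Set.eq_empty_iff_forall_notMem]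
        rintro x ⟨-, h3, -⟩
        exact hp h3.out
      rw [h2]
      push_cast
      positivity
  choose S₀ hS₀ using h1
  refine ⟨∑ p ∈ range M, S₀ p, fun lo hi h2 h3 => ?_⟩
  have h4 := cb_union (range M) lo hi (S := fun x => ∃ p < M, ∃ _ : Fact p.Prime, ¬ Holds p x)
    (fun p x => ∃ _ : Fact p.Prime, ¬ Holds p x) (by
      rintro x - ⟨p, hp, h⟩
      exact ⟨p, mem_range.2 hp, h⟩)
  have h5 : (cb lo hi (fun x => ∃ p < M, ∃ _ : Fact p.Prime, ¬ Holds p x) : ℝ) ≤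
      ∑ p ∈ range M, (cb lo hi (fun x => ∃ _ : Fact p.Prime, ¬ Holds p x) : ℝ) := by
    exact_mod_cast h4
  refine h5.trans ?_
  calc _ ≤ ∑ p ∈ range M, (ε / (M + 1) * #(bx lo hi)) := by
        refine sum_le_sum fun p hp => hS₀ p lo hi (fun u => ?_) h3
        have h6 : S₀ p ≤ ∑ p ∈ range M, S₀ p :=
          single_le_sum (f := fun p => S₀ p) (fun _ _ => Nat.zero_le _) hp
        have h7 : ((S₀ p : ℕ) : ℤ) ≤ ((∑ p ∈ range M, S₀ p : ℕ) : ℤ) := by exact_mod_cast h6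
        have h8 := h2 u
        linarith
    _ = (M : ℝ) / (M + 1) * (ε * #(bx lo hi)) := by
        rw [sum_const, card_range, nsmul_eq_mul]
        field_simp
    _ ≤ 1 * (ε * #(bx lo hi)) := by
        apply mul_le_mul_of_nonneg_right
        · rw [div_le_one (by positivity)]
          linarith
        · positivity
    _ = ε * #(bx lo hi) := one_mul _

lemma reg_of_holds {x : Idx r₁ r₂ → ℤ} (p : ℕ) [Fact p.Prime] (h : Holds p x) : Reg x := by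
  refine ⟨h.1, fun K _ _ θ hθ hK => ?_⟩
  obtain ⟨h1, h2, -⟩ := h.2 K θ hθ hK
  exact ⟨h1, h2⟩

lemma fails_of_not_holds {x : Idx r₁ r₂ → ℤ} (p : ℕ) [hF : Fact p.Prime] (hreg : Reg x)
    (h : ¬ Holds p x) : FailsM x p := by
  by_contra hcon
  apply h
  refine ⟨hreg.1, fun K _ _ θ hθ hK => ?_⟩
  obtain ⟨h1, h2⟩ := hreg.2 K θ hθ hK
  refine ⟨h1, h2, ?_⟩
  by_contra hL
  exact hcon ⟨hF, K, inferInstance, inferInstance, θ, hθ, hK, hL⟩

/-- **Many primes at once.** -/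
theorem many_primes (hr : 1 ≤ r₁ + r₂) (ε : ℝ) (hε : 0 < ε) :
    ∃ (S₀ : ℕ) (δ : ℝ), 0 < δ ∧ ∀ (L : ℕ), S₀ ≤ L → ∀ lo hi : Idx r₁ r₂ → ℤ,
      (∀ u, lo u + L ≤ hi u) → (∀ k, 0 ≤ lo (Sum.inr (Sum.inr k))) → ∀ Y : ℕ,
      (Y : ℝ) ^ 2 ≤ δ * L →
      (cb lo hi (fun x => ∃ p ≤ Y, ∃ _ : Fact p.Prime, ¬ Holds p x) : ℝ) ≤ ε * #(bx lo hi) := by
  obtain ⟨m, hm⟩ : ∃ m : ℝ, m = ((r₁ + r₂ : ℕ) : ℝ) := ⟨_, rfl⟩
  have hm1 : 1 ≤ m := by rw [hm]; exact_mod_cast hr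
  obtain ⟨M, hM⟩ : ∃ M : ℕ, M = ⌈96 * m ^ 4 / ε⌉₊ + 5 + 2 * (r₁ + 2 * r₂) := ⟨_, rfl⟩
  have hM1 : 96 * m ^ 4 / ε ≤ M := by
    rw [hM]
    push_cast
    have := Nat.le_ceil (96 * m ^ 4 / ε)
    have h2 : (0 : ℝ) ≤ r₁ := by positivity
    have h3 : (0 : ℝ) ≤ r₂ := by positivity
    linarith
  have hM5 : 5 ≤ M := by omega
  have hMn : 2 * (r₁ + 2 * r₂) ≤ M := by omega
  obtain ⟨S₁, hS₁⟩ := small_primes (r₁ := r₁) (r₂ := r₂) M hr (ε / 3) (by positivity)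
  refine ⟨S₁ + 1, min 1 (ε / (3 * m ^ 2)), by positivity, fun L hL lo hi h1 h2 Y hY => ?_⟩
  have hL1 : (1 : ℝ) ≤ L := by
    have : 1 ≤ L := by omega
    exact_mod_cast this
  have hYL : (Y : ℝ) ^ 2 ≤ L := by
    refine hY.trans ?_
    have : min 1 (ε / (3 * m ^ 2)) ≤ 1 := min_le_left _ _
    nlinarith
  have hYε : m ^ 2 * (Y : ℝ) ^ 2 / L ≤ ε / 3 := by
    rw [div_le_iff₀ (by linarith)]
    have h3 : min 1 (ε / (3 * m ^ 2)) ≤ ε / (3 * m ^ 2) := min_le_right _ _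
    have h4 : (Y : ℝ) ^ 2 ≤ ε / (3 * m ^ 2) * L := hY.trans (by gcongr)
    calc m ^ 2 * (Y : ℝ) ^ 2 ≤ m ^ 2 * (ε / (3 * m ^ 2) * L) := by gcongr
      _ = ε / 3 * L := by field_simp
  have hsmall := hS₁ lo hi (fun u => by
    have h3 := h1 u
    have h4 : ((S₁ : ℕ) : ℤ) ≤ L := by exact_mod_cast (by omega : S₁ ≤ L)
    linarith) h2
  set Ps : Finset ℕ := (Finset.Ioc (M - 1) Y).filter Nat.Prime with hPs
  have h3 := cb_or lo hi (S := fun x => ∃ p ≤ Y, ∃ _ : Fact p.Prime, ¬ Holds p x)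
    (T := fun x => ∃ p < M, ∃ _ : Fact p.Prime, ¬ Holds p x)
    (U := fun x => ∃ p ∈ Ps, Reg x ∧ FailsM x p) (by
      rintro x - ⟨p, hpY, hF, hp⟩
      by_cases hs : ∃ p < M, ∃ _ : Fact p.Prime, ¬ Holds p x
      · exact Or.inl hs
      · right
        have hpM : M ≤ p := by
          by_contra hlt
          exact hs ⟨p, not_le.1 hlt, hF, hp⟩
        have hreg : Reg x := by
          have hF2 : Fact (Nat.Prime 2) := ⟨Nat.prime_two⟩
          apply reg_of_holds 2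
          by_contra hno
          exact hs ⟨2, by omega, hF2, hno⟩
        refine ⟨p, ?_, hreg, fails_of_not_holds p hreg hp⟩
        rw [hPs, mem_filter, Finset.mem_Ioc]
        exact ⟨⟨by omega, hpY⟩, hF.out⟩)
  have h4 := cb_union Ps lo hi (S := fun x => ∃ p ∈ Ps, Reg x ∧ FailsM x p)
    (fun p x => Reg x ∧ FailsM x p) (fun x _ h => h)
  have h5 : (cb lo hi (fun x => ∃ p ≤ Y, ∃ _ : Fact p.Prime, ¬ Holds p x) : ℝ) ≤
      cb lo hi (fun x => ∃ p < M, ∃ _ : Fact p.Prime, ¬ Holds p x) +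
      ∑ p ∈ Ps, (cb lo hi (fun x => Reg x ∧ FailsM x p) : ℝ) := by
    exact_mod_cast h3.trans (Nat.add_le_add_left h4 _)
  have hB0 : (0 : ℝ) ≤ #(bx lo hi) := by positivity
  have h6 : ∑ p ∈ Ps, (cb lo hi (fun x => Reg x ∧ FailsM x p) : ℝ) ≤
      ∑ p ∈ Ps, (16 * m ^ 4 / p ^ 2 + m ^ 2 * p / L) * #(bx lo hi) := by
    refine sum_le_sum fun p hp => ?_
    rw [hPs, mem_filter, Finset.mem_Ioc] at hp
    rw [hm]
    refine prime_count p hp.2 (by omega) (by omega) hr lo hi L ?_ (fun u => ?_)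
    · have hp1 : (1 : ℝ) ≤ p := by exact_mod_cast hp.2.one_lt.le
      have hpY : (p : ℝ) ≤ Y := by exact_mod_cast hp.1.2
      nlinarith
    · have h7 : ((lo u + L : ℤ) : ℝ) ≤ hi u := by exact_mod_cast h1 u
      push_cast at h7
      linarith
  have h7 : ∑ p ∈ Ps, (16 * m ^ 4 / (p : ℝ) ^ 2) ≤ ε / 3 := by
    have hM0 : (0 : ℝ) < M := by
      have : 0 < M := by omega
      exact_mod_cast this
    calc ∑ p ∈ Ps, (16 * m ^ 4 / (p : ℝ) ^ 2)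
        ≤ ∑ p ∈ Finset.Ioo (M - 1) (Y + 1), (16 * m ^ 4 / (p : ℝ) ^ 2) := by
          refine sum_le_sum_of_subset_of_nonneg ?_ fun _ _ _ => by positivity
          intro p hp
          rw [hPs, mem_filter, Finset.mem_Ioc] at hp
          rw [Finset.mem_Ioo]
          omega
      _ = 16 * m ^ 4 * ∑ p ∈ Finset.Ioo (M - 1) (Y + 1), ((p : ℝ) ^ 2)⁻¹ := by
          rw [mul_sum]
          exact sum_congr rfl fun p _ => by rw [div_eq_mul_inv]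
      _ ≤ 16 * m ^ 4 * (2 / (((M - 1 : ℕ) : ℝ) + 1)) := by
          have := sum_Ioo_inv_sq_le (α := ℝ) (M - 1) (Y + 1)
          gcongr
      _ = 32 * m ^ 4 / M := by
          have : (((M - 1 : ℕ) : ℝ) + 1) = M := by
            have : M - 1 + 1 = M := by omega
            exact_mod_cast this
          rw [this]
          ring
      _ ≤ ε / 3 := by
          rw [div_le_iff₀ hM0]
          rw [div_le_iff₀ hε] at hM1
          nlinarith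
  have h8 : ∑ p ∈ Ps, (m ^ 2 * (p : ℝ) / L) ≤ ε / 3 := by
    have h9 : ∑ p ∈ Ps, (p : ℝ) ≤ (Y : ℝ) ^ 2 := by
      have h10 : ∑ p ∈ Ps, p ≤ Y ^ 2 := by
        refine le_trans (sum_le_sum_of_subset ?_) (sum_primes_le Y)
        intro p hp
        rw [hPs, mem_filter, Finset.mem_Ioc] at hp
        rw [mem_filter, mem_range]
        exact ⟨by omega, hp.2⟩
      calc ∑ p ∈ Ps, (p : ℝ) = ((∑ p ∈ Ps, p : ℕ) : ℝ) := by push_cast; rfl
        _ ≤ ((Y ^ 2 : ℕ) : ℝ) := Nat.cast_le.2 h10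
        _ = (Y : ℝ) ^ 2 := by push_cast; rfl
    calc ∑ p ∈ Ps, (m ^ 2 * (p : ℝ) / L) = m ^ 2 * (∑ p ∈ Ps, (p : ℝ)) / L := by
          rw [mul_sum, sum_div]
      _ ≤ m ^ 2 * (Y : ℝ) ^ 2 / L := by gcongr
      _ ≤ ε / 3 := hYε
  have h9 : ∑ p ∈ Ps, (16 * m ^ 4 / (p : ℝ) ^ 2 + m ^ 2 * p / L) * #(bx lo hi) ≤
      (ε / 3 + ε / 3) * #(bx lo hi) := by
    rw [← sum_mul, sum_add_distrib]
    gcongr
  calc _ ≤ _ := h5
    _ ≤ ε / 3 * #(bx lo hi) + (ε / 3 + ε / 3) * #(bx lo hi) := add_le_add hsmall (h6.trans h9)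
    _ = ε * #(bx lo hi) := by ring

end Pool.Agent.V5helper45.LS
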