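import Pool.Agent.V5helper45.LS.LemA
import Pool.Agent.Results.MP_5f2860_nt.ExplicitFamilies

/-!
# Few exceptional parameters, uniformly in the prime
-/

set_option autoImplicit false

namespace Pool.Agent.V5helper45.LS

open Polynomial Matrix NumberField IntermediateField
open Pool.Agent.W254.LF (LeopoldtAt)

variable {r : ℕ}

/-- `p` is a prime number and Leopoldt's conjecture for `p` fails for a field generated by a root of
`(X - t) P_1 ⋯ P_r - 1`. -/
def Fails (P : Fin r → ℤ[X]) (t : ℤ) (p : ℕ) : Prop :=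
  ∃ (_ : Fact p.Prime) (K : Type) (_ : Field K) (_ : NumberField K) (θ : K),
    aeval θ ((X - C t) * ∏ i, P i - 1 : ℤ[X]) = 0 ∧ ℚ⟮θ⟯ = ⊤ ∧ ¬ LeopoldtAt K p

/-- `t` is a regular parameter: the polynomial is irreducible and its signature is the expected one -/
def Regular (P : Fin r → ℤ[X]) (t : ℤ) : Prop :=
  Irreducible (((X - C t) * ∏ i, P i - 1 : ℤ[X]).map (Int.castRingHom ℚ)) ∧
    ∀ (K : Type) [Field K] [NumberField K] (θ : K),
      aeval θ ((X - C t) * ∏ i, P i - 1 : ℤ[X]) = 0 → ℚ⟮θ⟯ = ⊤ →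
      InfinitePlace.nrRealPlaces K = 1 + (Finset.univ.filter fun i => (P i).natDegree = 1).card ∧
      InfinitePlace.nrComplexPlaces K = (Finset.univ.filter fun i => (P i).natDegree = 2).card

lemma exists_inj {A : Set ℤ} (h : ¬ A.encard ≤ r) :
    ∃ τ : Fin (r + 1) → ℤ, Function.Injective τ ∧ ∀ k, τ k ∈ A := by
  have h1 : ((r + 1 : ℕ) : ℕ∞) ≤ A.encard := by
    rw [not_le] at h
    push_cast
    exact Order.add_one_le_of_lt h
  obtain ⟨T, hTA, hT⟩ := Set.exists_subset_encard_eq h1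
  have hfin : T.Finite := Set.finite_of_encard_le_coe hT.le
  have hcard : hfin.toFinset.card = r + 1 := by
    rw [hfin.encard_eq_coe_toFinset_card] at hT
    exact_mod_cast hT
  refine ⟨hfin.toFinset.orderEmbOfFin hcard, (hfin.toFinset.orderEmbOfFin hcard).injective,
    fun k => hTA ?_⟩
  exact hfin.mem_toFinset.1 (Finset.orderEmbOfFin_mem _ hcard k)

lemma rank_regular (P : Fin r → ℤ[X]) (hmon : ∀ i, (P i).Monic)
    (hdeg : ∀ i, (P i).natDegree = 1 ∨ (P i).natDegree = 2) (hpos : 1 ≤ ∑ i, (P i).natDegree) {t : ℤ}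
    (ht : Regular P t) (K : Type) [Field K] [NumberField K] (θ : K)
    (hθ : aeval θ ((X - C t) * ∏ i, P i - 1 : ℤ[X]) = 0) (hK : ℚ⟮θ⟯ = ⊤) :
    Module.finrank ℚ K = 1 + ∑ i, (P i).natDegree ∧ Units.rank K = r := by
  obtain ⟨hirr, hsig⟩ := ht
  obtain ⟨h1, h2⟩ := hsig K θ hθ hK
  obtain ⟨hgm, hgn⟩ := fam_natDegree_int P hmon t hpos
  constructor
  · have hθQ : aeval θ (((X - C t) * ∏ i, P i - 1 : ℤ[X]).map (Int.castRingHom ℚ)) = 0 := by
      rw [← algebraMap_int_eq, aeval_map_algebraMap]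
      exact hθ
    have hint : IsIntegral ℚ θ := Algebra.IsIntegral.isIntegral θ
    have hmp : ((X - C t) * ∏ i, P i - 1 : ℤ[X]).map (Int.castRingHom ℚ) = minpoly ℚ θ :=
      minpoly.eq_of_irreducible_of_monic hirr hθQ (hgm.map _)
    rw [← IntermediateField.finrank_top' (F := ℚ) (E := K), ← hK,
      IntermediateField.adjoin.finrank hint, ← hmp, hgm.natDegree_map, hgn]
  · have hcard := InfinitePlace.card_eq_nrRealPlaces_add_nrComplexPlaces K
    have hrk : Units.rank K = Fintype.card (InfinitePlace K) - 1 := rfl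
    have hAB : (Finset.univ.filter fun i => (P i).natDegree = 1).card +
        (Finset.univ.filter fun i => (P i).natDegree = 2).card = r := by
      rw [← Finset.card_union_of_disjoint]
      · have : (Finset.univ.filter fun i => (P i).natDegree = 1) ∪
            (Finset.univ.filter fun i => (P i).natDegree = 2) = Finset.univ := by
          ext i
          simp only [Finset.mem_union, Finset.mem_filter, Finset.mem_univ, true_and, iff_true]
          exact hdeg i
        rw [this, Finset.card_univ, Fintype.card_fin]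
      · rw [Finset.disjoint_left]
        intro i hi hi'
        have h1 := (Finset.mem_filter.1 hi).2
        have h2 := (Finset.mem_filter.1 hi').2
        omega
    omega

/-- **At most `r` exceptions in each residue class.** -/
theorem class_le (P : Fin r → ℤ[X]) (hmon : ∀ i, (P i).Monic)
    (hdeg : ∀ i, (P i).natDegree = 1 ∨ (P i).natDegree = 2) (hr : 0 < r) (p : ℕ) (hp : p.Prime)
    (hp5 : 5 ≤ p) (hpn : 2 * (1 + ∑ i, (P i).natDegree) ≤ p)
    (hcop : ∀ i j, i ≠ j → IsCoprime ((P i).map (Int.castRingHom (ZMod p)))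
      ((P j).map (Int.castRingHom (ZMod p)))) (a : ℤ) :
    {t : ℤ | Regular P t ∧ t ≡ a [ZMOD p] ∧ Fails P t p}.encard ≤ r := by
  classical
  have hF : Fact p.Prime := ⟨hp⟩
  have hpos : 1 ≤ ∑ i, (P i).natDegree := by
    have h1 : 1 ≤ (P ⟨0, hr⟩).natDegree := by rcases hdeg ⟨0, hr⟩ with h | h <;> omega
    exact h1.trans (Finset.single_le_sum (f := fun i => (P i).natDegree) (fun i _ => Nat.zero_le _)
      (Finset.mem_univ _))
  by_contra hcon
  obtain ⟨τ, hτ, hA⟩ := exists_inj hcon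
  obtain ⟨Q, hQp, hQ⟩ := exists_Q p (1 + ∑ i, (P i).natDegree)
  have hQ0 : 0 < Q := Nat.pos_of_ne_zero (by rintro rfl; exact hQp (dvd_zero p))
  have hy : ∀ k, ∃ y : ℤ, τ k = a + p * y := by
    intro k
    obtain ⟨c, hc⟩ := (hA k).2.1.symm.dvd
    exact ⟨c, by linarith⟩
  choose y hy using hy
  have hyi : Function.Injective y := by
    intro k k' h
    apply hτ
    rw [hy, hy, h]
  have hPd : ∀ i, derivative ((P i).map (Int.castRingHom (ZMod p))) ≠ 0 := by
    intro i h0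
    have h1 := congrArg (fun q => coeff q ((P i).natDegree - 1)) h0
    simp only [coeff_derivative, coeff_zero] at h1
    have h2 : (P i).natDegree - 1 + 1 = (P i).natDegree := by rcases hdeg i with h | h <;> omega
    rw [h2, coeff_map, (hmon i).coeff_natDegree, map_one, one_mul] at h1
    have h3 : (((P i).natDegree : ℕ) : ZMod p) = 0 := by
      rw [← h1, ← h2]
      push_cast
      simp
    rw [ZMod.natCast_eq_zero_iff] at h3
    have h4 := Nat.le_of_dvd (by rcases hdeg i with h | h <;> omega) h3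
    rcases hdeg i with h | h <;> omega
  refine few hp5 hpn hQp hQ P hmon hpos rfl hPd hcop a y hyi ?_
  intro k
  obtain ⟨hreg, -, _, K, _, _, θ, hθ, hK, hL⟩ := hA k
  obtain ⟨hfin, hrk⟩ := rank_regular P hmon hdeg hpos hreg K θ hθ hK
  rw [← hy k]
  exact rel_of_not_leopoldt (by omega) hQ0 hQ P hmon hpos rfl (τ k) K θ hθ hfin hK hrk hL

lemma encard_biUnion_le' {ι α : Type} [DecidableEq ι] (s : Finset ι) (f : ι → Set α) :
    (⋃ i ∈ s, f i).encard ≤ ∑ i ∈ s, (f i).encard := by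
  induction s using Finset.induction_on with
  | empty => simp
  | insert a s ha ih =>
    rw [Finset.sum_insert ha, Finset.set_biUnion_insert]
    exact (Set.encard_union_le _ _).trans (add_le_add_right ih _)

/-- at most `r p` exceptions for a good prime `p` -/
theorem prime_le (P : Fin r → ℤ[X]) (hmon : ∀ i, (P i).Monic)
    (hdeg : ∀ i, (P i).natDegree = 1 ∨ (P i).natDegree = 2) (hr : 0 < r) (p : ℕ) (hp : p.Prime)
    (hp5 : 5 ≤ p) (hpn : 2 * (1 + ∑ i, (P i).natDegree) ≤ p)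
    (hcop : ∀ i j, i ≠ j → IsCoprime ((P i).map (Int.castRingHom (ZMod p)))
      ((P j).map (Int.castRingHom (ZMod p)))) :
    {t : ℤ | Regular P t ∧ Fails P t p}.encard ≤ ((r * p : ℕ) : ℕ∞) := by
  classical
  have hsub : {t : ℤ | Regular P t ∧ Fails P t p} ⊆ ⋃ a ∈ Finset.range p,
      {t : ℤ | Regular P t ∧ t ≡ (a : ℤ) [ZMOD p] ∧ Fails P t p} := by
    intro t ht
    simp only [Set.mem_iUnion]
    have hpos : (0 : ℤ) < p := by exact_mod_cast hp.pos
    refine ⟨(t % p).toNat, ?_, ht.1, ?_, ht.2⟩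
    · rw [Finset.mem_range]
      have h3 := Int.emod_lt_of_pos t hpos
      have h4 := Int.emod_nonneg t hpos.ne'
      omega
    · rw [Int.toNat_of_nonneg (Int.emod_nonneg t hpos.ne')]
      exact (Int.mod_modEq t p).symm
  refine (Set.encard_le_encard hsub).trans ((encard_biUnion_le' _ _).trans ?_)
  refine (Finset.sum_le_sum fun (a : ℕ) _ =>
    class_le P hmon hdeg hr p hp hp5 hpn hcop (a : ℤ)).trans ?_
  rw [Finset.sum_const, Finset.card_range, nsmul_eq_mul]
  push_cast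
  rw [mul_comm]

/-- integral Bezout identity -/
lemma exists_bezout (a b : ℤ[X]) (h : IsCoprime (a.map (Int.castRingHom ℚ)) (b.map (Int.castRingHom ℚ))) :
    ∃ d : ℤ, d ≠ 0 ∧ ∃ s t : ℤ[X], s * a + t * b = C d := by
  obtain ⟨s, t, hst⟩ := h
  obtain ⟨b1, hb10, hb1⟩ := IsLocalization.integerNormalization_spec (nonZeroDivisors ℤ) s
  obtain ⟨b2, hb20, hb2⟩ := IsLocalization.integerNormalization_spec (nonZeroDivisors ℤ) t
  obtain ⟨s', hs'⟩ : ∃ s', s' = IsLocalization.integerNormalization (nonZeroDivisors ℤ) s := ⟨_, rfl⟩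
  obtain ⟨t', ht'⟩ : ∃ t', t' = IsLocalization.integerNormalization (nonZeroDivisors ℤ) t := ⟨_, rfl⟩
  rw [← hs'] at hb1
  rw [← ht'] at hb2
  refine ⟨b1 * b2, mul_ne_zero (nonZeroDivisors.ne_zero hb10) (nonZeroDivisors.ne_zero hb20),
    C b2 * s', C b1 * t', ?_⟩
  apply Polynomial.map_injective (Int.castRingHom ℚ) Int.cast_injective
  have e1 : s'.map (Int.castRingHom ℚ) = C (Int.castRingHom ℚ b1) * s := by
    have : s'.map (Int.castRingHom ℚ) = s'.map (algebraMap ℤ ℚ) := rfl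
    rw [this, hb1, ← Polynomial.smul_eq_C_mul]
    exact (Int.cast_smul_eq_zsmul ℚ _ _).symm
  have e2 : t'.map (Int.castRingHom ℚ) = C (Int.castRingHom ℚ b2) * t := by
    have : t'.map (Int.castRingHom ℚ) = t'.map (algebraMap ℤ ℚ) := rfl
    rw [this, hb2, ← Polynomial.smul_eq_C_mul]
    exact (Int.cast_smul_eq_zsmul ℚ _ _).symm
  simp only [Polynomial.map_add, Polynomial.map_mul, Polynomial.map_C, e1, e2, map_mul]
  calc _ = C (Int.castRingHom ℚ b1) * C (Int.castRingHom ℚ b2) *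
        (s * a.map (Int.castRingHom ℚ) + t * b.map (Int.castRingHom ℚ)) := by ring
    _ = _ := by rw [hst, mul_one]

lemma coprime_mod (a b : ℤ[X]) (h : IsCoprime (a.map (Int.castRingHom ℚ)) (b.map (Int.castRingHom ℚ))) :
    ∃ M : ℕ, ∀ p : ℕ, p.Prime → M ≤ p → IsCoprime (a.map (Int.castRingHom (ZMod p)))
      (b.map (Int.castRingHom (ZMod p))) := by
  obtain ⟨d, hd, s, t, hst⟩ := exists_bezout a b h
  refine ⟨d.natAbs + 1, fun p hp hM => ?_⟩
  have hF : Fact p.Prime := ⟨hp⟩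
  have hdp : ((d : ℤ) : ZMod p) ≠ 0 := by
    intro h0
    rw [ZMod.intCast_zmod_eq_zero_iff_dvd] at h0
    have := Int.natAbs_dvd_natAbs.2 h0
    rw [Int.natAbs_natCast] at this
    have := Nat.le_of_dvd (Int.natAbs_pos.2 hd) this
    omega
  have h1 := congrArg (Polynomial.map (Int.castRingHom (ZMod p))) hst
  simp only [Polynomial.map_add, Polynomial.map_mul, Polynomial.map_C] at h1
  refine ⟨C ((d : ZMod p)⁻¹) * s.map (Int.castRingHom (ZMod p)),
    C ((d : ZMod p)⁻¹) * t.map (Int.castRingHom (ZMod p)), ?_⟩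
  rw [mul_assoc, mul_assoc, ← mul_add, h1, ← C_mul]
  have h2 : (d : ZMod p)⁻¹ * Int.castRingHom (ZMod p) d = 1 := inv_mul_cancel₀ hdp
  rw [h2, C_1]

lemma exists_good (P : Fin r → ℤ[X]) (hmon : ∀ i, (P i).Monic) (hinj : Function.Injective P)
    (hdeg : ∀ i, (P i).natDegree = 1 ∨
      ((P i).natDegree = 2 ∧ ∀ x : ℝ, ((P i).map (Int.castRingHom ℝ)).eval x ≠ 0)) :
    ∃ M : ℕ, ∀ p : ℕ, p.Prime → M ≤ p → ∀ i j, i ≠ j →
      IsCoprime ((P i).map (Int.castRingHom (ZMod p))) ((P j).map (Int.castRingHom (ZMod p))) := by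
  classical
  have hsep := Pool.Agent.W254.LF.zed_sep P hmon hinj hdeg
  have hcopQ : ∀ i j, i ≠ j → IsCoprime ((P i).map (Int.castRingHom ℚ)) ((P j).map (Int.castRingHom ℚ)) := by
    intro i j hij
    rw [← Finset.mul_prod_erase _ _ (Finset.mem_univ i)] at hsep
    have h1 := hsep.isCoprime
    exact h1.of_isCoprime_of_dvd_right (Finset.dvd_prod_of_mem _ (Finset.mem_erase.2 ⟨hij.symm, Finset.mem_univ j⟩))
  have h1 : ∀ x : Fin r × Fin r, ∃ M : ℕ, x.1 ≠ x.2 → ∀ p : ℕ, p.Prime → M ≤ p →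
      IsCoprime ((P x.1).map (Int.castRingHom (ZMod p))) ((P x.2).map (Int.castRingHom (ZMod p))) := by
    intro x
    by_cases hx : x.1 = x.2
    · exact ⟨0, fun h => absurd hx h⟩
    · obtain ⟨M, hM⟩ := coprime_mod _ _ (hcopQ _ _ hx)
      exact ⟨M, fun _ => hM⟩
  choose M hM using h1
  refine ⟨∑ x, M x, fun p hp hMp i j hij => hM (i, j) hij p hp (le_trans ?_ hMp)⟩
  exact Finset.single_le_sum (f := fun x => M x) (fun _ _ => Nat.zero_le _) (Finset.mem_univ (i, j))

/-- for each prime there are finitely many exceptions -/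
lemma fails_finite (P : Fin r → ℤ[X]) (hmon : ∀ i, (P i).Monic) (hinj : Function.Injective P)
    (hdeg : ∀ i, (P i).natDegree = 1 ∨
      ((P i).natDegree = 2 ∧ ∀ x : ℝ, ((P i).map (Int.castRingHom ℝ)).eval x ≠ 0)) (q : ℕ) :
    {t : ℤ | Fails P t q}.Finite := by
  by_cases hq : q.Prime
  · have hF : Fact q.Prime := ⟨hq⟩
    refine (Pool.Agent.Results.MP_5f2860_nt.ExplicitFamilies.result.1 q r P hmon hinj hdeg).subset ?_
    rintro t ⟨_, K, _, _, θ, hθ, hK, hL⟩ h
    exact hL (h.2 K θ hθ hK).2.2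
  · convert Set.finite_empty
    rw [Set.eq_empty_iff_forall_notMem]
    rintro t ⟨h, -⟩
    exact hq h.out

theorem total (P : Fin r → ℤ[X]) (hmon : ∀ i, (P i).Monic) (hinj : Function.Injective P)
    (hdeg : ∀ i, (P i).natDegree = 1 ∨
      ((P i).natDegree = 2 ∧ ∀ x : ℝ, ((P i).map (Int.castRingHom ℝ)).eval x ≠ 0)) (hr : 0 < r) :
    ∃ C : ℕ, ∀ Y : ℕ, {x : ℤ × ℕ | Regular P x.1 ∧ x.2 ≤ Y ∧ Fails P x.1 x.2}.encard ≤
      ((C + r * ∑ q ∈ (Finset.range (Y + 1)).filter Nat.Prime, q : ℕ) : ℕ∞) := by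
  classical
  have hdeg' : ∀ i, (P i).natDegree = 1 ∨ (P i).natDegree = 2 := fun i => (hdeg i).imp id (fun h => h.1)
  obtain ⟨M, hM⟩ := exists_good P hmon hinj hdeg
  obtain ⟨M0, hM0⟩ : ∃ M0, M0 = M + 5 + 2 * (1 + ∑ i, (P i).natDegree) := ⟨_, rfl⟩
  refine ⟨∑ q ∈ Finset.range M0, {t : ℤ | Fails P t q}.ncard, fun Y => ?_⟩
  have hsub : {x : ℤ × ℕ | Regular P x.1 ∧ x.2 ≤ Y ∧ Fails P x.1 x.2} ⊆
      (⋃ q ∈ Finset.range M0, (fun t : ℤ => (t, q)) '' {t : ℤ | Fails P t q}) ∪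
      (⋃ q ∈ ((Finset.range (Y + 1)).filter Nat.Prime).filter (fun q => M0 ≤ q),
        (fun t : ℤ => (t, q)) '' {t : ℤ | Regular P t ∧ Fails P t q}) := by
    rintro ⟨t, q⟩ ⟨h1, h2, h3⟩
    have hq : q.Prime := h3.1.out
    rcases lt_or_ge q M0 with h | h
    · left
      simp only [Set.mem_iUnion]
      exact ⟨q, Finset.mem_range.2 h, t, h3, rfl⟩
    · right
      simp only [Set.mem_iUnion]
      refine ⟨q, ?_, t, ⟨h1, h3⟩, rfl⟩
      rw [Finset.mem_filter, Finset.mem_filter, Finset.mem_range]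
      exact ⟨⟨Nat.lt_succ_of_le h2, hq⟩, h⟩
  refine (Set.encard_le_encard hsub).trans ((Set.encard_union_le _ _).trans ?_)
  rw [Nat.cast_add]
  refine add_le_add ?_ ?_
  · refine (encard_biUnion_le' _ _).trans ?_
    rw [Nat.cast_sum]
    refine Finset.sum_le_sum fun q _ => (Set.encard_image_le _ _).trans ?_
    rw [(fails_finite P hmon hinj hdeg q).cast_ncard_eq]
  · refine (encard_biUnion_le' _ _).trans ?_
    rw [Finset.mul_sum, Nat.cast_sum]
    refine (Finset.sum_le_sum (g := fun q => ((r * q : ℕ) : ℕ∞)) ?_).trans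
      (Finset.sum_le_sum_of_subset (Finset.filter_subset _ _))
    intro q hq
    rw [Finset.mem_filter, Finset.mem_filter] at hq
    refine (Set.encard_image_le _ _).trans ?_
    exact prime_le P hmon hdeg' hr q hq.1.2 (by omega) (by omega) (hM q hq.1.2 (by omega))

lemma sum_primes_le (Y : ℕ) : ∑ q ∈ (Finset.range (Y + 1)).filter Nat.Prime, q ≤ Y ^ 2 := by
  have h1 : ∑ q ∈ (Finset.range (Y + 1)).filter Nat.Prime, q ≤
      ∑ q ∈ (Finset.Icc 1 Y), Y := by
    refine (Finset.sum_le_sum (g := fun _ => Y) ?_).trans (Finset.sum_le_sum_of_subset ?_)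
    · intro q hq
      rw [Finset.mem_filter, Finset.mem_range] at hq
      omega
    · intro q hq
      rw [Finset.mem_filter, Finset.mem_range] at hq
      rw [Finset.mem_Icc]
      exact ⟨hq.2.one_lt.le, by omega⟩
  rw [Finset.sum_const, Nat.card_Icc, smul_eq_mul] at h1
  calc _ ≤ _ := h1
    _ = Y ^ 2 := by rw [Nat.add_sub_cancel, pow_two]

theorem regular_finite (P : Fin r → ℤ[X]) (hmon : ∀ i, (P i).Monic) (hinj : Function.Injective P)
    (hdeg : ∀ i, (P i).natDegree = 1 ∨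
      ((P i).natDegree = 2 ∧ ∀ x : ℝ, ((P i).map (Int.castRingHom ℝ)).eval x ≠ 0)) :
    {t : ℤ | ¬ Regular P t}.Finite := by
  refine (Pool.Agent.Results.MP_5f2860_nt.ExplicitFamilies.result.1 2 r P hmon hinj hdeg).subset ?_
  intro t ht h
  apply ht
  refine ⟨h.1, fun K _ _ θ hθ hK => ?_⟩
  obtain ⟨h1, h2, -⟩ := h.2 K θ hθ hK
  exact ⟨h1, h2⟩

/-- all primes up to `Y` at once -/
theorem all_primes (P : Fin r → ℤ[X]) (hmon : ∀ i, (P i).Monic) (hinj : Function.Injective P)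
    (hdeg : ∀ i, (P i).natDegree = 1 ∨
      ((P i).natDegree = 2 ∧ ∀ x : ℝ, ((P i).map (Int.castRingHom ℝ)).eval x ≠ 0)) (hr : 0 < r) :
    ∃ C : ℕ, ∀ Y : ℕ, {t : ℤ | ¬ (Regular P t ∧ ∀ p ≤ Y, ¬ Fails P t p)}.encard ≤
      ((C + r * Y ^ 2 : ℕ) : ℕ∞) := by
  classical
  obtain ⟨C, hC⟩ := total P hmon hinj hdeg hr
  refine ⟨{t : ℤ | ¬ Regular P t}.ncard + C, fun Y => ?_⟩
  have hsub : {t : ℤ | ¬ (Regular P t ∧ ∀ p ≤ Y, ¬ Fails P t p)} ⊆ {t : ℤ | ¬ Regular P t} ∪
      Prod.fst '' {x : ℤ × ℕ | Regular P x.1 ∧ x.2 ≤ Y ∧ Fails P x.1 x.2} := by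
    intro t ht
    by_cases hreg : Regular P t
    · right
      have : ∃ p ≤ Y, Fails P t p := by
        by_contra hcon
        push Not at hcon
        exact ht ⟨hreg, hcon⟩
      obtain ⟨p, hp, hf⟩ := this
      exact ⟨(t, p), ⟨hreg, hp, hf⟩, rfl⟩
    · left
      exact hreg
  refine (Set.encard_le_encard hsub).trans ((Set.encard_union_le _ _).trans ?_)
  have h1 := (regular_finite P hmon hinj hdeg).cast_ncard_eq
  have h2 := (Set.encard_image_le Prod.fst _).trans (hC Y)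
  have h3 : C + r * ∑ q ∈ (Finset.range (Y + 1)).filter Nat.Prime, q ≤ C + r * Y ^ 2 :=
    Nat.add_le_add_left (Nat.mul_le_mul_left _ (sum_primes_le Y)) _
  have h4 := h2.trans (Nat.cast_le.2 h3)
  rw [← h1, add_assoc, Nat.cast_add]
  exact add_le_add_right h4 _

end Pool.Agent.V5helper45.LS
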