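import Pool.Agent.V5helper45.LS.LemA

/-!
# Families with a varying constant term of one factor
-/

set_option autoImplicit false

namespace Pool.Agent.V5helper45.LS

open Polynomial Matrix NumberField
open Pool.Agent.H33R4 (IsLog PGood partB_of logB_proof good1_proof good2_proof logEx_proof)

section

variable {F : Type} [Field F] {n r : ℕ}

/-- the logarithmic derivatives of the polynomials are independent -/
def Ind (P : Fin r → F[X]) : Prop := ∀ γ : Fin r → F,
  ∑ i, C (γ i) * derivative (P i) * ∏ j ∈ Finset.univ.erase i, P j = 0 → γ = 0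

theorem injG {Q e : ℕ} (hQ : (Q : F) ≠ 0) (he : 1 ≤ e) (P : Fin r → F[X]) (hPm : ∀ i, (P i).Monic)
    (hli : Ind P) (P0 : F[X]) (hP0 : 1 ≤ P0.natDegree)
    (f : F[X]) (hf : f.Monic) (hn : f.natDegree = n) (hft : f = P0 * ∏ i, P i - 1)
    (hn1 : n = P0.natDegree + ∑ i, (P i).natDegree)
    (hone : ∀ i, aeval (comp f n) (P i) ^ e = 1) (Z : Fin r → Matrix (Fin n) (Fin n) F)
    (γ : Fin r → F) (h1 : ∑ i, γ i • Z i = 0)
    (h2 : ∀ a < n, ∑ i, γ i * slope Q a e (comp f n) (lastc (∏ i, P i) n) (Z i) (P i) = 0) :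
    γ = 0 := by
  classical
  have hpos : 0 < n := by omega
  have hGd : (∏ i, P i).natDegree = ∑ i, (P i).natDegree := natDegree_prod_of_monic _ _ fun i _ => hPm i
  set g : F[X] := ∏ i, P i with hg
  have hgk : ∀ k, n ≤ k → g.coeff k = 0 := by
    intro k hk
    apply coeff_eq_zero_of_natDegree_lt
    rw [hg, hGd]
    omega
  -- the element of the algebra
  set β : AdjoinRoot f := ∑ i, γ i • (AdjoinRoot.mk f (P i) ^ (e - 1) *
    AdjoinRoot.mk f (derivative (P i))) with hβ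
  have hβL : Lam f hf hn β = ∑ i, γ i • (aeval (comp f n) (P i) ^ (e - 1) *
      aeval (comp f n) (derivative (P i))) := by
    rw [hβ, map_sum]
    refine Finset.sum_congr rfl fun i _ => ?_
    rw [map_smul, map_mul, map_pow, Lam_mk, Lam_mk]
  have hβ0 : β * AdjoinRoot.mk f g = 0 := by
    apply eq_zero_of_last f hf hn hpos
    intro a ha
    have h3 := h2 a ha
    have h4 : ∑ i, γ i * slope Q a e (comp f n) (lastc g n) (Z i) (P i) =
        (Q : F) * (Lam f hf hn (AdjoinRoot.root f ^ a * β) * lastc g n).trace := by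
      have h5 : ∀ i, γ i * slope Q a e (comp f n) (lastc g n) (Z i) (P i) =
          ((a : F) • (comp f n ^ (a - 1) * (γ i • Z i)) * lastc g n).trace +
          (Q : F) * ((comp f n ^ a * (γ i • (aeval (comp f n) (P i) ^ (e - 1) *
            aeval (comp f n) (derivative (P i))))) * lastc g n).trace := by
        intro i
        rw [slope, add_mul, Matrix.trace_add, mul_add]
        simp only [mul_smul_comm, smul_mul_assoc, Matrix.trace_smul, smul_eq_mul]
        ring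
      rw [Finset.sum_congr rfl fun i _ => h5 i, Finset.sum_add_distrib, ← Finset.mul_sum,
        ← Matrix.trace_sum, ← Matrix.trace_sum, ← Finset.sum_mul, ← Finset.sum_mul, ← Finset.smul_sum,
        ← Finset.mul_sum, ← Finset.mul_sum, h1, ← hβL, mul_zero, smul_zero, zero_mul,
        Matrix.trace_zero, zero_add, map_mul, map_pow, Lam_root]
    rw [h4] at h3
    have h6 := (mul_eq_zero.1 h3).resolve_left hQ
    rw [trace_lastc f hf hn g hgk _ hpos, neg_eq_zero, mul_assoc] at h6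
    exact h6
  -- the product is a unit
  have hunit : AdjoinRoot.mk f P0 * AdjoinRoot.mk f (∏ i, P i) = 1 := by
    rw [← map_mul]
    have : P0 * ∏ i, P i = f + 1 := by rw [hft]; ring
    rw [this, map_add, AdjoinRoot.mk_self, zero_add, map_one]
  have hβ1 : β = 0 := by
    have h3 : β * AdjoinRoot.mk f (∏ i, P i) = 0 := hβ0
    calc β = β * AdjoinRoot.mk f (∏ i, P i) * AdjoinRoot.mk f P0 := by
          rw [mul_assoc, mul_comm (AdjoinRoot.mk f (∏ i, P i)), hunit, mul_one]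
      _ = 0 := by rw [h3, zero_mul]
  have hone' : ∀ i, AdjoinRoot.mk f (P i) ^ e = 1 := by
    intro i
    apply Lam_inj f hf hn
    rw [map_pow, Lam_mk, hone, map_one]
  have h3 : AdjoinRoot.mk f (∑ i, C (γ i) * derivative (P i) * ∏ j ∈ Finset.univ.erase i, P j) = 0 := by
    have h4 : β * AdjoinRoot.mk f (∏ i, P i) =
        AdjoinRoot.mk f (∑ i, C (γ i) * derivative (P i) * ∏ j ∈ Finset.univ.erase i, P j) := by
      rw [hβ, Finset.sum_mul, map_sum]
      refine Finset.sum_congr rfl fun i _ => ?_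
      rw [← Finset.mul_prod_erase _ _ (Finset.mem_univ i), map_mul, map_mul, map_mul,
        AdjoinRoot.mk_C, Algebra.smul_def]
      have h5 : AdjoinRoot.mk f (P i) ^ (e - 1) * AdjoinRoot.mk f (P i) = 1 := by
        rw [← pow_succ, Nat.sub_add_cancel he]
        exact hone' i
      calc _ = (algebraMap F (AdjoinRoot f)) (γ i) * AdjoinRoot.mk f (derivative (P i)) *
            AdjoinRoot.mk f (∏ j ∈ Finset.univ.erase i, P j) *
            (AdjoinRoot.mk f (P i) ^ (e - 1) * AdjoinRoot.mk f (P i)) := by ring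
        _ = _ := by
            rw [h5, mul_one]
            rfl
    rw [← h4, hβ1, zero_mul]
  rw [AdjoinRoot.mk_eq_zero] at h3
  apply hli γ
  by_contra hne
  have h4 := natDegree_le_of_dvd h3 hne
  have h5 : (∑ i, C (γ i) * derivative (P i) * ∏ j ∈ Finset.univ.erase i, P j).natDegree ≤ n - 1 := by
    apply natDegree_sum_le_of_forall_le
    intro i _
    have h6 : (C (γ i) * derivative (P i)).natDegree ≤ (P i).natDegree - 1 :=
      (natDegree_C_mul_le _ _).trans (natDegree_derivative_le _)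
    have h7 : (∏ j ∈ Finset.univ.erase i, P j).natDegree = ∑ j ∈ Finset.univ.erase i, (P j).natDegree :=
      natDegree_prod_of_monic _ _ fun i _ => hPm i
    have h8 := Finset.add_sum_erase Finset.univ (fun j => (P j).natDegree) (Finset.mem_univ i)
    refine natDegree_mul_le.trans ?_
    rw [h7]
    omega
  omega

end

section

variable {p : ℕ} [Fact p.Prime] {n r : ℕ}

/-- the polynomial of the family over a ring -/
noncomputable def gam {A : Type} [CommRing A] (P0 : ℤ[X]) (P : Fin r → ℤ[X]) (t : ℤ) : A[X] :=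
  ((P0 + C t) * ∏ i, P i - 1 : ℤ[X]).map (Int.castRingHom A)

lemma gam_eq {A : Type} [CommRing A] (P0 : ℤ[X]) (P : Fin r → ℤ[X]) (t : ℤ) :
    (gam P0 P t : A[X]) = (P0.map (Int.castRingHom A) + C (t : A)) *
      ∏ i, (P i).map (Int.castRingHom A) - 1 := by
  rw [gam, Polynomial.map_sub, Polynomial.map_mul, Polynomial.map_add, Polynomial.map_prod,
    Polynomial.map_C, Polynomial.map_one]
  rfl

lemma gam_natDegree_int (P0 : ℤ[X]) (hP0m : P0.Monic) (hP0 : 1 ≤ P0.natDegree) (P : Fin r → ℤ[X])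
    (hPm : ∀ i, (P i).Monic) (t : ℤ) :
    ((P0 + C t) * ∏ i, P i - 1 : ℤ[X]).Monic ∧
      ((P0 + C t) * ∏ i, P i - 1 : ℤ[X]).natDegree = P0.natDegree + ∑ i, (P i).natDegree := by
  have h0 : (P0 + C t).Monic := by
    apply hP0m.add_of_left
    refine lt_of_le_of_lt degree_C_le ?_
    rw [degree_eq_natDegree hP0m.ne_zero]
    exact_mod_cast (by omega : 0 < P0.natDegree)
  have hm : ((P0 + C t) * ∏ i, P i : ℤ[X]).Monic :=
    h0.mul (monic_prod_of_monic _ _ fun i _ => hPm i)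
  have hd : ((P0 + C t) * ∏ i, P i : ℤ[X]).natDegree = P0.natDegree + ∑ i, (P i).natDegree := by
    rw [h0.natDegree_mul (monic_prod_of_monic _ _ fun i _ => hPm i), natDegree_add_C,
      natDegree_prod_of_monic _ _ fun i _ => hPm i]
  have h1 : (1 : ℤ[X]).degree < ((P0 + C t) * ∏ i, P i : ℤ[X]).degree := by
    rw [degree_one, degree_eq_natDegree hm.ne_zero, hd]
    exact_mod_cast (by omega : 0 < P0.natDegree + ∑ i, (P i).natDegree)
  refine ⟨hm.sub_of_left h1, ?_⟩
  rw [natDegree_sub_eq_left_of_natDegree_lt, hd]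
  rw [hd, natDegree_one]
  omega

lemma gam_monic {A : Type} [CommRing A] (P0 : ℤ[X]) (hP0m : P0.Monic) (hP0 : 1 ≤ P0.natDegree)
    (P : Fin r → ℤ[X]) (hPm : ∀ i, (P i).Monic) (t : ℤ) : (gam P0 P t : A[X]).Monic :=
  (gam_natDegree_int P0 hP0m hP0 P hPm t).1.map _

lemma gam_natDegree {A : Type} [CommRing A] [Nontrivial A] (P0 : ℤ[X]) (hP0m : P0.Monic)
    (hP0 : 1 ≤ P0.natDegree) (P : Fin r → ℤ[X]) (hPm : ∀ i, (P i).Monic) (t : ℤ) :
    (gam P0 P t : A[X]).natDegree = P0.natDegree + ∑ i, (P i).natDegree := by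
  rw [gam, (gam_natDegree_int P0 hP0m hP0 P hPm t).1.natDegree_map,
    (gam_natDegree_int P0 hP0m hP0 P hPm t).2]

/-- a relation between the logarithms of the units `P i` in `ℤ_p[X] / (f_t)` -/
def RelG (p : ℕ) [Fact p.Prime] (Q : ℕ) (P0 : ℤ[X]) (P : Fin r → ℤ[X]) (t : ℤ) : Prop :=
  ∃ w : Fin r → ℤ_[p], w ≠ 0 ∧ ∃ l : Fin r → AdjoinRoot (gam P0 P t : ℤ_[p][X]),
    (∀ i, IsLog p (AdjoinRoot.mk (gam P0 P t : ℤ_[p][X]) ((P i).map (Int.castRingHom ℤ_[p])) ^ (Q * p))
      (l i)) ∧ ∑ i, w i • l i = 0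

lemma rp_gam (P0 : ℤ[X]) (P : Fin r → ℤ[X]) (t : ℤ) :
    rp p (gam P0 P t : ℤ_[p][X]) = (gam P0 P t : (ZMod p)[X]) :=
  rp_map _

lemma unit_gam {A : Type} [CommRing A] (P0 : ℤ[X]) (P : Fin r → ℤ[X]) (t : ℤ) (i : Fin r) :
    IsUnit (AdjoinRoot.mk (gam P0 P t : A[X]) ((P i).map (Int.castRingHom A))) := by
  classical
  have h1 : AdjoinRoot.mk (gam P0 P t : A[X]) ((P0.map (Int.castRingHom A) + C (t : A)) *
      ∏ i, (P i).map (Int.castRingHom A)) = 1 := by
    have : (P0.map (Int.castRingHom A) + C (t : A)) * ∏ i, (P i).map (Int.castRingHom A) =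
        gam P0 P t + 1 := by
      rw [gam_eq]
      ring
    rw [this, map_add, AdjoinRoot.mk_self, zero_add, map_one]
  rw [← Finset.mul_prod_erase _ _ (Finset.mem_univ i), mul_left_comm, map_mul] at h1
  exact IsUnit.of_mul_eq_one _ h1

theorem fewG {Q : ℕ} (hp5 : 5 ≤ p) (hpn : 2 * n ≤ p) (hQp : ¬ p ∣ Q)
    (hQ : ∀ M : Matrix (Fin n) (Fin n) (ZMod p), IsUnit M → IsNilpotent (M ^ Q - 1))
    (P0 : ℤ[X]) (hP0m : P0.Monic) (hP0 : 1 ≤ P0.natDegree)
    (P : Fin r → ℤ[X]) (hPm : ∀ i, (P i).Monic)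
    (hn1 : n = P0.natDegree + ∑ i, (P i).natDegree)
    (hli : Ind fun i => (P i).map (Int.castRingHom (ZMod p))) (t0 : ℤ) (y : Fin (r + 1) → ℤ)
    (hy : Function.Injective y) :
    ¬ ∀ k, RelG p Q P0 P (t0 + p * y k) := by
  classical
  intro hrel
  have hp : p.Prime := Fact.out
  have hnpos : 0 < n := by omega
  have : Nonempty (Fin n) := ⟨⟨0, hnpos⟩⟩
  obtain ⟨f0, hf0⟩ : ∃ f0, f0 = (gam P0 P t0 : ℤ_[p][X]) := ⟨_, rfl⟩
  obtain ⟨C0, hC0⟩ : ∃ C0, C0 = comp f0 n := ⟨_, rfl⟩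
  obtain ⟨u, hu⟩ : ∃ u : Fin r → ℤ_[p][X], u = fun i => (P i).map (Int.castRingHom ℤ_[p]) := ⟨_, rfl⟩
  obtain ⟨C1, hC1⟩ : ∃ C1, C1 = lastc (∏ i, u i) n := ⟨_, rfl⟩
  obtain ⟨fb, hfb⟩ : ∃ fb, fb = (gam P0 P t0 : (ZMod p)[X]) := ⟨_, rfl⟩
  have hfbm : fb.Monic := by rw [hfb]; exact gam_monic P0 hP0m hP0 P hPm t0
  have hfbn : fb.natDegree = n := by rw [hfb, gam_natDegree P0 hP0m hP0 P hPm t0, hn1]
  obtain ⟨ub, hub⟩ : ∃ ub : Fin r → (ZMod p)[X], ub = fun i => (P i).map (Int.castRingHom (ZMod p)) := ⟨_, rfl⟩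
  have hrC0 : red C0 = comp fb n := by rw [hC0, red_comp, hf0, rp_gam, hfb]
  have hru : ∀ i, rp p (u i) = ub i := by
    intro i
    rw [hu, hub]
    exact rp_map _
  have hrC1 : red C1 = lastc (∏ i, ub i) n := by
    rw [hC1, red_lastc, map_prod]
    simp only [hru]
  have hUu : ∀ i, IsUnit (aeval (comp fb n) (ub i)) := by
    intro i
    rw [← Lam_mk fb hfbm hfbn]
    apply IsUnit.map
    subst hfb hub
    exact unit_gam P0 P t0 i
  have hU : ∀ i, IsUnit (red (aeval C0 (u i))) := by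
    intro i
    rw [red_aeval, hrC0, hru]
    exact hUu i
  have hQ1 : 1 ≤ Q * p := by
    have h1 : Q ≠ 0 := by rintro rfl; exact hQp (dvd_zero p)
    exact Nat.mul_pos (Nat.pos_of_ne_zero h1) hp.pos
  have hone : ∀ i, aeval (comp fb n) (ub i) ^ (Q * p) = 1 := by
    intro i
    have h1 := nil_pow (hQ _ (hUu i))
    set M := aeval (comp fb n) (ub i) with hM
    have h2 : (M ^ Q - 1) ^ p = 0 := pow_eq_zero_of_le (by omega) h1
    have h3 : M ^ Q = 1 + (M ^ Q - 1) := by abel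
    rw [pow_mul, h3, add_pow_expChar_of_commute p (Commute.one_left _), one_pow, h2, add_zero]
  choose Zb t hone2 using fun i => one hp5 hpn hQ C0 C1 (u i) (hU i)
  -- the leading parts
  obtain ⟨R, hR⟩ : ∃ R : Fin r → (Fin n × Fin n) ⊕ Fin n → ZMod p, R = fun i => Sum.elim
    (fun bc : Fin n × Fin n => Zb i bc.1 bc.2)
    (fun a : Fin n => slope Q a (Q * p) (red C0) (red C1) (Zb i) (rp p (u i))) := ⟨_, rfl⟩
  have hind : ∀ γ : Fin r → ZMod p, (∀ x, ∑ i, γ i * R i x = 0) → γ = 0 := by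
    intro γ hγ
    have hQ0 : (Q : ZMod p) ≠ 0 := by
      rw [Ne, ZMod.natCast_eq_zero_iff]
      exact hQp
    have hP0d : (P0.map (Int.castRingHom (ZMod p)) + C (t0 : ZMod p)).natDegree = P0.natDegree := by
      rw [natDegree_add_C, hP0m.natDegree_map]
    refine injG hQ0 hQ1 ub (fun i => by rw [hub]; exact (hPm i).map _) (by rw [hub]; exact hli)
      (P0.map (Int.castRingHom (ZMod p)) + C (t0 : ZMod p)) (by rw [hP0d]; exact hP0) fb hfbm hfbn
      (by rw [hfb, gam_eq, hub]) ?_ hone Zb γ ?_ ?_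
    · rw [hP0d, hn1, hub]
      congr 1
      refine Finset.sum_congr rfl fun i _ => ?_
      rw [(hPm i).natDegree_map]
    · ext1 b c
      have := hγ (Sum.inl (b, c))
      rw [hR] at this
      simp only [Sum.elim_inl] at this
      rw [Matrix.sum_apply, Matrix.zero_apply, ← this]
      rfl
    · intro a ha
      have := hγ (Sum.inr ⟨a, ha⟩)
      rw [hR] at this
      simp only [Sum.elim_inr, hrC0, hrC1, hru] at this
      exact this
  obtain ⟨T, hT⟩ := exists_rinv R hind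
  have hlift : ∀ z : ZMod p, ∃ z' : ℤ_[p], PadicInt.toZMod z' = z :=
    fun z => ZMod.ringHom_surjective _ z
  choose lift hlift using hlift
  obtain ⟨B, hB⟩ := strass (p := p) r y hy
  choose Y Tt hYT using fun i => hone2 i (B + 1)
  obtain ⟨Pm, hPm'⟩ : ∃ Pm : Matrix (Fin r) (Fin r) ℤ_[p][X], Pm = Matrix.of fun i j =>
    X * (∑ bc : Fin n × Fin n, C (lift (T (Sum.inl bc) j)) * Y i bc.1 bc.2) +
      ∑ a : Fin n, C (lift (T (Sum.inr a) j)) * Tt i a := ⟨_, rfl⟩
  have hred : (rp p).mapMatrix Pm = (-(Matrix.of fun i j => -∑ a : Fin n, T (Sum.inr a) j * t i a) :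
      Matrix (Fin r) (Fin r) (ZMod p)).map C + Matrix.scalar _ X := by
    ext1 i j
    obtain ⟨h1, h2, h3, h4⟩ := hYT i
    have hYbc : ∀ b c, rp p (Y i b c) = C (Zb i b c) := by
      intro b c
      have := congrFun (congrFun h2 b) c
      rwa [RingHom.mapMatrix_apply, Matrix.map_apply, KM_apply] at this
    rw [RingHom.mapMatrix_apply, Matrix.map_apply, hPm', Matrix.of_apply, map_add, map_mul, rp_X,
      map_sum, map_sum]
    simp only [map_mul, rp_C, hlift, hYbc, h4]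
    rw [Matrix.add_apply, Matrix.map_apply, Matrix.neg_apply, Matrix.of_apply, neg_neg,
      Matrix.scalar_apply, Matrix.diagonal_apply]
    have h5 := hT i j
    rw [hR] at h5
    simp only [Fintype.sum_sum_type, Sum.elim_inl, Sum.elim_inr] at h5
    have h6 := congrArg (C : ZMod p →+* (ZMod p)[X]) h5
    rw [map_add, map_sum, map_sum] at h6
    simp only [map_mul] at h6
    have h7 : (if i = j then (X : (ZMod p)[X]) else 0) = X * C (if i = j then (1 : ZMod p) else 0) := by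
      split_ifs <;> simp
    rw [h7, ← h6, map_sum, mul_add, Finset.mul_sum, Finset.mul_sum, Finset.mul_sum]
    simp only [map_mul, mul_add, Finset.sum_add_distrib]
    rw [add_left_comm, ← add_assoc, ← add_assoc]
    have e1 : ∀ x : Fin n × Fin n, X * (C (T (Sum.inl x) j) * C (Zb i x.1 x.2)) =
      X * (C (Zb i x.1 x.2) * C (T (Sum.inl x) j)) := fun x => by ring
    have e2 : ∀ a : Fin n, C (T (Sum.inr a) j) * (C (slope Q (↑a) (Q * p) (red C0) (red C1) (Zb i) (rp p (u i))) * X) =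
      X * (C (slope Q (↑a) (Q * p) (red C0) (red C1) (Zb i) (rp p (u i))) * C (T (Sum.inr a) j)) :=
      fun x => by ring
    simp only [e1, e2]
  obtain ⟨N, hN⟩ : ∃ N : Matrix (Fin r) (Fin r) (ZMod p), N =
    Matrix.of fun i j => -∑ a : Fin n, T (Sum.inr a) j * t i a := ⟨_, rfl⟩
  have hDred : (Pm.det).map PadicInt.toZMod = N.charpoly := by
    have h1 : (Pm.det).map PadicInt.toZMod = rp p Pm.det := rfl
    rw [h1, RingHom.map_det, hred, ← hN, Matrix.charpoly, Matrix.charmatrix]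
    congr 1
    ext1 i j
    simp only [Matrix.add_apply, Matrix.map_apply, Matrix.neg_apply, Matrix.sub_apply,
      RingHom.mapMatrix_apply, map_neg]
    ring
  refine hB Pm.det ?_ ?_ ?_
  · rw [hDred]
    exact Matrix.charpoly_monic _
  · rw [hDred, Matrix.charpoly_natDegree_eq_dim, Fintype.card_fin]
  intro k'
  obtain ⟨w, hw0, l, hl, hsum⟩ := hrel k'
  obtain ⟨s, hs⟩ : ∃ s : ℤ_[p], s = ((y k' : ℤ) : ℤ_[p]) := ⟨_, rfl⟩
  rw [← hs]
  obtain ⟨f, hf⟩ : ∃ f, f = (gam P0 P (t0 + p * y k') : ℤ_[p][X]) := ⟨_, rfl⟩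
  have hfm : f.Monic := by rw [hf]; exact gam_monic P0 hP0m hP0 P hPm _
  have hfn : f.natDegree = n := by rw [hf, gam_natDegree P0 hP0m hP0 P hPm _, hn1]
  have hcomp : comp f n = C0 + ((p : ℤ_[p]) * s) • C1 := by
    rw [hC0, hC1, ← comp_add]
    congr 1
    rw [hf, hf0, gam_eq, gam_eq, hu, hs]
    push_cast
    simp only [map_add, map_mul]
    ring
  subst hf
  obtain ⟨L, hL⟩ : ∃ L : Fin r → Matrix (Fin n) (Fin n) ℤ_[p], L = fun i => Lam _ hfm hfn (l i) := ⟨_, rfl⟩
  have hLsum : ∑ i, w i • L i = 0 := by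
    rw [hL, ← map_zero (Lam _ hfm hfn), ← hsum, map_sum]
    refine Finset.sum_congr rfl fun i _ => ?_
    rw [map_smul]
  have hEx : ∀ i, ∃ E : Matrix (Fin n) (Fin n) ℤ_[p], L i =
      (p : ℤ_[p]) • (evalRingHom s).mapMatrix (Y i) + ((p : ℤ_[p]) ^ (B + 1 + 1)) • E := by
    intro i
    rw [hL]
    apply log_matrix hfm hfn (hl i)
    obtain ⟨h1, h2, h3, h4⟩ := hYT i
    have h5 := congrArg (evalRingHom s).mapMatrix h1
    rw [eval_sg, ← hcomp] at h5
    rw [← pow_mul, ← map_pow, Lam_mk]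
    have h6 : ((P i).map (Int.castRingHom ℤ_[p])) = u i := by rw [hu]
    rw [h6, h5, map_add, map_one]
    congr 1
    ext1 b c
    simp
  choose E hE using hEx
  have htrace : ∀ i (a : ℕ), ((comp (gam P0 P (t0 + p * y k') : ℤ_[p][X]) n) ^ a * L i).trace =
      (p : ℤ_[p]) ^ 2 * (Tt i a).eval s + (p : ℤ_[p]) ^ (B + 1 + 1) *
        ((comp (gam P0 P (t0 + p * y k') : ℤ_[p][X]) n) ^ a * E i).trace := by
    intro i a
    obtain ⟨h1, h2, h3, h4⟩ := hYT i
    rw [hE, mul_add, mul_smul_comm, mul_smul_comm, Matrix.trace_add, Matrix.trace_smul,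
      Matrix.trace_smul, smul_eq_mul, smul_eq_mul]
    congr 1
    have h5 := congrArg (evalRingHom s) (h3 a)
    have h6 : ∀ M : Matrix (Fin n) (Fin n) ℤ_[p][X], evalRingHom s M.trace =
        ((evalRingHom s).mapMatrix M).trace := by
      intro M
      simp only [Matrix.trace, map_sum, Matrix.diag_apply, RingHom.mapMatrix_apply, Matrix.map_apply]
    have h7 : (evalRingHom s).mapMatrix ((sg p).mapMatrix (CM C0 C1)) =
        comp (gam P0 P (t0 + p * y k') : ℤ_[p][X]) n := by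
      have := eval_sg C0 C1 s X
      rw [aeval_X, aeval_X] at this
      rw [this, hcomp]
    rw [h6, map_mul, map_pow, h7, map_mul, coe_evalRingHom, eval_C] at h5
    rw [h5]
    ring
  obtain ⟨e', he'⟩ : ∃ e' : Matrix (Fin r) (Fin r) ℤ_[p], e' = Matrix.of fun i j =>
    (p * s) * (∑ bc : Fin n × Fin n, lift (T (Sum.inl bc) j) * E i bc.1 bc.2) +
      ∑ a : Fin n, lift (T (Sum.inr a) j) *
        ((comp (gam P0 P (t0 + p * y k') : ℤ_[p][X]) n) ^ (a : ℕ) * E i).trace := ⟨_, rfl⟩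
  have hHent : ∀ i j, (p * s) * (∑ bc : Fin n × Fin n, lift (T (Sum.inl bc) j) * L i bc.1 bc.2) +
      ∑ a : Fin n, lift (T (Sum.inr a) j) *
        ((comp (gam P0 P (t0 + p * y k') : ℤ_[p][X]) n) ^ (a : ℕ) * L i).trace =
      (p : ℤ_[p]) ^ 2 * (((evalRingHom s).mapMatrix Pm + ((p : ℤ_[p]) ^ B) • e') i j) := by
    intro i j
    simp only [htrace]
    have h1 : ∀ b c, L i b c = p * (Y i b c).eval s + (p : ℤ_[p]) ^ (B + 1 + 1) * E i b c := by
      intro b c
      rw [hE]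
      simp
    simp only [h1]
    rw [Matrix.add_apply, Matrix.smul_apply, smul_eq_mul, RingHom.mapMatrix_apply, Matrix.map_apply,
      hPm', he', Matrix.of_apply, Matrix.of_apply, coe_evalRingHom]
    simp only [eval_add, eval_mul, eval_X, eval_finsetSum, eval_C]
    rw [sum_lin, sum_lin]
    ring
  have hdet : ((evalRingHom s).mapMatrix Pm + ((p : ℤ_[p]) ^ B) • e').det = 0 := by
    rw [← Matrix.exists_vecMul_eq_zero_iff]
    refine ⟨w, hw0, ?_⟩
    funext j
    rw [Matrix.vecMul, dotProduct, Pi.zero_apply]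
    have hp2 : ((p : ℤ_[p]) ^ 2) ≠ 0 := pow_ne_zero _ (by exact_mod_cast hp.ne_zero)
    apply mul_left_cancel₀ hp2
    rw [mul_zero, Finset.mul_sum]
    have h1 : ∀ i, (p : ℤ_[p]) ^ 2 * (w i * ((evalRingHom s).mapMatrix Pm + ((p : ℤ_[p]) ^ B) • e') i j) =
        (p * s) * (∑ bc : Fin n × Fin n, lift (T (Sum.inl bc) j) * (w i • L i) bc.1 bc.2) +
      ∑ a : Fin n, lift (T (Sum.inr a) j) *
        ((comp (gam P0 P (t0 + p * y k') : ℤ_[p][X]) n) ^ (a : ℕ) * (w i • L i)).trace := by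
      intro i
      rw [mul_left_comm, ← hHent, mul_add, Finset.mul_sum, Finset.mul_sum, Finset.mul_sum,
        Finset.mul_sum]
      congr 1
      · refine Finset.sum_congr rfl fun bc _ => ?_
        rw [Matrix.smul_apply, smul_eq_mul]
        ring
      · refine Finset.sum_congr rfl fun a _ => ?_
        rw [mul_smul_comm, Matrix.trace_smul, smul_eq_mul]
        ring
    rw [Finset.sum_congr rfl fun i _ => h1 i, Finset.sum_add_distrib, ← Finset.mul_sum,
      Finset.sum_comm, Finset.sum_comm (s := Finset.univ (α := Fin r)) (t := Finset.univ (α := Fin n))]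
    have h2 : ∀ bc : Fin n × Fin n, ∑ i, lift (T (Sum.inl bc) j) * (w i • L i) bc.1 bc.2 = 0 := by
      intro bc
      rw [← Finset.mul_sum, ← Matrix.sum_apply, hLsum, Matrix.zero_apply, mul_zero]
    have h3 : ∀ a : Fin n, ∑ i, lift (T (Sum.inr a) j) *
        ((comp (gam P0 P (t0 + p * y k') : ℤ_[p][X]) n) ^ (a : ℕ) * (w i • L i)).trace = 0 := by
      intro a
      rw [← Finset.mul_sum, ← Matrix.trace_sum, ← Finset.mul_sum, hLsum, mul_zero, Matrix.trace_zero,
        mul_zero]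
    simp only [h2, h3, Finset.sum_const_zero, mul_zero, add_zero]
  have := det_congr _ _ _ hdet
  rw [← RingHom.map_det] at this
  exact this

theorem relG_of_not_leopoldt {Q : ℕ} (hpn : n ≤ p) (hQ0 : 0 < Q)
    (hQ : ∀ M : Matrix (Fin n) (Fin n) (ZMod p), IsUnit M → IsNilpotent (M ^ Q - 1))
    (P0 : ℤ[X]) (hP0m : P0.Monic) (hP0 : 1 ≤ P0.natDegree)
    (P : Fin r → ℤ[X]) (hPm : ∀ i, (P i).Monic)
    (hn1 : n = P0.natDegree + ∑ i, (P i).natDegree) (t : ℤ) (K : Type) [Field K] [NumberField K] (θ : K)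
    (hθ : aeval θ ((P0 + C t) * ∏ i, P i - 1 : ℤ[X]) = 0) (hd : Module.finrank ℚ K = n)
    (hgen : IntermediateField.adjoin ℚ {θ} = ⊤) (hr : Units.rank K = r)
    (hL : ¬ Pool.Agent.H637R2.Leo.Leopoldt K p) : RelG p Q P0 P t := by
  classical
  have hp : p.Prime := Fact.out
  obtain ⟨hgm, hgn⟩ := gam_natDegree_int P0 hP0m hP0 P hPm t
  have hfm : (gam P0 P t : ℤ_[p][X]).Monic := gam_monic P0 hP0m hP0 P hPm t
  have hfbm : (gam P0 P t : (ZMod p)[X]).Monic := gam_monic P0 hP0m hP0 P hPm t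
  have hfbn : (gam P0 P t : (ZMod p)[X]).natDegree = n := by rw [gam_natDegree P0 hP0m hP0 P hPm t, hn1]
  have hgood : PGood p (AdjoinRoot (gam P0 P t : ℤ_[p][X])) :=
    good2_proof p ℤ_[p] _ hfm (good1_proof.1 p)
  have hlog : ∀ i, ∃ l, IsLog p (AdjoinRoot.mk (gam P0 P t : ℤ_[p][X])
      ((P i).map (Int.castRingHom ℤ_[p])) ^ (Q * p)) l := by
    intro i
    apply logEx_proof p hp _ hgood
    apply dvd_of_mk_eq_zero _ hfm _ (((P i).map (Int.castRingHom ℤ_[p])) ^ (Q * p) - 1)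
    · rw [map_sub, map_pow, map_one]
    · rw [rp_gam, map_sub, map_pow, map_one, rp_map, map_sub, map_pow, map_one, sub_eq_zero]
      exact pow_one hpn hQ _ hfbm hfbn _ (unit_gam P0 P t i)
  choose l hl using hlog
  obtain ⟨w, hw0, hw⟩ := partB_of logB_proof good1_proof good2_proof p
    ((P0 + C t) * ∏ i, P i - 1 : ℤ[X]) hgm r P (fun i => (P0 + C t) * ∏ j ∈ Finset.univ.erase i, P j)
    (fun i => by
      rw [mul_left_comm, Finset.mul_prod_erase _ _ (Finset.mem_univ i)]) K θ hθ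
    (by rw [hd, hgn, hn1]) hgen hr hL (Q * p) (Nat.mul_pos hQ0 hp.pos) l hl
  refine ⟨w, hw0, l, hl, ?_⟩
  refine Eq.trans (Finset.sum_congr rfl fun i _ => ?_) hw
  rw [Algebra.smul_def]
  rfl

end

end Pool.Agent.V5helper45.LS
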