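import Pool.Agent.V5helper45.LS.One
import Pool.Agent.V5helper45.LS.Comp

/-!
# The leading parts of the blocks are independent
-/

set_option autoImplicit false

namespace Pool.Agent.V5helper45.LS

open Polynomial Matrix

variable {F : Type} [Field F] {n r : ℕ}

/-- partial fractions -/
lemma partial_fractions (P : Fin r → F[X]) (hPm : ∀ i, (P i).Monic)
    (hPd : ∀ i, derivative (P i) ≠ 0) (hcop : ∀ i j, i ≠ j → IsCoprime (P i) (P j)) (γ : Fin r → F)
    (h : ∑ i, C (γ i) * derivative (P i) * ∏ j ∈ Finset.univ.erase i, P j = 0) : γ = 0 := by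
  classical
  funext i
  have h1 : P i ∣ C (γ i) * derivative (P i) * ∏ j ∈ Finset.univ.erase i, P j := by
    rw [← Finset.add_sum_erase _ _ (Finset.mem_univ i)] at h
    rw [eq_neg_of_add_eq_zero_left h]
    apply Dvd.dvd.neg_right
    apply Finset.dvd_sum
    intro k hk
    apply Dvd.dvd.mul_left
    exact Finset.dvd_prod_of_mem _ (Finset.mem_erase.2 ⟨(Finset.ne_of_mem_erase hk).symm, Finset.mem_univ _⟩)
  have h2 : IsCoprime (P i) (∏ j ∈ Finset.univ.erase i, P j) := by
    apply IsCoprime.prod_right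
    intro j hj
    exact hcop i j (Finset.ne_of_mem_erase hj).symm
  have h3 : P i ∣ C (γ i) * derivative (P i) := h2.dvd_of_dvd_mul_right h1
  by_contra hγ
  have h4 : C (γ i) * derivative (P i) ≠ 0 := mul_ne_zero (by rwa [Ne, C_eq_zero]) (hPd i)
  have h5 := natDegree_le_of_dvd h3 h4
  have h6 : (C (γ i) * derivative (P i)).natDegree ≤ (P i).natDegree - 1 :=
    (natDegree_C_mul_le _ _).trans (natDegree_derivative_le _)
  have h7 : (P i).natDegree = 0 := by omega
  apply hPd i
  rw [eq_C_of_natDegree_eq_zero h7, derivative_C]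

theorem inj {Q e : ℕ} (hQ : (Q : F) ≠ 0) (he : 1 ≤ e) (P : Fin r → F[X]) (hPm : ∀ i, (P i).Monic)
    (hPd : ∀ i, derivative (P i) ≠ 0) (hcop : ∀ i j, i ≠ j → IsCoprime (P i) (P j)) (t : F)
    (f : F[X]) (hf : f.Monic) (hn : f.natDegree = n) (hft : f = (X - C t) * ∏ i, P i - 1)
    (hn1 : n = 1 + ∑ i, (P i).natDegree)
    (hone : ∀ i, aeval (comp f n) (P i) ^ e = 1) (Z : Fin r → Matrix (Fin n) (Fin n) F)
    (γ : Fin r → F) (h1 : ∑ i, γ i • Z i = 0)
    (h2 : ∀ a < n, ∑ i, γ i * slope Q a e (comp f n) (lastc (-∏ i, P i) n) (Z i) (P i) = 0) :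
    γ = 0 := by
  classical
  have hpos : 0 < n := by omega
  have hGd : (∏ i, P i).natDegree = ∑ i, (P i).natDegree := natDegree_prod_of_monic _ _ fun i _ => hPm i
  set g : F[X] := -∏ i, P i with hg
  have hgk : ∀ k, n ≤ k → g.coeff k = 0 := by
    intro k hk
    apply coeff_eq_zero_of_natDegree_lt
    rw [hg, natDegree_neg, hGd]
    omega
  -- the element of the algebra
  set β : AdjoinRoot f := ∑ i, γ i • (AdjoinRoot.mk f (P i) ^ (e - 1) *
    AdjoinRoot.mk f (derivative (P i))) with hβ
  have hβL : Lam f hf hn β = ∑ i, γ i • (aeval (comp f n) (P i) ^ (e - 1) *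
      aeval (comp f n) (derivative (P i))) := by
    rw [hβ, map_sum]
    refine Finset.sum_congr rfl fun i _ => ?_
    rw [map_smul, map_mul, map_pow, Lam_mk, Lam_mk]
  have hβ0 : β * AdjoinRoot.mk f g = 0 := by
    apply eq_zero_of_last f hf hn hpos
    intro a ha
    have h3 := h2 a ha
    have h4 : ∑ i, γ i * slope Q a e (comp f n) (lastc g n) (Z i) (P i) =
        (Q : F) * (Lam f hf hn (AdjoinRoot.root f ^ a * β) * lastc g n).trace := by
      have h5 : ∀ i, γ i * slope Q a e (comp f n) (lastc g n) (Z i) (P i) =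
          ((a : F) • (comp f n ^ (a - 1) * (γ i • Z i)) * lastc g n).trace +
          (Q : F) * ((comp f n ^ a * (γ i • (aeval (comp f n) (P i) ^ (e - 1) *
            aeval (comp f n) (derivative (P i))))) * lastc g n).trace := by
        intro i
        rw [slope, add_mul, Matrix.trace_add, mul_add]
        simp only [mul_smul_comm, smul_mul_assoc, Matrix.trace_smul, smul_eq_mul]
        ring
      rw [Finset.sum_congr rfl fun i _ => h5 i, Finset.sum_add_distrib, ← Finset.mul_sum,
        ← Matrix.trace_sum, ← Matrix.trace_sum, ← Finset.sum_mul, ← Finset.sum_mul, ← Finset.smul_sum,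
        ← Finset.mul_sum, ← Finset.mul_sum, h1, ← hβL, mul_zero, smul_zero, zero_mul,
        Matrix.trace_zero, zero_add, map_mul, map_pow, Lam_root]
    rw [h4] at h3
    have h6 := (mul_eq_zero.1 h3).resolve_left hQ
    rw [trace_lastc f hf hn g hgk _ hpos, neg_eq_zero, mul_assoc] at h6
    exact h6
  -- the product is a unit
  have hunit : AdjoinRoot.mk f (X - C t) * AdjoinRoot.mk f (∏ i, P i) = 1 := by
    rw [← map_mul]
    have : (X - C t) * ∏ i, P i = f + 1 := by rw [hft]; ring
    rw [this, map_add, AdjoinRoot.mk_self, zero_add, map_one]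
  have hβ1 : β = 0 := by
    have h3 : β * AdjoinRoot.mk f (∏ i, P i) = 0 := by
      rw [hg, map_neg, mul_neg, neg_eq_zero] at hβ0
      exact hβ0
    calc β = β * AdjoinRoot.mk f (∏ i, P i) * AdjoinRoot.mk f (X - C t) := by
          rw [mul_assoc, mul_comm (AdjoinRoot.mk f (∏ i, P i)), hunit, mul_one]
      _ = 0 := by rw [h3, zero_mul]
  have hone' : ∀ i, AdjoinRoot.mk f (P i) ^ e = 1 := by
    intro i
    apply Lam_inj f hf hn
    rw [map_pow, Lam_mk, hone, map_one]
  have h3 : AdjoinRoot.mk f (∑ i, C (γ i) * derivative (P i) * ∏ j ∈ Finset.univ.erase i, P j) = 0 := by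
    have h4 : β * AdjoinRoot.mk f (∏ i, P i) =
        AdjoinRoot.mk f (∑ i, C (γ i) * derivative (P i) * ∏ j ∈ Finset.univ.erase i, P j) := by
      rw [hβ, Finset.sum_mul, map_sum]
      refine Finset.sum_congr rfl fun i _ => ?_
      rw [← Finset.mul_prod_erase _ _ (Finset.mem_univ i), map_mul, map_mul, map_mul,
        AdjoinRoot.mk_C, Algebra.smul_def]
      have h5 : AdjoinRoot.mk f (P i) ^ (e - 1) * AdjoinRoot.mk f (P i) = 1 := by
        rw [← pow_succ, Nat.sub_add_cancel he]
        exact hone' i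
      calc _ = (algebraMap F (AdjoinRoot f)) (γ i) * AdjoinRoot.mk f (derivative (P i)) *
            AdjoinRoot.mk f (∏ j ∈ Finset.univ.erase i, P j) *
            (AdjoinRoot.mk f (P i) ^ (e - 1) * AdjoinRoot.mk f (P i)) := by ring
        _ = _ := by
            rw [h5, mul_one]
            rfl
    rw [← h4, hβ1, zero_mul]
  rw [AdjoinRoot.mk_eq_zero] at h3
  apply partial_fractions P hPm hPd hcop γ
  by_contra hne
  have h4 := natDegree_le_of_dvd h3 hne
  have h5 : (∑ i, C (γ i) * derivative (P i) * ∏ j ∈ Finset.univ.erase i, P j).natDegree ≤ n - 1 - 1 := by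
    apply natDegree_sum_le_of_forall_le
    intro i _
    have hpi : 1 ≤ (P i).natDegree := by
      by_contra hcon
      apply hPd i
      rw [eq_C_of_natDegree_eq_zero (by omega : (P i).natDegree = 0), derivative_C]
    have h6 : (C (γ i) * derivative (P i)).natDegree ≤ (P i).natDegree - 1 :=
      (natDegree_C_mul_le _ _).trans (natDegree_derivative_le _)
    have h7 : (∏ j ∈ Finset.univ.erase i, P j).natDegree = ∑ j ∈ Finset.univ.erase i, (P j).natDegree :=
      natDegree_prod_of_monic _ _ fun i _ => hPm i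
    have h8 := Finset.add_sum_erase Finset.univ (fun j => (P j).natDegree) (Finset.mem_univ i)
    refine natDegree_mul_le.trans ?_
    rw [h7]
    omega
  omega

end Pool.Agent.V5helper45.LS
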