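import Pool.Agent.V5helper45.LS.LemB

/-!
# A failure of Leopoldt's conjecture gives a relation between the logarithms
-/

set_option autoImplicit false

namespace Pool.Agent.V5helper45.LS

open Polynomial Matrix NumberField
open Pool.Agent.H33R4 (IsLog PGood partB_of logB_proof good1_proof good2_proof logEx_proof)

variable {p : ℕ} [Fact p.Prime] {n r : ℕ}

lemma pow_one {Q : ℕ} (hpn : n ≤ p)
    (hQ : ∀ M : Matrix (Fin n) (Fin n) (ZMod p), IsUnit M → IsNilpotent (M ^ Q - 1))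
    (f : (ZMod p)[X]) (hf : f.Monic) (hn : f.natDegree = n) (u : (ZMod p)[X])
    (hu : IsUnit (AdjoinRoot.mk f u)) : AdjoinRoot.mk f u ^ (Q * p) = 1 := by
  classical
  apply Lam_inj f hf hn
  rw [map_pow, map_one]
  have hU : IsUnit (Lam f hf hn (AdjoinRoot.mk f u)) := hu.map _
  have h1 := nil_pow (hQ _ hU)
  set M := Lam f hf hn (AdjoinRoot.mk f u) with hM
  have h2 : (M ^ Q - 1) ^ p = 0 := pow_eq_zero_of_le hpn h1
  have h3 : M ^ Q = 1 + (M ^ Q - 1) := by abel
  rcases Nat.eq_zero_or_pos n with rfl | hpos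
  · exact Subsingleton.elim _ _
  · have : Nonempty (Fin n) := ⟨⟨0, hpos⟩⟩
    rw [pow_mul, h3, add_pow_expChar_of_commute p (Commute.one_left _), one_pow, h2, add_zero]

/-- an element which vanishes modulo `p` is divisible by `p` -/
lemma dvd_of_mk_eq_zero (f : ℤ_[p][X]) (hf : f.Monic) (x : AdjoinRoot f) (q : ℤ_[p][X])
    (hx : x = AdjoinRoot.mk f q) (h : AdjoinRoot.mk (rp p f) (rp p q) = 0) : (p : AdjoinRoot f) ∣ x := by
  rw [AdjoinRoot.mk_eq_zero] at h
  obtain ⟨g, hg⟩ := h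
  obtain ⟨g', hg'⟩ : ∃ g', rp p g' = g := by
    have : Function.Surjective (rp p) := Polynomial.map_surjective _ (ZMod.ringHom_surjective _)
    exact this g
  have h1 : rp p (q - f * g') = 0 := by rw [map_sub, map_mul, hg', hg, sub_self]
  have h2 : C (p : ℤ_[p]) ∣ q - f * g' := by
    rw [C_dvd_iff_dvd_coeff]
    intro i
    rw [dvd_iff_toZMod]
    have := congrArg (fun q => coeff q i) h1
    simp only [rp, coe_mapRingHom, coeff_map, coeff_zero] at this
    exact this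
  obtain ⟨s, hs⟩ := h2
  refine ⟨AdjoinRoot.mk f s, ?_⟩
  have h3 : q = f * g' + C (p : ℤ_[p]) * s := by rw [← hs]; ring
  rw [hx, h3, map_add, map_mul, AdjoinRoot.mk_self, zero_mul, zero_add, map_mul]
  congr 1

theorem rel_of_not_leopoldt {Q : ℕ} (hpn : n ≤ p) (hQ0 : 0 < Q)
    (hQ : ∀ M : Matrix (Fin n) (Fin n) (ZMod p), IsUnit M → IsNilpotent (M ^ Q - 1))
    (P : Fin r → ℤ[X]) (hPm : ∀ i, (P i).Monic) (hpos : 1 ≤ ∑ i, (P i).natDegree)
    (hn1 : n = 1 + ∑ i, (P i).natDegree) (t : ℤ) (K : Type) [Field K] [NumberField K] (θ : K)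
    (hθ : aeval θ ((X - C t) * ∏ i, P i - 1 : ℤ[X]) = 0) (hd : Module.finrank ℚ K = n)
    (hgen : IntermediateField.adjoin ℚ {θ} = ⊤) (hr : Units.rank K = r)
    (hL : ¬ Pool.Agent.H637R2.Leo.Leopoldt K p) : Rel p Q P t := by
  classical
  have hp : p.Prime := Fact.out
  obtain ⟨hgm, hgn⟩ := fam_natDegree_int P hPm t hpos
  have hfm : (fam P t : ℤ_[p][X]).Monic := fam_monic P hPm t hpos
  have hfbm : (fam P t : (ZMod p)[X]).Monic := fam_monic P hPm t hpos
  have hfbn : (fam P t : (ZMod p)[X]).natDegree = n := by rw [fam_natDegree P hPm t hpos, hn1]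
  have hgood : PGood p (AdjoinRoot (fam P t : ℤ_[p][X])) :=
    good2_proof p ℤ_[p] _ hfm (good1_proof.1 p)
  have hlog : ∀ i, ∃ l, IsLog p (AdjoinRoot.mk (fam P t : ℤ_[p][X])
      ((P i).map (Int.castRingHom ℤ_[p])) ^ (Q * p)) l := by
    intro i
    apply logEx_proof p hp _ hgood
    apply dvd_of_mk_eq_zero _ hfm _ (((P i).map (Int.castRingHom ℤ_[p])) ^ (Q * p) - 1)
    · rw [map_sub, map_pow, map_one]
    · rw [rp_fam, map_sub, map_pow, map_one, rp_map, map_sub, map_pow, map_one, sub_eq_zero]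
      exact pow_one hpn hQ _ hfbm hfbn _ (unit_fam P t i)
  choose l hl using hlog
  obtain ⟨w, hw0, hw⟩ := partB_of logB_proof good1_proof good2_proof p
    ((X - C t) * ∏ i, P i - 1 : ℤ[X]) hgm r P (fun i => (X - C t) * ∏ j ∈ Finset.univ.erase i, P j)
    (fun i => by
      rw [mul_left_comm, Finset.mul_prod_erase _ _ (Finset.mem_univ i)]) K θ hθ
    (by rw [hd, hgn, hn1]) hgen hr hL (Q * p) (Nat.mul_pos hQ0 hp.pos) l hl
  refine ⟨w, hw0, l, hl, ?_⟩
  refine Eq.trans (Finset.sum_congr rfl fun i _ => ?_) hw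
  rw [Algebra.smul_def]
  rfl

end Pool.Agent.V5helper45.LS
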