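import Pool.Agent.V5helper45.LS.Cls

/-!
# At most `r` bad parameters in each residue class: the main lemma
-/

set_option autoImplicit false

namespace Pool.Agent.V5helper45.LS

open Polynomial Matrix
open Pool.Agent.H33R4 (IsLog)

variable {p : ℕ} [Fact p.Prime] {n r : ℕ}

/-- the matrix of a logarithm -/
lemma log_matrix {f : ℤ_[p][X]} (hf : f.Monic) (hn : f.natDegree = n) {x l : AdjoinRoot f} {k : ℕ}
    (hl : IsLog p x l) (Y : Matrix (Fin n) (Fin n) ℤ_[p])
    (hY : Lam f hf hn (x ^ (p ^ (k + 1))) = 1 + ((p : ℤ_[p]) ^ (k + 2)) • Y) :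
    ∃ E, Lam f hf hn l = (p : ℤ_[p]) • Y + ((p : ℤ_[p]) ^ (k + 1)) • E := by
  have hp : p.Prime := Fact.out
  obtain ⟨e, he⟩ := hl (k + 1)
  have h1 := congrArg (Lam f hf hn) he
  have hcast : ∀ (m : ℕ) (z : AdjoinRoot f), Lam f hf hn ((p : AdjoinRoot f) ^ m * z) =
      ((p : ℤ_[p]) ^ m) • Lam f hf hn z := by
    intro m z
    have : ((p : AdjoinRoot f) ^ m * z) = ((p : ℤ_[p]) ^ m) • z := by
      rw [Algebra.smul_def, map_pow, map_natCast]
    rw [this, map_smul]
  rw [map_sub, map_sub, map_one, hY, hcast, hcast, add_sub_cancel_left] at h1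
  refine ⟨-Lam f hf hn e, ?_⟩
  have h2 : ((p : ℤ_[p]) ^ (k + 1)) • (Lam f hf hn l - ((p : ℤ_[p]) • Y +
      ((p : ℤ_[p]) ^ (k + 1)) • (-Lam f hf hn e))) = 0 := by
    have e1 : (p : ℤ_[p]) ^ (2 * (k + 1)) = (p : ℤ_[p]) ^ (k + 1) * (p : ℤ_[p]) ^ (k + 1) := by ring
    have e2 : (p : ℤ_[p]) ^ (k + 2) = (p : ℤ_[p]) ^ (k + 1) * (p : ℤ_[p]) := by ring
    rw [e1, e2, mul_smul, mul_smul] at h1
    rw [smul_sub, smul_add, smul_neg, smul_neg, ← h1]
    abel
  have hp0 : ((p : ℤ_[p]) ^ (k + 1)) ≠ 0 := pow_ne_zero _ (by exact_mod_cast hp.ne_zero)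
  have h3 := (smul_eq_zero.1 h2).resolve_left hp0
  exact sub_eq_zero.1 h3

lemma red_comp (f : ℤ_[p][X]) : red (comp f n) = comp (rp p f) n := by
  ext1 i j
  simp only [red_apply, comp, Matrix.of_apply, rp, coe_mapRingHom, coeff_map]
  split_ifs <;> simp

lemma red_lastc (f : ℤ_[p][X]) : red (lastc f n) = lastc (rp p f) n := by
  ext1 i j
  simp only [red_apply, lastc, Matrix.of_apply, rp, coe_mapRingHom, coeff_map]
  split_ifs <;> simp

lemma rp_map (q : ℤ[X]) : rp p (q.map (Int.castRingHom ℤ_[p])) = q.map (Int.castRingHom (ZMod p)) := by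
  rw [rp, coe_mapRingHom, Polynomial.map_map]
  congr 1
  exact RingHom.ext_int _ _

lemma rp_fam (P : Fin r → ℤ[X]) (t : ℤ) : rp p (fam P t : ℤ_[p][X]) = (fam P t : (ZMod p)[X]) :=
  rp_map _

lemma unit_fam {A : Type} [CommRing A] (P : Fin r → ℤ[X]) (t : ℤ) (i : Fin r) :
    IsUnit (AdjoinRoot.mk (fam P t : A[X]) ((P i).map (Int.castRingHom A))) := by
  classical
  have h1 : AdjoinRoot.mk (fam P t : A[X]) ((X - C (t : A)) * ∏ i, (P i).map (Int.castRingHom A)) = 1 := by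
    have : (X - C (t : A)) * ∏ i, (P i).map (Int.castRingHom A) = fam P t + 1 := by
      rw [fam_eq]
      ring
    rw [this, map_add, AdjoinRoot.mk_self, zero_add, map_one]
  rw [← Finset.mul_prod_erase _ _ (Finset.mem_univ i), mul_left_comm, map_mul] at h1
  exact IsUnit.of_mul_eq_one _ h1

lemma sum_lin {κ A : Type} [Fintype κ] [CommRing A] (α a b : κ → A) (c d : A) :
    ∑ x, α x * (c * a x + d * b x) = c * ∑ x, α x * a x + d * ∑ x, α x * b x := by
  rw [Finset.mul_sum, Finset.mul_sum, ← Finset.sum_add_distrib]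
  exact Finset.sum_congr rfl fun x _ => by ring

theorem few {Q : ℕ} (hp5 : 5 ≤ p) (hpn : 2 * n ≤ p) (hQp : ¬ p ∣ Q)
    (hQ : ∀ M : Matrix (Fin n) (Fin n) (ZMod p), IsUnit M → IsNilpotent (M ^ Q - 1))
    (P : Fin r → ℤ[X]) (hPm : ∀ i, (P i).Monic) (hpos : 1 ≤ ∑ i, (P i).natDegree)
    (hn1 : n = 1 + ∑ i, (P i).natDegree)
    (hPd : ∀ i, derivative ((P i).map (Int.castRingHom (ZMod p))) ≠ 0)
    (hcop : ∀ i j, i ≠ j → IsCoprime ((P i).map (Int.castRingHom (ZMod p)))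
      ((P j).map (Int.castRingHom (ZMod p)))) (t0 : ℤ) (y : Fin (r + 1) → ℤ)
    (hy : Function.Injective y) :
    ¬ ∀ k, Rel p Q P (t0 + p * y k) := by
  classical
  intro hrel
  have hp : p.Prime := Fact.out
  have hnpos : 0 < n := by omega
  have : Nonempty (Fin n) := ⟨⟨0, hnpos⟩⟩
  obtain ⟨f0, hf0⟩ : ∃ f0, f0 = (fam P t0 : ℤ_[p][X]) := ⟨_, rfl⟩
  obtain ⟨C0, hC0⟩ : ∃ C0, C0 = comp f0 n := ⟨_, rfl⟩
  obtain ⟨u, hu⟩ : ∃ u : Fin r → ℤ_[p][X], u = fun i => (P i).map (Int.castRingHom ℤ_[p]) := ⟨_, rfl⟩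
  obtain ⟨C1, hC1⟩ : ∃ C1, C1 = lastc (-∏ i, u i) n := ⟨_, rfl⟩
  obtain ⟨fb, hfb⟩ : ∃ fb, fb = (fam P t0 : (ZMod p)[X]) := ⟨_, rfl⟩
  have hfbm : fb.Monic := by rw [hfb]; exact fam_monic P hPm t0 hpos
  have hfbn : fb.natDegree = n := by rw [hfb, fam_natDegree P hPm t0 hpos, hn1]
  obtain ⟨ub, hub⟩ : ∃ ub : Fin r → (ZMod p)[X], ub = fun i => (P i).map (Int.castRingHom (ZMod p)) := ⟨_, rfl⟩
  have hrC0 : red C0 = comp fb n := by rw [hC0, red_comp, hf0, rp_fam, hfb]
  have hru : ∀ i, rp p (u i) = ub i := by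
    intro i
    rw [hu, hub]
    exact rp_map _
  have hrC1 : red C1 = lastc (-∏ i, ub i) n := by
    rw [hC1, red_lastc, map_neg, map_prod]
    simp only [hru]
  have hUu : ∀ i, IsUnit (aeval (comp fb n) (ub i)) := by
    intro i
    rw [← Lam_mk fb hfbm hfbn]
    apply IsUnit.map
    subst hfb hub
    exact unit_fam P t0 i
  have hU : ∀ i, IsUnit (red (aeval C0 (u i))) := by
    intro i
    rw [red_aeval, hrC0, hru]
    exact hUu i
  have hQ1 : 1 ≤ Q * p := by
    have h1 : Q ≠ 0 := by rintro rfl; exact hQp (dvd_zero p)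
    exact Nat.mul_pos (Nat.pos_of_ne_zero h1) hp.pos
  have hone : ∀ i, aeval (comp fb n) (ub i) ^ (Q * p) = 1 := by
    intro i
    have h1 := nil_pow (hQ _ (hUu i))
    set M := aeval (comp fb n) (ub i) with hM
    have h2 : (M ^ Q - 1) ^ p = 0 := pow_eq_zero_of_le (by omega) h1
    have h3 : M ^ Q = 1 + (M ^ Q - 1) := by abel
    rw [pow_mul, h3, add_pow_expChar_of_commute p (Commute.one_left _), one_pow, h2, add_zero]
  choose Zb t hone2 using fun i => one hp5 hpn hQ C0 C1 (u i) (hU i)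
  -- the leading parts
  obtain ⟨R, hR⟩ : ∃ R : Fin r → (Fin n × Fin n) ⊕ Fin n → ZMod p, R = fun i => Sum.elim
    (fun bc : Fin n × Fin n => Zb i bc.1 bc.2)
    (fun a : Fin n => slope Q a (Q * p) (red C0) (red C1) (Zb i) (rp p (u i))) := ⟨_, rfl⟩
  have hind : ∀ γ : Fin r → ZMod p, (∀ x, ∑ i, γ i * R i x = 0) → γ = 0 := by
    intro γ hγ
    have hQ0 : (Q : ZMod p) ≠ 0 := by
      rw [Ne, ZMod.natCast_eq_zero_iff]
      exact hQp
    refine inj hQ0 hQ1 ub (fun i => by rw [hub]; exact (hPm i).map _) (fun i => by rw [hub]; exact hPd i)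
      (fun i j hij => by rw [hub]; exact hcop i j hij) (t0 : ZMod p) fb hfbm hfbn
      (by rw [hfb, fam_eq, hub]) ?_ hone Zb γ ?_ ?_
    · rw [hn1, hub]
      congr 1
      refine Finset.sum_congr rfl fun i _ => ?_
      rw [(hPm i).natDegree_map]
    · ext1 b c
      have := hγ (Sum.inl (b, c))
      rw [hR] at this
      simp only [Sum.elim_inl] at this
      rw [Matrix.sum_apply, Matrix.zero_apply, ← this]
      rfl
    · intro a ha
      have := hγ (Sum.inr ⟨a, ha⟩)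
      rw [hR] at this
      simp only [Sum.elim_inr, hrC0, hrC1, hru] at this
      exact this
  obtain ⟨T, hT⟩ := exists_rinv R hind
  have hlift : ∀ z : ZMod p, ∃ z' : ℤ_[p], PadicInt.toZMod z' = z :=
    fun z => ZMod.ringHom_surjective _ z
  choose lift hlift using hlift
  obtain ⟨B, hB⟩ := strass (p := p) r y hy
  choose Y Tt hYT using fun i => hone2 i (B + 1)
  obtain ⟨Pm, hPm'⟩ : ∃ Pm : Matrix (Fin r) (Fin r) ℤ_[p][X], Pm = Matrix.of fun i j =>
    X * (∑ bc : Fin n × Fin n, C (lift (T (Sum.inl bc) j)) * Y i bc.1 bc.2) +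
      ∑ a : Fin n, C (lift (T (Sum.inr a) j)) * Tt i a := ⟨_, rfl⟩
  have hred : (rp p).mapMatrix Pm = (-(Matrix.of fun i j => -∑ a : Fin n, T (Sum.inr a) j * t i a) :
      Matrix (Fin r) (Fin r) (ZMod p)).map C + Matrix.scalar _ X := by
    ext1 i j
    obtain ⟨h1, h2, h3, h4⟩ := hYT i
    have hYbc : ∀ b c, rp p (Y i b c) = C (Zb i b c) := by
      intro b c
      have := congrFun (congrFun h2 b) c
      rwa [RingHom.mapMatrix_apply, Matrix.map_apply, KM_apply] at this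
    rw [RingHom.mapMatrix_apply, Matrix.map_apply, hPm', Matrix.of_apply, map_add, map_mul, rp_X,
      map_sum, map_sum]
    simp only [map_mul, rp_C, hlift, hYbc, h4]
    rw [Matrix.add_apply, Matrix.map_apply, Matrix.neg_apply, Matrix.of_apply, neg_neg,
      Matrix.scalar_apply, Matrix.diagonal_apply]
    have h5 := hT i j
    rw [hR] at h5
    simp only [Fintype.sum_sum_type, Sum.elim_inl, Sum.elim_inr] at h5
    have h6 := congrArg (C : ZMod p →+* (ZMod p)[X]) h5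
    rw [map_add, map_sum, map_sum] at h6
    simp only [map_mul] at h6
    have h7 : (if i = j then (X : (ZMod p)[X]) else 0) = X * C (if i = j then (1 : ZMod p) else 0) := by
      split_ifs <;> simp
    rw [h7, ← h6, map_sum, mul_add, Finset.mul_sum, Finset.mul_sum, Finset.mul_sum]
    simp only [map_mul, mul_add, Finset.sum_add_distrib]
    rw [add_left_comm, ← add_assoc, ← add_assoc]
    have e1 : ∀ x : Fin n × Fin n, X * (C (T (Sum.inl x) j) * C (Zb i x.1 x.2)) =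
      X * (C (Zb i x.1 x.2) * C (T (Sum.inl x) j)) := fun x => by ring
    have e2 : ∀ a : Fin n, C (T (Sum.inr a) j) * (C (slope Q (↑a) (Q * p) (red C0) (red C1) (Zb i) (rp p (u i))) * X) =
      X * (C (slope Q (↑a) (Q * p) (red C0) (red C1) (Zb i) (rp p (u i))) * C (T (Sum.inr a) j)) :=
      fun x => by ring
    simp only [e1, e2]
  obtain ⟨N, hN⟩ : ∃ N : Matrix (Fin r) (Fin r) (ZMod p), N =
    Matrix.of fun i j => -∑ a : Fin n, T (Sum.inr a) j * t i a := ⟨_, rfl⟩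
  have hDred : (Pm.det).map PadicInt.toZMod = N.charpoly := by
    have h1 : (Pm.det).map PadicInt.toZMod = rp p Pm.det := rfl
    rw [h1, RingHom.map_det, hred, ← hN, Matrix.charpoly, Matrix.charmatrix]
    congr 1
    ext1 i j
    simp only [Matrix.add_apply, Matrix.map_apply, Matrix.neg_apply, Matrix.sub_apply,
      RingHom.mapMatrix_apply, map_neg]
    ring
  refine hB Pm.det ?_ ?_ ?_
  · rw [hDred]
    exact Matrix.charpoly_monic _
  · rw [hDred, Matrix.charpoly_natDegree_eq_dim, Fintype.card_fin]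
  intro k'
  obtain ⟨w, hw0, l, hl, hsum⟩ := hrel k'
  obtain ⟨s, hs⟩ : ∃ s : ℤ_[p], s = ((y k' : ℤ) : ℤ_[p]) := ⟨_, rfl⟩
  rw [← hs]
  obtain ⟨f, hf⟩ : ∃ f, f = (fam P (t0 + p * y k') : ℤ_[p][X]) := ⟨_, rfl⟩
  have hfm : f.Monic := by rw [hf]; exact fam_monic P hPm _ hpos
  have hfn : f.natDegree = n := by rw [hf, fam_natDegree P hPm _ hpos, hn1]
  have hcomp : comp f n = C0 + ((p : ℤ_[p]) * s) • C1 := by
    rw [hC0, hC1, ← comp_add]
    congr 1
    rw [hf, hf0, fam_eq, fam_eq, hu, hs]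
    push_cast
    simp only [map_add, map_mul]
    ring
  subst hf
  obtain ⟨L, hL⟩ : ∃ L : Fin r → Matrix (Fin n) (Fin n) ℤ_[p], L = fun i => Lam _ hfm hfn (l i) := ⟨_, rfl⟩
  have hLsum : ∑ i, w i • L i = 0 := by
    rw [hL, ← map_zero (Lam _ hfm hfn), ← hsum, map_sum]
    refine Finset.sum_congr rfl fun i _ => ?_
    rw [map_smul]
  have hEx : ∀ i, ∃ E : Matrix (Fin n) (Fin n) ℤ_[p], L i =
      (p : ℤ_[p]) • (evalRingHom s).mapMatrix (Y i) + ((p : ℤ_[p]) ^ (B + 1 + 1)) • E := by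
    intro i
    rw [hL]
    apply log_matrix hfm hfn (hl i)
    obtain ⟨h1, h2, h3, h4⟩ := hYT i
    have h5 := congrArg (evalRingHom s).mapMatrix h1
    rw [eval_sg, ← hcomp] at h5
    rw [← pow_mul, ← map_pow, Lam_mk]
    have h6 : ((P i).map (Int.castRingHom ℤ_[p])) = u i := by rw [hu]
    rw [h6, h5, map_add, map_one]
    congr 1
    ext1 b c
    simp
  choose E hE using hEx
  have htrace : ∀ i (a : ℕ), ((comp (fam P (t0 + p * y k') : ℤ_[p][X]) n) ^ a * L i).trace =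
      (p : ℤ_[p]) ^ 2 * (Tt i a).eval s + (p : ℤ_[p]) ^ (B + 1 + 1) *
        ((comp (fam P (t0 + p * y k') : ℤ_[p][X]) n) ^ a * E i).trace := by
    intro i a
    obtain ⟨h1, h2, h3, h4⟩ := hYT i
    rw [hE, mul_add, mul_smul_comm, mul_smul_comm, Matrix.trace_add, Matrix.trace_smul,
      Matrix.trace_smul, smul_eq_mul, smul_eq_mul]
    congr 1
    have h5 := congrArg (evalRingHom s) (h3 a)
    have h6 : ∀ M : Matrix (Fin n) (Fin n) ℤ_[p][X], evalRingHom s M.trace =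
        ((evalRingHom s).mapMatrix M).trace := by
      intro M
      simp only [Matrix.trace, map_sum, Matrix.diag_apply, RingHom.mapMatrix_apply, Matrix.map_apply]
    have h7 : (evalRingHom s).mapMatrix ((sg p).mapMatrix (CM C0 C1)) =
        comp (fam P (t0 + p * y k') : ℤ_[p][X]) n := by
      have := eval_sg C0 C1 s X
      rw [aeval_X, aeval_X] at this
      rw [this, hcomp]
    rw [h6, map_mul, map_pow, h7, map_mul, coe_evalRingHom, eval_C] at h5
    rw [h5]
    ring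
  obtain ⟨e', he'⟩ : ∃ e' : Matrix (Fin r) (Fin r) ℤ_[p], e' = Matrix.of fun i j =>
    (p * s) * (∑ bc : Fin n × Fin n, lift (T (Sum.inl bc) j) * E i bc.1 bc.2) +
      ∑ a : Fin n, lift (T (Sum.inr a) j) *
        ((comp (fam P (t0 + p * y k') : ℤ_[p][X]) n) ^ (a : ℕ) * E i).trace := ⟨_, rfl⟩
  have hHent : ∀ i j, (p * s) * (∑ bc : Fin n × Fin n, lift (T (Sum.inl bc) j) * L i bc.1 bc.2) +
      ∑ a : Fin n, lift (T (Sum.inr a) j) *
        ((comp (fam P (t0 + p * y k') : ℤ_[p][X]) n) ^ (a : ℕ) * L i).trace =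
      (p : ℤ_[p]) ^ 2 * (((evalRingHom s).mapMatrix Pm + ((p : ℤ_[p]) ^ B) • e') i j) := by
    intro i j
    simp only [htrace]
    have h1 : ∀ b c, L i b c = p * (Y i b c).eval s + (p : ℤ_[p]) ^ (B + 1 + 1) * E i b c := by
      intro b c
      rw [hE]
      simp
    simp only [h1]
    rw [Matrix.add_apply, Matrix.smul_apply, smul_eq_mul, RingHom.mapMatrix_apply, Matrix.map_apply,
      hPm', he', Matrix.of_apply, Matrix.of_apply, coe_evalRingHom]
    simp only [eval_add, eval_mul, eval_X, eval_finsetSum, eval_C]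
    rw [sum_lin, sum_lin]
    ring
  have hdet : ((evalRingHom s).mapMatrix Pm + ((p : ℤ_[p]) ^ B) • e').det = 0 := by
    rw [← Matrix.exists_vecMul_eq_zero_iff]
    refine ⟨w, hw0, ?_⟩
    funext j
    rw [Matrix.vecMul, dotProduct, Pi.zero_apply]
    have hp2 : ((p : ℤ_[p]) ^ 2) ≠ 0 := pow_ne_zero _ (by exact_mod_cast hp.ne_zero)
    apply mul_left_cancel₀ hp2
    rw [mul_zero, Finset.mul_sum]
    have h1 : ∀ i, (p : ℤ_[p]) ^ 2 * (w i * ((evalRingHom s).mapMatrix Pm + ((p : ℤ_[p]) ^ B) • e') i j) =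
        (p * s) * (∑ bc : Fin n × Fin n, lift (T (Sum.inl bc) j) * (w i • L i) bc.1 bc.2) +
      ∑ a : Fin n, lift (T (Sum.inr a) j) *
        ((comp (fam P (t0 + p * y k') : ℤ_[p][X]) n) ^ (a : ℕ) * (w i • L i)).trace := by
      intro i
      rw [mul_left_comm, ← hHent, mul_add, Finset.mul_sum, Finset.mul_sum, Finset.mul_sum,
        Finset.mul_sum]
      congr 1
      · refine Finset.sum_congr rfl fun bc _ => ?_
        rw [Matrix.smul_apply, smul_eq_mul]
        ring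
      · refine Finset.sum_congr rfl fun a _ => ?_
        rw [mul_smul_comm, Matrix.trace_smul, smul_eq_mul]
        ring
    rw [Finset.sum_congr rfl fun i _ => h1 i, Finset.sum_add_distrib, ← Finset.mul_sum,
      Finset.sum_comm, Finset.sum_comm (s := Finset.univ (α := Fin r)) (t := Finset.univ (α := Fin n))]
    have h2 : ∀ bc : Fin n × Fin n, ∑ i, lift (T (Sum.inl bc) j) * (w i • L i) bc.1 bc.2 = 0 := by
      intro bc
      rw [← Finset.mul_sum, ← Matrix.sum_apply, hLsum, Matrix.zero_apply, mul_zero]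
    have h3 : ∀ a : Fin n, ∑ i, lift (T (Sum.inr a) j) *
        ((comp (fam P (t0 + p * y k') : ℤ_[p][X]) n) ^ (a : ℕ) * (w i • L i)).trace = 0 := by
      intro a
      rw [← Finset.mul_sum, ← Matrix.trace_sum, ← Finset.mul_sum, hLsum, mul_zero, Matrix.trace_zero,
        mul_zero]
    simp only [h2, h3, Finset.sum_const_zero, mul_zero, add_zero]
  have := det_congr _ _ _ hdet
  rw [← RingHom.map_det] at this
  exact this

end Pool.Agent.V5helper45.LS
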