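import Pool.Agent.V5helper45.LS.Gen
import Pool.Agent.V5helper45.LS.Fin
import Pool.Agent.V5helper45.LS.Box
import Pool.Agent.N924.LP.Main

/-!
# The families with `r₁ + 2 r₂` parameters: few exceptions in each class and direction
-/

set_option autoImplicit false

namespace Pool.Agent.V5helper45.LS

open Polynomial NumberField Function
open Pool.Agent.N924.LP (Idx fB pol fB_monic fB_natDegree_inl fB_natDegree_inr)
open Pool.Agent.H637R2.Leo (Leopoldt)

variable {r₁ r₂ : ℕ}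

/-- the factors -/
noncomputable def fx (x : Idx r₁ r₂ → ℤ) : Fin r₁ ⊕ Fin r₂ → ℤ[X] :=
  fB (fun i => x (Sum.inl i)) (fun k => x (Sum.inr (Sum.inl k))) (fun k => x (Sum.inr (Sum.inr k)))

lemma pol_eq (x : Idx r₁ r₂ → ℤ) : pol x = ∏ i, fx x i - 1 := rfl

/-- the coordinate which varies -/
def cc : Fin r₁ ⊕ Fin r₂ → Idx r₁ r₂
  | Sum.inl i => Sum.inl i
  | Sum.inr k => Sum.inr (Sum.inr k)

lemma cc_inj : Injective (cc : Fin r₁ ⊕ Fin r₂ → Idx r₁ r₂) := by
  rintro (i | k) (i' | k') h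
  · simp only [cc, Sum.inl.injEq] at h
    rw [h]
  · simp [cc] at h
  · simp [cc] at h
  · simp only [cc, Sum.inr.injEq] at h
    rw [h]

/-- the fixed part of the varying factor -/
noncomputable def Pz (j : Fin r₁ ⊕ Fin r₂) (x : Idx r₁ r₂ → ℤ) : ℤ[X] :=
  match j with
  | Sum.inl _ => X
  | Sum.inr k => (X - C (x (Sum.inr (Sum.inl k)))) ^ 2

/-- the sign -/
def sn (j : Fin r₁ ⊕ Fin r₂) (t : ℤ) : ℤ :=
  match j with
  | Sum.inl _ => -t
  | Sum.inr _ => t

lemma sn_add (j : Fin r₁ ⊕ Fin r₂) (a p y : ℤ) : sn j (a + p * y) = sn j a + p * sn j y := by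
  rcases j with j | j
  · simp only [sn]
    ring
  · rfl

lemma sn_inj (j : Fin r₁ ⊕ Fin r₂) : Injective (sn j) := by
  rcases j with j | j
  · intro a b h
    simp only [sn] at h
    linarith
  · intro a b h
    exact h

lemma fx_self (x : Idx r₁ r₂ → ℤ) (j : Fin r₁ ⊕ Fin r₂) (t : ℤ) :
    fx (update x (cc j) t) j = Pz j x + C (sn j t) := by
  rcases j with i | k
  · change X - C (update x (cc (Sum.inl i)) t (Sum.inl i)) = X + C (-t)
    have : update x (cc (Sum.inl i)) t (Sum.inl i) = t := by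
      rw [cc, update_self]
    rw [this, map_neg, sub_eq_add_neg]
  · change (X - C (update x (cc (Sum.inr k)) t (Sum.inr (Sum.inl k)))) ^ 2 +
      C (update x (cc (Sum.inr k)) t (Sum.inr (Sum.inr k))) = (X - C (x (Sum.inr (Sum.inl k)))) ^ 2 + C t
    rw [cc, update_self, update_of_ne (by simp)]

lemma fx_other (x : Idx r₁ r₂ → ℤ) {i j : Fin r₁ ⊕ Fin r₂} (hij : i ≠ j) (t : ℤ) :
    fx (update x (cc j) t) i = fx x i := by
  have h1 : ∀ l, l = cc i ∨ (∃ k, i = Sum.inr k ∧ l = Sum.inr (Sum.inl k)) →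
      update x (cc j) t l = x l := by
    rintro l (rfl | ⟨k, rfl, rfl⟩)
    · rw [update_of_ne]
      intro h
      exact hij (cc_inj h)
    · rw [update_of_ne]
      rcases j with j | j <;> simp [cc]
  rcases i with i | k
  · change X - C (update x (cc j) t (Sum.inl i)) = X - C (x (Sum.inl i))
    rw [h1 (Sum.inl i) (Or.inl rfl)]
  · change (X - C (update x (cc j) t (Sum.inr (Sum.inl k)))) ^ 2 +
      C (update x (cc j) t (Sum.inr (Sum.inr k))) = (X - C (x (Sum.inr (Sum.inl k)))) ^ 2 +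
      C (x (Sum.inr (Sum.inr k)))
    rw [h1 (Sum.inr (Sum.inr k)) (Or.inl rfl), h1 (Sum.inr (Sum.inl k)) (Or.inr ⟨k, rfl, rfl⟩)]

lemma fx_monic (x : Idx r₁ r₂ → ℤ) (i : Fin r₁ ⊕ Fin r₂) : (fx x i).Monic := fB_monic _ _ _ i

lemma fx_natDegree (x : Idx r₁ r₂ → ℤ) (i : Fin r₁ ⊕ Fin r₂) :
    (fx x i).natDegree = Sum.elim (fun _ => 1) (fun _ => 2) i := by
  rcases i with i | k
  · exact fB_natDegree_inl _ _ _ i
  · exact fB_natDegree_inr _ _ _ k

lemma Pz_monic (j : Fin r₁ ⊕ Fin r₂) (x : Idx r₁ r₂ → ℤ) : (Pz j x).Monic := by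
  rcases j with i | k
  · exact monic_X
  · exact (monic_X_sub_C _).pow 2

lemma Pz_natDegree (j : Fin r₁ ⊕ Fin r₂) (x : Idx r₁ r₂ → ℤ) :
    (Pz j x).natDegree = Sum.elim (fun _ => 1) (fun _ => 2) j := by
  rcases j with i | k
  · exact natDegree_X
  · change ((X - C (x (Sum.inr (Sum.inl k)))) ^ 2 : ℤ[X]).natDegree = 2
    rw [(monic_X_sub_C _).natDegree_pow, natDegree_X_sub_C]

lemma sum_deg : ∑ i : Fin r₁ ⊕ Fin r₂, (Sum.elim (fun _ => 1) (fun _ => 2) i : ℕ) = r₁ + 2 * r₂ := by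
  rw [Fintype.sum_sum_type]
  simp [mul_comm]

/-- the polynomial is irreducible and has the expected signature -/
def Reg (x : Idx r₁ r₂ → ℤ) : Prop :=
  Irreducible (pol x) ∧ ∀ (K : Type) [Field K] [NumberField K] (θ : K), aeval θ (pol x) = 0 →
    IntermediateField.adjoin ℚ {θ} = ⊤ →
    InfinitePlace.nrRealPlaces K = r₁ ∧ InfinitePlace.nrComplexPlaces K = r₂

/-- Leopoldt's conjecture for `p` fails for some field generated by a root of `pol x` -/
def FailsM (x : Idx r₁ r₂ → ℤ) (p : ℕ) : Prop :=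
  ∃ (_ : Fact p.Prime) (K : Type) (_ : Field K) (_ : NumberField K) (θ : K),
    aeval θ (pol x) = 0 ∧ IntermediateField.adjoin ℚ {θ} = ⊤ ∧ ¬ Leopoldt K p

/-- the factors other than number `j` are pairwise coprime modulo `p` -/
def CopExc (p : ℕ) (j : Fin r₁ ⊕ Fin r₂) (x : Idx r₁ r₂ → ℤ) : Prop :=
  ∀ i i', i ≠ j → i' ≠ j → i ≠ i' → IsCoprime ((fx x i).map (Int.castRingHom (ZMod p)))
    ((fx x i').map (Int.castRingHom (ZMod p)))

lemma copExc_update (p : ℕ) (j : Fin r₁ ⊕ Fin r₂) (x : Idx r₁ r₂ → ℤ) (t : ℤ) :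
    CopExc p j (update x (cc j) t) ↔ CopExc p j x := by
  unfold CopExc
  refine forall_congr' fun i => forall_congr' fun i' => forall_congr' fun h => forall_congr' fun h' => ?_
  rw [fx_other x h, fx_other x h']

lemma ind_of_cop {F : Type} [Field F] {r : ℕ} (P : Fin r → F[X]) (hPm : ∀ i, (P i).Monic)
    (hPd : ∀ i, derivative (P i) ≠ 0) (hcop : ∀ i j, i ≠ j → IsCoprime (P i) (P j)) : Ind P :=
  fun γ h => partial_fractions P hPm hPd hcop γ h

theorem class_leM (p : ℕ) (hp : p.Prime) (hp5 : 5 ≤ p) (hpn : 2 * (r₁ + 2 * r₂) ≤ p)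
    (j : Fin r₁ ⊕ Fin r₂) (x : Idx r₁ r₂ → ℤ) (hcop : CopExc p j x) (a : ℤ) :
    {t : ℤ | Reg (update x (cc j) t) ∧ t ≡ a [ZMOD p] ∧ FailsM (update x (cc j) t) p}.encard ≤
      ((r₁ + r₂ - 1 : ℕ) : ℕ∞) := by
  classical
  have hF : Fact p.Prime := ⟨hp⟩
  by_contra hcon
  obtain ⟨τ, hτ, hA⟩ := exists_inj hcon
  have hcard : Fintype.card {i : Fin r₁ ⊕ Fin r₂ // i ≠ j} = r₁ + r₂ - 1 := by
    rw [Fintype.card_subtype_compl, Fintype.card_subtype_eq, Fintype.card_sum, Fintype.card_fin,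
      Fintype.card_fin]
  obtain ⟨e⟩ : Nonempty (Fin (r₁ + r₂ - 1) ≃ {i : Fin r₁ ⊕ Fin r₂ // i ≠ j}) :=
    ⟨(Fintype.equivFinOfCardEq hcard).symm⟩
  set P : Fin (r₁ + r₂ - 1) → ℤ[X] := fun i => fx x (e i) with hP
  have hprod : ∏ i, P i = ∏ i ∈ Finset.univ.erase j, fx x i := by
    rw [Finset.prod_subtype (p := fun i => i ≠ j) (Finset.univ.erase j) (by simp) (fx x)]
    exact e.prod_comp fun i : {i // i ≠ j} => fx x i
  have hsum : ∑ i, (P i).natDegree = ∑ i ∈ Finset.univ.erase j,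
      (Sum.elim (fun _ => 1) (fun _ => 2) i : ℕ) := by
    rw [Finset.sum_subtype (p := fun i => i ≠ j) (Finset.univ.erase j) (by simp)]
    rw [← e.sum_comp]
    refine Finset.sum_congr rfl fun i _ => ?_
    exact fx_natDegree x (e i)
  have hPm : ∀ i, (P i).Monic := fun i => fx_monic x _
  have hP0 : 1 ≤ (Pz j x).natDegree := by
    rw [Pz_natDegree]
    rcases j with j | j <;> simp
  obtain ⟨n, hn⟩ : ∃ n, n = r₁ + 2 * r₂ := ⟨_, rfl⟩
  have hn1 : n = (Pz j x).natDegree + ∑ i, (P i).natDegree := by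
    rw [hn, Pz_natDegree, hsum, Finset.add_sum_erase _ _ (Finset.mem_univ j), sum_deg]
  have hpol : ∀ t : ℤ, pol (update x (cc j) t) = (Pz j x + C (sn j t)) * ∏ i, P i - 1 := by
    intro t
    rw [pol_eq, hprod, ← Finset.mul_prod_erase _ _ (Finset.mem_univ j), fx_self]
    congr 2
    refine Finset.prod_congr rfl fun i hi => ?_
    exact fx_other x (Finset.ne_of_mem_erase hi) t
  obtain ⟨Q, hQp, hQ⟩ := exists_Q p n
  have hQ0 : 0 < Q := Nat.pos_of_ne_zero (by rintro rfl; exact hQp (dvd_zero p))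
  have hy : ∀ k, ∃ y : ℤ, τ k = a + p * y := by
    intro k
    obtain ⟨c, hc⟩ := (hA k).2.1.symm.dvd
    exact ⟨c, by linarith⟩
  choose y hy using hy
  have hyi : Function.Injective fun k => sn j (y k) := by
    intro k k' h
    apply hτ
    rw [hy, hy, sn_inj j h]
  have hPd : ∀ i, derivative ((P i).map (Int.castRingHom (ZMod p))) ≠ 0 := by
    intro i h0
    have hd : (P i).natDegree = 1 ∨ (P i).natDegree = 2 := by
      rw [hP]
      simp only [fx_natDegree]
      rcases (e i : Fin r₁ ⊕ Fin r₂) with q | q <;> simp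
    have h1 := congrArg (fun q => coeff q ((P i).natDegree - 1)) h0
    simp only [coeff_derivative, coeff_zero] at h1
    have h2 : (P i).natDegree - 1 + 1 = (P i).natDegree := by rcases hd with h | h <;> omega
    rw [h2, coeff_map, (hPm i).coeff_natDegree, map_one, one_mul] at h1
    have h3 : (((P i).natDegree : ℕ) : ZMod p) = 0 := by
      rw [← h1, ← h2]
      push_cast
      simp
    rw [ZMod.natCast_eq_zero_iff] at h3
    have h4 := Nat.le_of_dvd (by rcases hd with h | h <;> omega) h3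
    rcases hd with h | h <;> omega
  have hli : Ind fun i => (P i).map (Int.castRingHom (ZMod p)) := by
    apply ind_of_cop _ (fun i => (hPm i).map _) hPd
    intro i i' hii
    exact hcop _ _ (e i).2 (e i').2 (fun h => hii (e.injective (Subtype.ext h)))
  refine fewG (n := n) hp5 (by omega) hQp hQ (Pz j x) (Pz_monic j x) hP0 P hPm hn1 hli (sn j a)
    (fun k => sn j (y k)) hyi ?_
  intro k
  obtain ⟨hreg, -, _, K, _, _, θ, hθ, hK, hL⟩ := hA k
  obtain ⟨hgm, hgn⟩ := gam_natDegree_int (Pz j x) (Pz_monic j x) hP0 P hPm (sn j (τ k))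
  have hfin : Module.finrank ℚ K = n := by
    have h1 := (Pool.Agent.H33R4.places_proof _ (by rw [hpol]; exact hgm) hreg.1 K θ hθ hK).1
    rw [h1, hpol, hgn, hn1]
  have hrk : Units.rank K = r₁ + r₂ - 1 := by
    obtain ⟨h1, h2⟩ := hreg.2 K θ hθ hK
    unfold Units.rank
    rw [InfinitePlace.card_eq_nrRealPlaces_add_nrComplexPlaces K, h1, h2]
  have hθ' : aeval θ ((Pz j x + C (sn j a + p * sn j (y k))) * ∏ i, P i - 1 : ℤ[X]) = 0 := by
    rw [← sn_add, ← hy k, ← hpol]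
    exact hθ
  exact relG_of_not_leopoldt (n := n) (by omega) hQ0 hQ (Pz j x) (Pz_monic j x) hP0 P hPm hn1 _ K θ
    hθ' hfin hK hrk hL

end Pool.Agent.V5helper45.LS
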