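import Mathlib

/-!
# Powers of invertible matrices over the prime field
-/

set_option autoImplicit false

namespace Pool.Agent.V5helper45.LS

open Polynomial Matrix

variable {p : ℕ} [Fact p.Prime]

/-- an exponent prime to `p` which makes all invertible matrices unipotent -/
lemma exists_Q (p n : ℕ) [Fact p.Prime] : ∃ Q : ℕ, ¬ p ∣ Q ∧
    ∀ M : Matrix (Fin n) (Fin n) (ZMod p), IsUnit M → IsNilpotent (M ^ Q - 1) := by
  classical
  have hp : p.Prime := Fact.out
  have hfin : Nat.card (Matrix (Fin n) (Fin n) (ZMod p))ˣ ≠ 0 := Nat.card_pos.ne'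
  obtain ⟨e, Q, hQ, hN⟩ := Nat.exists_eq_pow_mul_and_not_dvd hfin p hp.ne_one
  refine ⟨Q, hQ, fun M hM => ⟨p ^ e, ?_⟩⟩
  obtain ⟨u, rfl⟩ := hM
  have h1 : u ^ (p ^ e * Q) = 1 := by
    rw [← hN]
    exact pow_card_eq_one'
  have h2 : ((u : Matrix (Fin n) (Fin n) (ZMod p)) ^ Q) ^ p ^ e = 1 := by
    rw [← pow_mul, mul_comm, ← Units.val_pow_eq_pow_val, h1, Units.val_one]
  rcases Nat.eq_zero_or_pos n with rfl | hn
  · exact Subsingleton.elim _ _
  · have : Nonempty (Fin n) := ⟨⟨0, hn⟩⟩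
    rw [sub_pow_char_pow_of_commute p e (Commute.one_right _), h2, one_pow, sub_self]

lemma nil_pow {F : Type} [Field F] {n : ℕ} {M : Matrix (Fin n) (Fin n) F} (hM : IsNilpotent M) :
    M ^ n = 0 := by
  have h1 := Matrix.isNilpotent_charpoly_sub_pow_of_isNilpotent hM
  have h2 : M.charpoly = X ^ n := by
    have := h1.eq_zero
    rw [sub_eq_zero, Fintype.card_fin] at this
    exact this
  have h3 := Matrix.aeval_self_charpoly M
  rw [h2, map_pow, aeval_X] at h3
  exact h3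

lemma nil_trace {F : Type} [Field F] {n : ℕ} {M : Matrix (Fin n) (Fin n) F} (hM : IsNilpotent M) :
    M.trace = 0 := (Matrix.isNilpotent_trace_of_isNilpotent hM).eq_zero

/-- a matrix all of whose entries vanish at `0` -/
lemma exists_smul_X {F : Type} [Field F] {n : ℕ} (M : Matrix (Fin n) (Fin n) F[X])
    (h : (evalRingHom (0 : F)).mapMatrix M = 0) : ∃ M', M = (X : F[X]) • M' := by
  have h1 : ∀ i j, ∃ q : F[X], M i j = X * q := by
    intro i j
    have h2 := congrFun (congrFun h i) j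
    simp only [RingHom.mapMatrix_apply, Matrix.map_apply, Matrix.zero_apply, coe_evalRingHom] at h2
    exact X_dvd_iff.2 (by rwa [← coeff_zero_eq_eval_zero] at h2)
  choose q hq using h1
  refine ⟨Matrix.of q, ?_⟩
  ext1 i j
  rw [Matrix.smul_apply, Matrix.of_apply, smul_eq_mul]
  exact hq i j

/-- the first two coefficients of `U ^ (Q p)` -/
theorem pow_two_coeffs {p n Q : ℕ} [Fact p.Prime] (hpn : 2 * n ≤ p)
    (hQ : ∀ M : Matrix (Fin n) (Fin n) (ZMod p), IsUnit M → IsNilpotent (M ^ Q - 1))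
    (U : Matrix (Fin n) (Fin n) (ZMod p)[X])
    (hU : IsUnit ((evalRingHom (0 : ZMod p)).mapMatrix U)) :
    ∃ M : Matrix (Fin n) (Fin n) (ZMod p)[X], U ^ (Q * p) = 1 + (X ^ 2 : (ZMod p)[X]) • M := by
  rcases Nat.eq_zero_or_pos n with rfl | hn
  · exact ⟨0, Subsingleton.elim _ _⟩
  have : Nonempty (Fin n) := ⟨⟨0, hn⟩⟩
  set N := U ^ Q - 1 with hN
  have h1 : (evalRingHom (0 : ZMod p)).mapMatrix (N ^ n) = 0 := by
    rw [map_pow, hN, map_sub, map_pow, map_one]
    exact nil_pow (hQ _ hU)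
  obtain ⟨M, hM⟩ := exists_smul_X _ h1
  refine ⟨M ^ 2 * N ^ (p - 2 * n), ?_⟩
  have h2 : U ^ Q = 1 + N := by rw [hN]; abel
  rw [pow_mul, h2, add_pow_expChar_of_commute p (Commute.one_left _), one_pow]
  congr 1
  have h3 : N ^ p = (N ^ n) ^ 2 * N ^ (p - 2 * n) := by
    rw [← pow_mul, ← pow_add]
    congr 1
    omega
  rw [h3, hM, _root_.smul_pow, smul_mul_assoc]

end Pool.Agent.V5helper45.LS
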