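import Mathlib

/-!
# Expansions of `(1 + p x) ^ (p ^ k)`
-/

set_option autoImplicit false

namespace Pool.Agent.V5helper45.LS

open Polynomial

lemma expand3 {A : Type} [CommRing A] (a : A) (n : ℕ) : ∃ w : A,
    (1 + a) ^ n = 1 + n * a + (n.choose 2 : ℕ) * a ^ 2 + (n.choose 3 : ℕ) * a ^ 3 + a ^ 4 * w := by
  induction n with
  | zero => exact ⟨0, by simp⟩
  | succ n ih =>
    obtain ⟨w, hw⟩ := ih
    refine ⟨(n.choose 3 : ℕ) + w * (1 + a), ?_⟩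
    have e2 : (n + 1).choose 2 = n + n.choose 2 := by
      rw [Nat.choose_succ_succ' n 1, Nat.choose_one_right]
    have e3 : (n + 1).choose 3 = n.choose 2 + n.choose 3 := Nat.choose_succ_succ' n 2
    rw [pow_succ, hw, e2, e3]
    push_cast
    ring

/-- `(1 + p x) ^ (p ^ k) = 1 + p ^ (k + 1) (x + c p x ^ 2 + p ^ 2 v)`, `c = (p - 1) / 2` -/
theorem pow_expand {p : ℕ} (hp : p.Prime) (hp5 : 5 ≤ p) (k : ℕ) : ∃ v : ℤ[X],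
    (1 + (p : ℤ[X]) * X) ^ (p ^ (k + 1)) =
      1 + (p : ℤ[X]) ^ (k + 2) * (X + (((p - 1) / 2 : ℕ) : ℤ[X]) * (p : ℤ[X]) * X ^ 2 + (p : ℤ[X]) ^ 2 * v) := by
  obtain ⟨c, hc⟩ : ∃ c, c = (p - 1) / 2 := ⟨_, rfl⟩
  have hodd : p % 2 = 1 := by
    rcases hp.eq_two_or_odd with h | h
    · omega
    · exact h
  have hc2 : p.choose 2 = c * p := by
    rw [Nat.choose_two_right, hc]
    have : p * (p - 1) = ((p - 1) / 2) * p * 2 := by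
      have : p - 1 = (p - 1) / 2 * 2 := by omega
      calc p * (p - 1) = p * ((p - 1) / 2 * 2) := by rw [← this]
        _ = _ := by ring
    rw [this, Nat.mul_div_cancel _ (by norm_num)]
  obtain ⟨d, hd⟩ : p ∣ p.choose 3 := hp.dvd_choose_self (by norm_num) (by omega)
  rw [← hc]
  induction k with
  | zero =>
    obtain ⟨w, hw⟩ := expand3 ((p : ℤ[X]) * X) p
    refine ⟨(d : ℤ[X]) * X ^ 3 + X ^ 4 * w, ?_⟩
    rw [zero_add, pow_one, hw, hc2, hd]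
    push_cast
    ring
  | succ k ih =>
    obtain ⟨v, hv⟩ := ih
    obtain ⟨Y, hY⟩ : ∃ Y : ℤ[X], Y = X + (c : ℤ[X]) * (p : ℤ[X]) * X ^ 2 + (p : ℤ[X]) ^ 2 * v := ⟨_, rfl⟩
    rw [← hY] at hv
    obtain ⟨w, hw⟩ := expand3 ((p : ℤ[X]) ^ (k + 2) * Y) p
    refine ⟨v + (c : ℤ[X]) * (p : ℤ[X]) ^ k * Y ^ 2 + (d : ℤ[X]) * (p : ℤ[X]) ^ (2 * k + 2) * Y ^ 3 +
      (p : ℤ[X]) ^ (3 * k + 3) * Y ^ 4 * w, ?_⟩
    have e1 : p ^ (k + 1 + 1) = p ^ (k + 1) * p := pow_succ _ _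
    rw [e1, pow_mul, hv, hw, hc2, hd]
    have e2 : X + (c : ℤ[X]) * (p : ℤ[X]) * X ^ 2 + (p : ℤ[X]) ^ 2 * (v + (c : ℤ[X]) * (p : ℤ[X]) ^ k * Y ^ 2 +
        (d : ℤ[X]) * (p : ℤ[X]) ^ (2 * k + 2) * Y ^ 3 + (p : ℤ[X]) ^ (3 * k + 3) * Y ^ 4 * w) =
        Y + (p : ℤ[X]) ^ 2 * ((c : ℤ[X]) * (p : ℤ[X]) ^ k * Y ^ 2 +
        (d : ℤ[X]) * (p : ℤ[X]) ^ (2 * k + 2) * Y ^ 3 + (p : ℤ[X]) ^ (3 * k + 3) * Y ^ 4 * w) := by
      rw [hY]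
      ring
    rw [e2]
    push_cast
    ring

end Pool.Agent.V5helper45.LS
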