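import Pool.Agent.V5helper45.LS.Der
import Pool.Agent.V5helper45.LS.PowP

/-!
# The two blocks of one unit
-/

set_option autoImplicit false

namespace Pool.Agent.V5helper45.LS

open Polynomial Matrix

variable {p : ℕ} [Fact p.Prime] {n : ℕ}

/-- the substitution `X ↦ p X` -/
noncomputable def sg (p : ℕ) [Fact p.Prime] : ℤ_[p][X] →+* ℤ_[p][X] :=
  compRingHom (C (p : ℤ_[p]) * X)

/-- reduction of polynomials modulo `p` -/
noncomputable def rp (p : ℕ) [Fact p.Prime] : ℤ_[p][X] →+* (ZMod p)[X] :=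
  mapRingHom (PadicInt.toZMod (p := p))

lemma sg_C (a : ℤ_[p]) : sg p (C a) = C a := by simp [sg]

lemma sg_X : sg p X = C (p : ℤ_[p]) * X := by simp [sg]

lemma rp_C (a : ℤ_[p]) : rp p (C a) = C (PadicInt.toZMod a) := by simp [rp]

lemma rp_X : rp p X = X := by simp [rp]

lemma rp_p : rp p (C (p : ℤ_[p])) = 0 := by rw [rp_C, toZMod_p, C_0]

lemma expand1 (q : ℤ_[p][X]) (z : ℤ_[p]) (h0 : q.coeff 0 = p * z) (h1 : (p : ℤ_[p]) ∣ q.coeff 1) :
    ∃ q' : ℤ_[p][X], sg p q = C (p : ℤ_[p]) * q' ∧ rp p q' = C (PadicInt.toZMod z) := by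
  obtain ⟨z1, hz1⟩ := h1
  have e : q = C (q.coeff 0) + C (q.coeff 1) * X + X ^ 2 * q.divX.divX := by
    conv_lhs => rw [← divX_mul_X_add q, ← divX_mul_X_add q.divX]
    rw [coeff_divX]
    ring
  refine ⟨C z + C (p * z1) * X + C (p : ℤ_[p]) * X ^ 2 * sg p q.divX.divX, ?_, ?_⟩
  · conv_lhs => rw [e]
    rw [h0, hz1]
    simp only [map_add, map_mul, map_pow, sg_C, sg_X]
    ring
  · simp only [map_add, map_mul, map_pow, rp_C, toZMod_p, C_0]
    ring

lemma expand2 (hp2 : p ≠ 2) (q : ℤ_[p][X]) (t κ : ℤ_[p]) (h0 : q.coeff 0 = p ^ 2 * t)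
    (h1 : q.coeff 1 = p * κ) (h2 : (p : ℤ_[p]) ∣ 2 * q.coeff 2) :
    ∃ T : ℤ_[p][X], sg p q = C (p : ℤ_[p]) ^ 2 * T ∧
      rp p T = C (PadicInt.toZMod t) + C (PadicInt.toZMod κ) * X := by
  have hp : p.Prime := Fact.out
  have h3 : (p : ℤ_[p]) ∣ q.coeff 2 := by
    rcases (PadicInt.prime_p (p := p)).dvd_or_dvd h2 with h | h
    · exfalso
      have h4 := (dvd_iff_toZMod _).1 h
      have h5 : ((2 : ℕ) : ZMod p) = 0 := by
        rw [Nat.cast_ofNat]
        exact (map_ofNat (PadicInt.toZMod (p := p)) 2).symm.trans h4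
      rw [ZMod.natCast_eq_zero_iff] at h5
      exact hp2 ((Nat.prime_dvd_prime_iff_eq hp Nat.prime_two).1 h5)
    · exact h
  have e : q = C (q.coeff 0) + C (q.coeff 1) * X + C (q.coeff 2) * X ^ 2 +
      X ^ 3 * q.divX.divX.divX := by
    conv_lhs => rw [← divX_mul_X_add q, ← divX_mul_X_add q.divX, ← divX_mul_X_add q.divX.divX]
    rw [coeff_divX, coeff_divX, coeff_divX]
    ring
  refine ⟨C t + C κ * X + C (q.coeff 2) * X ^ 2 + C (p : ℤ_[p]) * X ^ 3 * sg p q.divX.divX.divX,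
    ?_, ?_⟩
  · conv_lhs => rw [e]
    rw [h0, h1]
    simp only [map_add, map_mul, map_pow, sg_C, sg_X]
    ring
  · simp only [map_add, map_mul, map_pow, rp_C, toZMod_p, C_0, (dvd_iff_toZMod _).1 h3, rp_X]
    ring

/-- reduction of matrices of polynomials -/
lemma rp_CM (C0 C1 : Matrix (Fin n) (Fin n) ℤ_[p]) :
    (rp p).mapMatrix (CM C0 C1) = CM (red C0) (red C1) := by
  ext1 i j
  simp [CM, KM_apply, red_apply, rp]

lemma rp_KM (M : Matrix (Fin n) (Fin n) ℤ_[p]) : (rp p).mapMatrix (KM M) = KM (red M) := by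
  ext1 i j
  simp [KM_apply, red_apply, rp]

lemma rp_smul (q : ℤ_[p][X]) (M : Matrix (Fin n) (Fin n) ℤ_[p][X]) :
    (rp p).mapMatrix (q • M) = rp p q • (rp p).mapMatrix M := by
  ext1 i j
  simp

lemma red_smul' (q : ℤ_[p]) (M : Matrix (Fin n) (Fin n) ℤ_[p]) :
    red (q • M) = PadicInt.toZMod q • red M := red_smul q M

lemma rp_aeval (C0 C1 : Matrix (Fin n) (Fin n) ℤ_[p]) (q : ℤ_[p][X]) :
    (rp p).mapMatrix (aeval (CM C0 C1) q) = aeval (CM (red C0) (red C1)) (rp p q) := by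
  induction q using Polynomial.induction_on' with
  | add a b ha hb => rw [map_add, map_add, map_add, map_add, ha, hb]
  | monomial k a =>
    have e1 : rp p (monomial k a) = monomial k (PadicInt.toZMod a) := by simp [rp]
    rw [e1, aeval_monomial, aeval_monomial, map_mul, map_pow, rp_CM]
    congr 1
    ext1 i j
    rw [RingHom.mapMatrix_apply, Matrix.map_apply, Matrix.algebraMap_matrix_apply,
      Matrix.algebraMap_matrix_apply]
    split_ifs
    · rw [Polynomial.algebraMap_apply, Polynomial.algebraMap_apply, rp_C]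
      rfl
    · rw [map_zero]

lemma red_aeval (C0 : Matrix (Fin n) (Fin n) ℤ_[p]) (q : ℤ_[p][X]) :
    red (aeval C0 q) = aeval (red C0) (rp p q) := by
  induction q using Polynomial.induction_on' with
  | add a b ha hb => rw [map_add, map_add, map_add, map_add, ha, hb]
  | monomial k a =>
    have e1 : rp p (monomial k a) = monomial k (PadicInt.toZMod a) := by simp [rp]
    rw [e1, aeval_monomial, aeval_monomial, map_mul, map_pow]
    congr 1
    ext1 i j
    rw [red_apply, Matrix.algebraMap_matrix_apply, Matrix.algebraMap_matrix_apply]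
    split_ifs
    · rfl
    · rw [map_zero]

lemma rp_trace (M : Matrix (Fin n) (Fin n) ℤ_[p][X]) :
    rp p M.trace = ((rp p).mapMatrix M).trace := by
  simp [Matrix.trace]

lemma sg_trace (M : Matrix (Fin n) (Fin n) ℤ_[p][X]) :
    sg p M.trace = ((sg p).mapMatrix M).trace := by
  simp [Matrix.trace]

lemma rp_derivative (q : ℤ_[p][X]) : rp p (derivative q) = derivative (rp p q) := by
  simp [rp, derivative_map]

/-- the slope of the second block -/
noncomputable def slope {F : Type} [CommRing F] (Q a e : ℕ) (C0 C1 Z : Matrix (Fin n) (Fin n) F)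
    (u : F[X]) : F :=
  (((a : F) • (C0 ^ (a - 1) * Z) + (Q : F) • (C0 ^ a * (aeval C0 u ^ (e - 1) * aeval C0 (derivative u)))) *
    C1).trace

/-- **The two blocks.** -/
theorem one {Q : ℕ} (hp5 : 5 ≤ p) (hpn : 2 * n ≤ p)
    (hQ : ∀ M : Matrix (Fin n) (Fin n) (ZMod p), IsUnit M → IsNilpotent (M ^ Q - 1))
    (C0 C1 : Matrix (Fin n) (Fin n) ℤ_[p]) (u : ℤ_[p][X]) (hU : IsUnit (red (aeval C0 u))) :
    ∃ (Zb : Matrix (Fin n) (Fin n) (ZMod p)) (t : ℕ → ZMod p),
      ∀ k : ℕ, ∃ (Y : Matrix (Fin n) (Fin n) ℤ_[p][X]) (T : ℕ → ℤ_[p][X]),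
        (sg p).mapMatrix (aeval (CM C0 C1) (u ^ (Q * p * p ^ (k + 1)))) =
          1 + (C (p : ℤ_[p]) ^ (k + 2)) • Y ∧
        (rp p).mapMatrix Y = KM Zb ∧
        (∀ a : ℕ, ((sg p).mapMatrix (CM C0 C1) ^ a * Y).trace = C (p : ℤ_[p]) * T a) ∧
        ∀ a : ℕ, rp p (T a) = C (t a) + C (slope Q a (Q * p) (red C0) (red C1) Zb (rp p u)) * X := by
  have hp : p.Prime := Fact.out
  have hp2 : p ≠ 2 := by omega
  set U0 := aeval C0 u with hU0
  have hcomm : Commute C0 U0 := by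
    have h1 : aeval C0 (X * u) = aeval C0 (u * X) := by rw [mul_comm]
    rw [map_mul, map_mul, aeval_X] at h1
    exact h1
  obtain ⟨w, η, hw, hw1, hw2⟩ := tr0 hpn hQ C0 U0 hcomm hU
  set Z0 : Matrix (Fin n) (Fin n) ℤ_[p] := w + (p : ℤ_[p]) • η with hZ0
  have hUZ : U0 ^ (Q * p) = 1 + (p : ℤ_[p]) • Z0 := by
    rw [hw, hZ0, smul_add, smul_smul, pow_two, add_assoc]
  have hredZ : red Z0 = red w := by
    rw [hZ0, map_add, red_smul, toZMod_p, zero_smul, add_zero]
  -- the matrix modulo `p`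
  set Cb := CM (red C0) (red C1) with hCb
  obtain ⟨Mb, hMb⟩ := pow_two_coeffs hpn hQ (aeval Cb (rp p u)) (by
    rw [hCb, eval0_aeval, ← red_aeval]
    exact hU)
  -- the power of the unit
  set W := aeval (CM C0 C1) (u ^ (Q * p)) with hW
  have hWb : (rp p).mapMatrix W = 1 + (X ^ 2 : (ZMod p)[X]) • Mb := by
    rw [hW, rp_aeval, map_pow, map_pow, ← hMb]
  have hW0 : ∀ i j, (W i j).coeff 0 = (1 : Matrix (Fin n) (Fin n) ℤ_[p]) i j + p * Z0 i j := by
    intro i j
    have h1 := eval0_aeval C0 C1 (u ^ (Q * p))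
    rw [map_pow (aeval C0), ← hU0, hUZ, ← hW] at h1
    have h2 := congrFun (congrFun h1 i) j
    rw [RingHom.mapMatrix_apply, Matrix.map_apply, coe_evalRingHom, ← coeff_zero_eq_eval_zero] at h2
    rw [h2, Matrix.add_apply, Matrix.smul_apply, smul_eq_mul]
  have hW1 : ∀ i j, (p : ℤ_[p]) ∣ (W i j).coeff 1 := by
    intro i j
    rw [dvd_iff_toZMod]
    have h2 := congrArg (fun q => coeff q 1) (congrFun (congrFun hWb i) j)
    simp only [RingHom.mapMatrix_apply, Matrix.map_apply, Matrix.add_apply, Matrix.smul_apply,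
      smul_eq_mul, coeff_add] at h2
    have e1 : (rp p (W i j)).coeff 1 = PadicInt.toZMod ((W i j).coeff 1) := by simp [rp]
    rw [e1] at h2
    rw [h2, coeff_X_pow_mul', if_neg (by norm_num), add_zero, Matrix.one_apply]
    split_ifs <;> simp [coeff_one]
  -- after the substitution
  have hent : ∀ i j, ∃ q' : ℤ_[p][X], sg p (W i j - (1 : Matrix (Fin n) (Fin n) ℤ_[p][X]) i j) =
      C (p : ℤ_[p]) * q' ∧ rp p q' = C (PadicInt.toZMod (Z0 i j)) := by
    intro i j
    have e1 : (1 : Matrix (Fin n) (Fin n) ℤ_[p][X]) i j =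
        C ((1 : Matrix (Fin n) (Fin n) ℤ_[p]) i j) := by
      rw [Matrix.one_apply, Matrix.one_apply]
      split_ifs <;> simp
    apply expand1
    · rw [coeff_sub, hW0, e1, coeff_C_zero]
      ring
    · rw [coeff_sub, e1, coeff_C_succ, sub_zero]
      exact hW1 i j
  choose q hq1 hq2 using hent
  set Z : Matrix (Fin n) (Fin n) ℤ_[p][X] := Matrix.of q with hZ
  have hsW : (sg p).mapMatrix W = 1 + C (p : ℤ_[p]) • Z := by
    have h1 : (sg p).mapMatrix (W - 1) = C (p : ℤ_[p]) • Z := by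
      ext1 i j
      rw [RingHom.mapMatrix_apply, Matrix.map_apply, Matrix.sub_apply, hq1, Matrix.smul_apply, hZ,
        Matrix.of_apply, smul_eq_mul]
    rw [map_sub, map_one, sub_eq_iff_eq_add] at h1
    rw [h1, add_comm]
  have hrZ : (rp p).mapMatrix Z = KM (red w) := by
    ext1 i j
    rw [RingHom.mapMatrix_apply, Matrix.map_apply, hZ, Matrix.of_apply, hq2, KM_apply, ← hredZ,
      red_apply]
  set Cy := (sg p).mapMatrix (CM C0 C1) with hCy
  have hrCy : (rp p).mapMatrix Cy = KM (red C0) := by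
    rw [hCy]
    ext1 i j
    simp only [CM, RingHom.mapMatrix_apply, Matrix.map_apply, Matrix.add_apply, Matrix.smul_apply,
      KM_apply, smul_eq_mul, map_add, map_mul, sg_C, sg_X, rp_C, rp_X, toZMod_p, red_apply]
    simp
  -- the traces
  have htr : ∀ a : ℕ, ∃ T : ℤ_[p][X], (Cy ^ a * Z).trace = C (p : ℤ_[p]) * T ∧
      ∃ t : ZMod p, rp p T = C t + C (slope Q a (Q * p) (red C0) (red C1) (red w) (rp p u)) * X := by
    intro a
    obtain ⟨G, hG⟩ : ∃ G : ℤ_[p][X], G = X ^ a * (u ^ (Q * p) - 1) := ⟨_, rfl⟩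
    obtain ⟨τ, hτ⟩ : ∃ τ, τ = (aeval (CM C0 C1) G).trace := ⟨_, rfl⟩
    have hder : derivative τ = (aeval (CM C0 C1) (derivative G) * KM C1).trace := by
      rw [hτ]
      exact der_trace C0 C1 G
    have hG' : derivative G = C (a : ℤ_[p]) * X ^ (a - 1) * (u ^ (Q * p) - 1) +
        X ^ a * (C ((Q * p : ℕ) : ℤ_[p]) * u ^ (Q * p - 1) * derivative u) := by
      rw [hG, derivative_mul, derivative_X_pow, derivative_sub, derivative_one, sub_zero,
        derivative_pow]
    -- coefficient 0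
    have hτ0 : ∃ t, τ.coeff 0 = p ^ 2 * t := by
      obtain ⟨t1, ht1⟩ := hw1 a
      refine ⟨t1 + (C0 ^ a * η).trace, ?_⟩
      rw [hτ, trace_eval0, eval0_aeval, hG, map_mul, map_pow, aeval_X, map_sub, map_pow, map_one,
        ← hU0, hw]
      have e1 : C0 ^ a * (1 + (p : ℤ_[p]) • w + (p : ℤ_[p]) ^ 2 • η - 1) =
          (p : ℤ_[p]) • (C0 ^ a * w) + (p : ℤ_[p]) ^ 2 • (C0 ^ a * η) := by
        rw [add_assoc, add_sub_cancel_left, mul_add, mul_smul_comm, mul_smul_comm]
      rw [e1, Matrix.trace_add, Matrix.trace_smul, Matrix.trace_smul, ht1, smul_eq_mul, smul_eq_mul]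
      ring
    obtain ⟨t, ht⟩ := hτ0
    -- coefficient 1
    obtain ⟨κ, hκ⟩ : ∃ κ, κ = (((a : ℤ_[p]) • (C0 ^ (a - 1) * Z0) + (Q : ℤ_[p]) • (C0 ^ a *
      (U0 ^ (Q * p - 1) * aeval C0 (derivative u)))) * C1).trace := ⟨_, rfl⟩
    have hτ1 : τ.coeff 1 = p * κ := by
      have h1 : (derivative τ).coeff 0 = τ.coeff 1 := by
        rw [coeff_derivative]
        simp
      rw [← h1, hder, trace_eval0, map_mul, eval0_aeval]
      have h2 : (evalRingHom (0 : ℤ_[p])).mapMatrix (KM C1) = C1 := by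
        ext1 i j
        simp [KM_apply]
      rw [h2, hκ, hG']
      have h3 : aeval C0 (C (a : ℤ_[p]) * X ^ (a - 1) * (u ^ (Q * p) - 1) +
          X ^ a * (C ((Q * p : ℕ) : ℤ_[p]) * u ^ (Q * p - 1) * derivative u)) =
          (p : ℤ_[p]) • ((a : ℤ_[p]) • (C0 ^ (a - 1) * Z0) + (Q : ℤ_[p]) • (C0 ^ a *
            (U0 ^ (Q * p - 1) * aeval C0 (derivative u)))) := by
        have e1 : U0 ^ (Q * p) - 1 = (p : ℤ_[p]) • Z0 := by rw [hUZ, add_sub_cancel_left]
        simp only [map_add, map_mul, map_sub, map_pow, map_one, aeval_X, aeval_C, ← hU0, e1]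
        rw [← Algebra.smul_def, mul_assoc (algebraMap _ _ _), ← Algebra.smul_def, smul_mul_assoc,
          mul_smul_comm, mul_smul_comm, smul_add, smul_smul, smul_smul, smul_smul]
        congr 2
        · ring
        · push_cast
          ring
      rw [h3, smul_mul_assoc, Matrix.trace_smul, smul_eq_mul]
    -- coefficient 2
    have hτ2 : (p : ℤ_[p]) ∣ 2 * τ.coeff 2 := by
      have h1 : (derivative τ).coeff 1 = 2 * τ.coeff 2 := by
        rw [coeff_derivative]
        push_cast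
        ring
      rw [← h1, dvd_iff_toZMod]
      have e1 : PadicInt.toZMod ((derivative τ).coeff 1) = (rp p (derivative τ)).coeff 1 := by
        simp [rp]
      rw [e1, hder, rp_trace, map_mul, rp_aeval, rp_KM, hG']
      have e2 : rp p (C (a : ℤ_[p]) * X ^ (a - 1) * (u ^ (Q * p) - 1) +
          X ^ a * (C ((Q * p : ℕ) : ℤ_[p]) * u ^ (Q * p - 1) * derivative u)) =
          C (a : ZMod p) * X ^ (a - 1) * (rp p u ^ (Q * p) - 1) := by
        simp only [map_add, map_mul, map_sub, map_pow, map_one, rp_X, map_natCast]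
        push_cast
        rw [CharP.cast_eq_zero (ZMod p)[X] p]
        simp
      rw [e2, map_mul, map_sub, map_pow, map_one, ← hCb, hMb, add_sub_cancel_left, mul_smul_comm,
        smul_mul_assoc, Matrix.trace_smul, smul_eq_mul, coeff_X_pow_mul', if_neg (by norm_num)]
    obtain ⟨T, hT1, hT2⟩ := expand2 hp2 τ t κ ht hτ1 hτ2
    refine ⟨T, ?_, PadicInt.toZMod t, ?_⟩
    · have h1 : sg p τ = C (p : ℤ_[p]) * (Cy ^ a * Z).trace := by
        rw [hτ, sg_trace, hG, map_mul, map_pow, aeval_X, map_sub, map_one, ← hW, map_mul, map_pow,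
          ← hCy, map_sub, map_one, hsW, add_sub_cancel_left, mul_smul_comm, Matrix.trace_smul,
          smul_eq_mul]
      rw [hT1, pow_two, mul_assoc] at h1
      have hpC : C (p : ℤ_[p]) ≠ 0 := by
        rw [Ne, C_eq_zero]
        exact_mod_cast hp.ne_zero
      exact (mul_left_cancel₀ hpC h1).symm
    · rw [hT2]
      congr 3
      rw [hκ, red_trace, map_mul, map_add, red_smul, red_smul, map_mul, map_mul, map_mul, map_pow,
        map_pow, map_pow, hredZ, hU0, red_aeval, red_aeval, rp_derivative, map_natCast, map_natCast]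
      rfl
  choose T hT1 t hT2 using htr
  refine ⟨red w, t, fun k => ?_⟩
  obtain ⟨v, hv⟩ := pow_expand hp hp5 k
  obtain ⟨c, hc⟩ : ∃ c, c = (p - 1) / 2 := ⟨_, rfl⟩
  rw [← hc] at hv
  have hmap := congrArg (aeval Z) hv
  simp only [map_add, map_mul, map_pow, map_one, aeval_X, map_natCast] at hmap
  have hsC : ∀ (M : Matrix (Fin n) (Fin n) ℤ_[p][X]) (l : ℕ),
      (p : Matrix (Fin n) (Fin n) ℤ_[p][X]) ^ l * M = (C (p : ℤ_[p]) ^ l) • M := by
    intro M l
    have e1 : (C (p : ℤ_[p]) : ℤ_[p][X]) = ((p : ℕ) : ℤ_[p][X]) := by simp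
    rw [e1, ← Nat.cast_pow, ← Nat.cast_pow, ← nsmul_eq_mul, Nat.cast_smul_eq_nsmul]
  have hsC1 : ∀ (M : Matrix (Fin n) (Fin n) ℤ_[p][X]),
      (p : Matrix (Fin n) (Fin n) ℤ_[p][X]) * M = (C (p : ℤ_[p])) • M := by
    intro M
    have := hsC M 1
    rwa [pow_one, pow_one] at this
  -- the square
  have htr2 : ∀ a : ℕ, ∃ S : ℤ_[p][X], (Cy ^ a * Z ^ 2).trace = C (p : ℤ_[p]) * S := by
    intro a
    have h1 : rp p (Cy ^ a * Z ^ 2).trace = 0 := by
      rw [rp_trace, map_mul, map_pow, map_pow, hrCy, hrZ, ← map_pow KM, ← map_pow KM, ← map_mul KM]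
      have h2 : ∀ M : Matrix (Fin n) (Fin n) (ZMod p), (KM M).trace = C M.trace := by
        intro M
        simp only [Matrix.trace, Matrix.diag_apply, KM_apply, map_sum]
      rw [h2, ← map_pow, ← map_pow, ← map_mul, ← red_trace, (dvd_iff_toZMod _).1 (hw2 a), C_0]
    have h3 : C (p : ℤ_[p]) ∣ (Cy ^ a * Z ^ 2).trace := by
      rw [C_dvd_iff_dvd_coeff]
      intro i
      rw [dvd_iff_toZMod]
      have := congrArg (fun q => coeff q i) h1
      simpa [rp] using this
    exact h3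
  choose S hS using htr2
  refine ⟨Z + C (p : ℤ_[p]) • ((c : Matrix (Fin n) (Fin n) ℤ_[p][X]) * Z ^ 2) +
    (C (p : ℤ_[p]) ^ 2) • aeval Z v,
    fun a => T a + (c : ℤ_[p][X]) * (C (p : ℤ_[p]) * S a) + C (p : ℤ_[p]) * (Cy ^ a * aeval Z v).trace,
    ?_, ?_, ?_, ?_⟩
  · rw [pow_mul u, map_pow (aeval (CM C0 C1)), ← hW, map_pow, hsW, ← hsC1, hmap, hsC, hsC]
    congr 3
    rw [← hsC1, ← mul_assoc, Nat.cast_comm c]
  · rw [map_add, map_add, rp_smul, rp_smul, map_pow, rp_p, hrZ]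
    simp
  · intro a
    rw [mul_add, mul_add, Matrix.trace_add, Matrix.trace_add, hT1, mul_smul_comm, mul_smul_comm,
      Matrix.trace_smul, Matrix.trace_smul, ← nsmul_eq_mul, mul_smul_comm, Matrix.trace_smul, hS,
      nsmul_eq_mul, smul_eq_mul, smul_eq_mul]
    ring
  · intro a
    rw [map_add, map_add, map_mul, map_mul, map_mul, rp_p, hT2]
    ring

end Pool.Agent.V5helper45.LS
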