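import Mathlib

/-!
# A polynomial over `ℤ_p` whose reduction is monic of degree `r` has at most `r` approximate zeros
-/

set_option autoImplicit false

namespace Pool.Agent.V5helper45.LS

open Polynomial

variable {p : ℕ} [Fact p.Prime]

lemma dvd_iff_toZMod (x : ℤ_[p]) : (p : ℤ_[p]) ∣ x ↔ PadicInt.toZMod x = 0 := by
  rw [← RingHom.mem_ker, PadicInt.ker_toZMod, PadicInt.maximalIdeal_eq_span_p,
    Ideal.mem_span_singleton]

/-- if `d ≠ 0`, then `p ^ B ∣ d c` implies `p ∣ c` for some `B` -/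
lemma exists_B {d : ℤ_[p]} (hd : d ≠ 0) : ∃ B : ℕ, ∀ c : ℤ_[p], (p : ℤ_[p]) ^ B ∣ d * c → (p : ℤ_[p]) ∣ c := by
  have hp := PadicInt.prime_p (p := p)
  have hfin : FiniteMultiplicity (p : ℤ_[p]) d :=
    FiniteMultiplicity.of_prime_left hp hd
  refine ⟨multiplicity (p : ℤ_[p]) d + 1, fun c hc => ?_⟩
  by_contra hcon
  apply hfin.not_pow_dvd_of_multiplicity_lt (Nat.lt_succ_self _)
  exact (hp.pow_dvd_of_dvd_mul_right _ hcon hc)

theorem strass (r : ℕ) (y : Fin (r + 1) → ℤ) (hy : Function.Injective y) :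
    ∃ B : ℕ, ∀ D : ℤ_[p][X], (D.map PadicInt.toZMod).Monic →
      (D.map PadicInt.toZMod).natDegree = r →
      ¬ ∀ k, (p : ℤ_[p]) ^ B ∣ D.eval ((y k : ℤ) : ℤ_[p]) := by
  classical
  set v : Fin (r + 1) → ℤ_[p] := fun k => ((y k : ℤ) : ℤ_[p]) with hv
  have hvi : Function.Injective v := by
    intro a b hab
    have h1 : ((y a : ℤ) : ℤ_[p]) = ((y b : ℤ) : ℤ_[p]) := hab
    exact hy (by exact_mod_cast h1)
  have hdet : (Matrix.vandermonde v).det ≠ 0 := Matrix.det_vandermonde_ne_zero_iff.2 hvi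
  obtain ⟨B, hB⟩ := exists_B hdet
  refine ⟨B, fun D hDm hDr hD => ?_⟩
  set ω : ℤ_[p][X] := ∏ k, (X - C (v k)) with hω
  have hωm : ω.Monic := monic_prod_X_sub_C v _
  have hωd : ω.natDegree = r + 1 := by
    rw [hω, natDegree_finsetProd_X_sub_C_eq_card, Finset.card_univ, Fintype.card_fin]
  set ρ := D %ₘ ω with hρ
  have hρd : ρ.natDegree < r + 1 := by
    rw [← hωd]
    exact natDegree_modByMonic_lt D hωm (by
      intro h1
      rw [h1, natDegree_one] at hωd
      omega)
  have hρe : ∀ k, ρ.eval (v k) = D.eval (v k) := by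
    intro k
    have h1 := modByMonic_add_div D ω
    have h2 : ω.eval (v k) = 0 := by
      rw [hω, eval_prod]
      apply Finset.prod_eq_zero (Finset.mem_univ k)
      simp
    conv_rhs => rw [← h1]
    rw [eval_add, eval_mul, h2, zero_mul, add_zero]
  -- the coefficients of the remainder are divisible by p
  have hco : ∀ j : Fin (r + 1), (p : ℤ_[p]) ∣ ρ.coeff j := by
    intro j
    apply hB
    have h1 : (Matrix.vandermonde v).mulVec (fun j => ρ.coeff j) = fun k => D.eval (v k) := by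
      funext k
      rw [← hρe k, eval_eq_sum_range' hρd, Finset.sum_range]
      simp only [Matrix.mulVec, dotProduct, Matrix.vandermonde_apply]
      exact Finset.sum_congr rfl fun j _ => mul_comm _ _
    have h2 : (Matrix.vandermonde v).adjugate.mulVec ((Matrix.vandermonde v).mulVec
        (fun j => ρ.coeff j)) = (Matrix.vandermonde v).det • (fun j : Fin (r + 1) => ρ.coeff j) := by
      rw [Matrix.mulVec_mulVec, Matrix.adjugate_mul, Matrix.smul_mulVec, Matrix.one_mulVec]
    have h3 := congrFun h2 j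
    rw [Pi.smul_apply, smul_eq_mul] at h3
    rw [← h3, h1]
    simp only [Matrix.mulVec, dotProduct]
    exact Finset.dvd_sum fun k _ => Dvd.dvd.mul_left (hD k) _
  have hρ0 : ρ.map PadicInt.toZMod = 0 := by
    ext j
    rw [coeff_map, coeff_zero]
    by_cases hj : j < r + 1
    · exact (dvd_iff_toZMod _).1 (hco ⟨j, hj⟩)
    · rw [coeff_eq_zero_of_natDegree_lt (by omega), map_zero]
  have h4 : D.map PadicInt.toZMod = ω.map PadicInt.toZMod * (D /ₘ ω).map PadicInt.toZMod := by
    conv_lhs => rw [← modByMonic_add_div D ω]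
    rw [Polynomial.map_add, Polynomial.map_mul, ← hρ, hρ0, zero_add]
  have h5 : (D /ₘ ω).map (PadicInt.toZMod (p := p)) ≠ 0 := by
    intro h0
    rw [h0, mul_zero] at h4
    exact hDm.ne_zero h4
  have h6 := congrArg natDegree h4
  rw [hDr, (hωm.map _).natDegree_mul' h5, hωm.natDegree_map, hωd] at h6
  omega

end Pool.Agent.V5helper45.LS
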