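import Pool.Agent.V5helper45.LS.Nil
import Pool.Agent.V5helper45.LS.Strass

/-!
# The traces of `C ^ a (U ^ (Q p) - 1)` are divisible by `p ^ 2`
-/

set_option autoImplicit false

namespace Pool.Agent.V5helper45.LS

open Polynomial Matrix

variable {p : ℕ} [Fact p.Prime] {n : ℕ}

/-- reduction of matrices modulo `p` -/
noncomputable def red : Matrix (Fin n) (Fin n) ℤ_[p] →+* Matrix (Fin n) (Fin n) (ZMod p) :=
  (PadicInt.toZMod (p := p)).mapMatrix

lemma red_apply (M : Matrix (Fin n) (Fin n) ℤ_[p]) (i j : Fin n) :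
    red M i j = PadicInt.toZMod (M i j) := rfl

lemma red_smul (c : ℤ_[p]) (M : Matrix (Fin n) (Fin n) ℤ_[p]) :
    red (c • M) = PadicInt.toZMod c • red M := by
  ext i j
  simp [red_apply]

lemma red_trace (M : Matrix (Fin n) (Fin n) ℤ_[p]) :
    PadicInt.toZMod M.trace = (red M).trace := by
  simp [Matrix.trace, red_apply]

lemma red_eq_zero (M : Matrix (Fin n) (Fin n) ℤ_[p]) (h : red M = 0) :
    ∃ M', M = (p : ℤ_[p]) • M' := by
  have h1 : ∀ i j, ∃ q : ℤ_[p], M i j = p * q := by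
    intro i j
    have h2 := congrFun (congrFun h i) j
    rw [red_apply] at h2
    exact (dvd_iff_toZMod _).2 h2
  choose q hq using h1
  refine ⟨Matrix.of q, ?_⟩
  ext1 i j
  rw [Matrix.smul_apply, Matrix.of_apply, smul_eq_mul]
  exact hq i j

lemma toZMod_p : PadicInt.toZMod ((p : ℕ) : ℤ_[p]) = 0 := by
  rw [map_natCast]
  exact ZMod.natCast_self p

theorem tr0 {Q : ℕ} (hpn : 2 * n ≤ p)
    (hQ : ∀ M : Matrix (Fin n) (Fin n) (ZMod p), IsUnit M → IsNilpotent (M ^ Q - 1))
    (C U : Matrix (Fin n) (Fin n) ℤ_[p]) (hCU : Commute C U) (hU : IsUnit (red U)) :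
    ∃ w η : Matrix (Fin n) (Fin n) ℤ_[p],
      U ^ (Q * p) = 1 + (p : ℤ_[p]) • w + ((p : ℤ_[p]) ^ 2) • η ∧
      (∀ a : ℕ, (p : ℤ_[p]) ∣ (C ^ a * w).trace) ∧
      (∀ a : ℕ, (p : ℤ_[p]) ∣ (C ^ a * w ^ 2).trace) := by
  have hp : p.Prime := Fact.out
  obtain ⟨r, hr⟩ := exists_add_pow_prime_eq hp (1 : ℤ[X]) X
  rw [one_pow, mul_one] at hr
  set ν := U ^ Q - 1 with hν
  have hnil : IsNilpotent (red ν) := by
    rw [hν, map_sub, map_pow, map_one]
    exact hQ _ hU
  have hCν : Commute C ν := (hCU.pow_right Q).sub_right (Commute.one_right _)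
  set w := ν * aeval ν r with hw
  have hνr : Commute ν (aeval ν r) := by
    have h1 : aeval ν (X * r) = aeval ν (r * X) := by rw [mul_comm]
    rw [map_mul, map_mul, aeval_X] at h1
    exact h1
  have hCr : Commute C (aeval ν r) := by
    have h1 : ∀ q : ℤ[X], Commute C (aeval ν q) := by
      intro q
      induction q using Polynomial.induction_on' with
      | add a b ha hb => rw [map_add]; exact ha.add_right hb
      | monomial k a =>
        rw [aeval_monomial]
        exact (Algebra.commute_algebraMap_right a C).mul_right (hCν.pow_right k)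
    exact h1 r
  have hCw : Commute C w := hCν.mul_right hCr
  have hnw : IsNilpotent (red w) := by
    rw [hw, map_mul]
    exact (hνr.map red).isNilpotent_mul_right hnil
  -- nilpotency of the reductions
  have hn1 : ∀ a : ℕ, (p : ℤ_[p]) ∣ (C ^ a * w).trace := by
    intro a
    rw [dvd_iff_toZMod, red_trace]
    apply nil_trace
    rw [map_mul]
    exact ((hCw.pow_left a).map red).isNilpotent_mul_left hnw
  have hn2 : ∀ a : ℕ, (p : ℤ_[p]) ∣ (C ^ a * w ^ 2).trace := by
    intro a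
    rw [dvd_iff_toZMod, red_trace]
    apply nil_trace
    rw [map_mul]
    refine (((hCw.pow_left a).pow_right 2).map red).isNilpotent_mul_left ?_
    rw [map_pow]
    exact hnw.pow_of_pos (by norm_num)
  have hνn : red (ν ^ n) = 0 := by
    rw [map_pow]
    exact nil_pow hnil
  obtain ⟨η, hη⟩ := red_eq_zero _ hνn
  refine ⟨w, η ^ 2 * ν ^ (p - 2 * n), ?_, hn1, hn2⟩
  have h2 : U ^ Q = 1 + ν := by rw [hν]; abel
  have h3 := congrArg (aeval ν) hr
  rw [map_pow, map_add, map_one, aeval_X, map_add, map_add, map_one, map_pow, aeval_X, map_mul,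
    map_mul, aeval_X, map_natCast] at h3
  rw [pow_mul, h2, h3]
  have h4 : ν ^ p = ((p : ℤ_[p]) ^ 2) • (η ^ 2 * ν ^ (p - 2 * n)) := by
    have h5 : ν ^ p = (ν ^ n) ^ 2 * ν ^ (p - 2 * n) := by
      rw [← pow_mul, ← pow_add]
      congr 1
      omega
    rw [h5, hη, _root_.smul_pow, smul_mul_assoc]
  have h5 : ((p : ℕ) : Matrix (Fin n) (Fin n) ℤ_[p]) * ν * aeval ν r = (p : ℤ_[p]) • w := by
    rw [mul_assoc, ← hw, Nat.cast_smul_eq_nsmul ℤ_[p], nsmul_eq_mul]
  rw [h4, h5]
  abel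

end Pool.Agent.V5helper45.LS
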